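import Pool.Agent.Q270.VS.Dy

/-!
# Families of geometric progressions times `m ^ θ`
-/

set_option autoImplicit false

namespace Pool.Agent.Q270.VS

open Finset Filter Topology

/-- shifting the windows -/
lemma cn_shift (y : ℕ → ℝ) (t s n : ℕ) (a b : ℝ) :
    cn (fun j => y (t + j)) s n a b = cn y (t + s) n a b := by
  unfold cn
  refine Finset.card_bij (fun j _ => t + j) ?_ ?_ ?_
  · intro j hj
    rw [mem_filter, mem_Ico] at hj ⊢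
    exact ⟨by omega, hj.2⟩
  · intro i _ j _ h
    omega
  · intro j hj
    rw [mem_filter, mem_Ico] at hj
    refine ⟨j - t, ?_, by omega⟩
    have h1 : t + (j - t) = j := by omega
    rw [mem_filter, mem_Ico]
    refine ⟨by omega, ?_⟩
    simp only [h1]
    exact hj.2

/-- **geometric progressions times powers**: for almost all `m ≤ N` and all `(α, β)` in a large
finite set the sequence `α β ^ j m ^ θ` has almost square root discrepancy in all windows -/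
theorem geoN : ∃ δ : ℝ, 0 < δ ∧ ∀ θ : ℝ, (∀ n : ℕ, θ ≠ n) → ∀ ε c : ℝ, 0 < ε → 0 < c →
    ∃ κ : ℝ, 0 < κ ∧ ∀ᶠ N : ℕ in atTop, ∀ S : Finset (ℝ × ℝ),
      (S.card : ℝ) ≤ Real.exp ((Real.log N) ^ κ) →
      (∀ p ∈ S, 1 ≤ |p.1| ∧ |p.1| ≤ N ∧ 1 + c ≤ p.2) →
      ∃ B : Finset ℕ, (B.card : ℝ) ≤ N * Real.exp (-(Real.log N) ^ κ) ∧
        ∀ m, 1 ≤ m → m ≤ N → m ∉ B → ∀ p ∈ S, ∀ s n : ℕ,
          (N : ℝ) ^ ε ≤ p.2 ^ s * (N : ℝ) ^ θ →
          p.2 ^ (s + n) * (N : ℝ) ^ θ ≤ Real.exp ((Real.log N) ^ (1 + δ)) →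
          ∀ a b : ℝ, 0 ≤ a → a ≤ b → b ≤ 1 →
            |(cn (fun j => p.1 * p.2 ^ j * (m : ℝ) ^ θ) s n a b : ℝ) - n * (b - a)| ≤
              √(n : ℝ) * (Real.log N) ^ ε := by
  classical
  obtain ⟨δ₀, hδ₀, hlac⟩ := lacN
  refine ⟨δ₀ / 2, by positivity, ?_⟩
  intro θ hθ ε c hε hc
  obtain ⟨G₀, hG₀⟩ : ∃ G₀ : ℕ, 2 ≤ (1 + c) ^ G₀ := by
    obtain ⟨n, hn⟩ := pow_unbounded_of_one_lt 2 (show 1 < 1 + c by linarith)
    exact ⟨n, hn.le⟩
  have hG₀1 : 1 ≤ G₀ := by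
    rcases Nat.eq_zero_or_pos G₀ with h | h
    · rw [h] at hG₀
      norm_num at hG₀
    · exact h
  obtain ⟨κ, hκ, hκ1, hlac⟩ := hlac θ hθ ε G₀ hε hG₀1
  refine ⟨κ, hκ, ?_⟩
  have hlog : Tendsto (fun X : ℕ => Real.log (X : ℝ)) atTop atTop :=
    Real.tendsto_log_atTop.comp tendsto_natCast_atTop_atTop
  have e1 : ∀ᶠ N : ℕ in atTop, (2 : ℝ) ≤ (Real.log N) ^ (δ₀ / 2) :=
    hlog.eventually ((tendsto_rpow_atTop (by positivity)).eventually_ge_atTop _)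
  filter_upwards [hlac, e1, eventually_ge_atTop 2, hlog.eventually_ge_atTop 1] with N hN h1 h2 h3
  intro S hS hSp
  have hN1 : (1 : ℝ) ≤ N := by exact_mod_cast (by omega : 1 ≤ N)
  have hNp : (0 : ℝ) < N := by linarith
  obtain ⟨ℓ, hℓ⟩ : ∃ ℓ : ℝ, ℓ = Real.log N := ⟨_, rfl⟩
  rw [← hℓ] at h1 h3
  have hℓ0 : 0 < ℓ := by linarith
  have hNexp : (N : ℝ) = Real.exp ℓ := by rw [hℓ, Real.exp_log hNp]
  have hθp : (0 : ℝ) < (N : ℝ) ^ θ := Real.rpow_pos_of_pos hNp θ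
  -- the first place
  have hfirst : ∀ p : ℝ × ℝ, 1 + c ≤ p.2 → ∃ s : ℕ, (N : ℝ) ^ ε ≤ p.2 ^ s * (N : ℝ) ^ θ ∧
      ∀ s' : ℕ, (N : ℝ) ^ ε ≤ p.2 ^ s' * (N : ℝ) ^ θ → s ≤ s' := by
    intro p hp
    have hex : ∃ s : ℕ, (N : ℝ) ^ ε ≤ p.2 ^ s * (N : ℝ) ^ θ := by
      obtain ⟨s, hs⟩ := pow_unbounded_of_one_lt ((N : ℝ) ^ ε / (N : ℝ) ^ θ)
        (show 1 < p.2 by linarith)
      refine ⟨s, ?_⟩
      rw [div_lt_iff₀ hθp] at hs
      exact hs.le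
    exact ⟨Nat.find hex, Nat.find_spec hex, fun s' hs' => Nat.find_min' hex hs'⟩
  -- the last place
  have hlast : ∀ p : ℝ × ℝ, 1 + c ≤ p.2 → ∃ T : ℕ, (∀ t < T, p.2 ^ t * (N : ℝ) ^ θ ≤
      Real.exp (ℓ ^ (1 + δ₀ / 2))) ∧
      ∀ t : ℕ, p.2 ^ t * (N : ℝ) ^ θ ≤ Real.exp (ℓ ^ (1 + δ₀ / 2)) → t ≤ T := by
    intro p hp
    have hex : ∃ s : ℕ, Real.exp (ℓ ^ (1 + δ₀ / 2)) < p.2 ^ s * (N : ℝ) ^ θ := by
      obtain ⟨s, hs⟩ := pow_unbounded_of_one_lt (Real.exp (ℓ ^ (1 + δ₀ / 2)) / (N : ℝ) ^ θ)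
        (show 1 < p.2 by linarith)
      refine ⟨s, ?_⟩
      rw [div_lt_iff₀ hθp] at hs
      exact hs
    refine ⟨Nat.find hex, fun t ht => not_lt.1 (Nat.find_min hex ht), fun t ht => ?_⟩
    by_contra hcon
    push Not at hcon
    have h4 := Nat.find_spec hex
    have h5 : p.2 ^ (Nat.find hex) ≤ p.2 ^ t := pow_le_pow_right₀ (by linarith) hcon.le
    have h6 : p.2 ^ (Nat.find hex) * (N : ℝ) ^ θ ≤ p.2 ^ t * (N : ℝ) ^ θ := by gcongr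
    linarith
  choose! s₀ hs₀ hs₀' using hfirst
  choose! T hT hT' using hlast
  obtain ⟨B, hBc, hB⟩ := hN (ℝ × ℝ) S (fun p j => p.1 * p.2 ^ (s₀ p + j)) (fun p => T p - s₀ p) hS
    (by
      intro p hp n hn
      obtain ⟨hp1, hp2, hp3⟩ := hSp p hp
      have hp2' : 1 ≤ p.2 := by linarith
      have hp0 : 0 ≤ p.2 := by linarith
      rw [abs_mul, abs_of_nonneg (pow_nonneg hp0 (s₀ p + n))]
      calc (N : ℝ) ^ ε ≤ p.2 ^ (s₀ p) * (N : ℝ) ^ θ := hs₀ p hp3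
        _ ≤ p.2 ^ (s₀ p + n) * (N : ℝ) ^ θ := by
            refine mul_le_mul_of_nonneg_right ?_ hθp.le
            exact pow_le_pow_right₀ hp2' (Nat.le_add_right _ _)
        _ = 1 * p.2 ^ (s₀ p + n) * (N : ℝ) ^ θ := by ring
        _ ≤ |p.1| * p.2 ^ (s₀ p + n) * (N : ℝ) ^ θ := by
            refine mul_le_mul_of_nonneg_right ?_ hθp.le
            refine mul_le_mul_of_nonneg_right hp1 (by positivity))
    (by
      intro p hp n hn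
      obtain ⟨hp1, hp2, hp3⟩ := hSp p hp
      have hp0 : 0 ≤ p.2 := by linarith
      rw [abs_mul, abs_of_nonneg (pow_nonneg hp0 (s₀ p + n))]
      have h4 := hT p hp3 (s₀ p + n) (by omega)
      rw [← hℓ]
      calc |p.1| * p.2 ^ (s₀ p + n) * (N : ℝ) ^ θ = |p.1| * (p.2 ^ (s₀ p + n) * (N : ℝ) ^ θ) := by
            ring
        _ ≤ N * Real.exp (ℓ ^ (1 + δ₀ / 2)) := by
            refine mul_le_mul hp2 h4 ?_ hNp.le
            exact mul_nonneg (pow_nonneg (by linarith) _) hθp.le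
        _ = Real.exp (ℓ + ℓ ^ (1 + δ₀ / 2)) := by rw [Real.exp_add, hNexp]
        _ ≤ Real.exp (ℓ ^ (1 + δ₀)) := by
            apply Real.exp_le_exp.2
            have h8 : ℓ ≤ ℓ ^ (1 + δ₀ / 2) := by
              calc ℓ = ℓ ^ (1 : ℝ) := (Real.rpow_one ℓ).symm
                _ ≤ _ := Real.rpow_le_rpow_of_exponent_le (by linarith) (by linarith)
            have h11 : ℓ ^ (1 + δ₀) = ℓ ^ (δ₀ / 2) * ℓ ^ (1 + δ₀ / 2) := by
              rw [← Real.rpow_add hℓ0]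
              congr 1
              ring
            rw [h11]
            have h12 : 0 ≤ ℓ ^ (1 + δ₀ / 2) := by positivity
            nlinarith)
    (by
      intro p hp n hn
      obtain ⟨hp1, hp2, hp3⟩ := hSp p hp
      have h4 : 2 ≤ p.2 ^ G₀ := hG₀.trans (pow_le_pow_left₀ (by linarith) hp3 _)
      have h5 : p.2 ^ (s₀ p + (n + G₀)) = p.2 ^ G₀ * p.2 ^ (s₀ p + n) := by
        rw [← pow_add]
        congr 1
        ring
      rw [h5, abs_mul, abs_mul, abs_mul (p.2 ^ G₀),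
        abs_of_nonneg (pow_nonneg (show 0 ≤ p.2 by linarith) G₀)]
      have h6 : 0 ≤ |p.1| * |p.2 ^ (s₀ p + n)| := by positivity
      nlinarith)
  refine ⟨B, hBc, ?_⟩
  intro m hm1 hm2 hmB p hp s n hs hn a b ha hab hb
  obtain ⟨hp1, hp2, hp3⟩ := hSp p hp
  rw [← hℓ] at hn
  have h4 := hs₀' p hp3 s hs
  have h5 := hT' p hp3 (s + n) hn
  have h6 := hB m hm1 hm2 hmB p hp (s - s₀ p) n (by omega) a b ha hab hb
  have h7 := cn_shift (fun j => p.1 * p.2 ^ j * (m : ℝ) ^ θ) (s₀ p) (s - s₀ p) n a b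
  have h8 : s₀ p + (s - s₀ p) = s := by omega
  rw [h8] at h7
  rw [← h7]
  exact h6

end Pool.Agent.Q270.VS
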