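import Pool.Agent.Q270.VS.Ws

/-!
# Exponential sums with smooth phases
-/

set_option autoImplicit false

namespace Pool.Agent.Q270.VS

open Finset Filter Topology
open Pool.Agent.Y957.VK (dz mn WJ TT)
open Pool.Agent.Y933.KD (e)
open Pool.Agent.Q270.VB (tt norm_e exists_r0)

/-- shifting a sum -/
lemma shift_one (F : ℕ → ℂ) (hF : ∀ n, ‖F n‖ ≤ 1) (A B u : ℕ) :
    ‖∑ b ∈ Ioc A B, F b - ∑ b ∈ Ioc A B, F (b + u)‖ ≤ 2 * u := by
  classical
  have h1 : ∑ b ∈ Ioc A B, F (b + u) = ∑ b ∈ Ioc (A + u) (B + u), F b := by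
    rw [← Finset.image_add_right_Ioc, Finset.sum_image (fun x _ y _ h => by simpa using h)]
  rw [h1]
  have h2 : ∑ b ∈ Ioc A B, F b - ∑ b ∈ Ioc (A + u) (B + u), F b =
      ∑ b ∈ Ioc A B \ Ioc (A + u) (B + u), F b - ∑ b ∈ Ioc (A + u) (B + u) \ Ioc A B, F b := by
    have e1 := Finset.sum_inter_add_sum_sdiff (Ioc A B) (Ioc (A + u) (B + u)) F
    have e2 := Finset.sum_inter_add_sum_sdiff (Ioc (A + u) (B + u)) (Ioc A B) F
    rw [inter_comm] at e2
    rw [← e1, ← e2]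
    ring
  rw [h2]
  have h3 : (Ioc A B \ Ioc (A + u) (B + u)).card ≤ u := by
    have : Ioc A B \ Ioc (A + u) (B + u) ⊆ Ioc A (A + u) := by
      intro b hb
      rw [Finset.mem_sdiff, mem_Ioc, mem_Ioc] at hb
      rw [mem_Ioc]
      omega
    have := card_le_card this
    rw [Nat.card_Ioc] at this
    omega
  have h4 : (Ioc (A + u) (B + u) \ Ioc A B).card ≤ u := by
    have : Ioc (A + u) (B + u) \ Ioc A B ⊆ Ioc B (B + u) := by
      intro b hb
      rw [Finset.mem_sdiff, mem_Ioc, mem_Ioc] at hb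
      rw [mem_Ioc]
      omega
    have := card_le_card this
    rw [Nat.card_Ioc] at this
    omega
  have h5 : ∀ S : Finset ℕ, S.card ≤ u → ‖∑ b ∈ S, F b‖ ≤ u := by
    intro S hS
    calc ‖∑ b ∈ S, F b‖ ≤ ∑ b ∈ S, ‖F b‖ := norm_sum_le _ _
      _ ≤ ∑ _b ∈ S, (1 : ℝ) := sum_le_sum fun b _ => hF b
      _ = S.card := by rw [sum_const, nsmul_eq_mul, mul_one]
      _ ≤ u := by exact_mod_cast hS
  calc _ ≤ ‖∑ b ∈ Ioc A B \ Ioc (A + u) (B + u), F b‖ +
        ‖∑ b ∈ Ioc (A + u) (B + u) \ Ioc A B, F b‖ := norm_sub_le _ _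
    _ ≤ u + u := add_le_add (h5 _ h3) (h5 _ h4)
    _ = 2 * u := by ring

/-- averaging over the shifts by products -/
lemma shift (F : ℕ → ℂ) (hF : ∀ n, ‖F n‖ ≤ 1) (A B M : ℕ) (hM : 1 ≤ M) :
    ‖∑ b ∈ Ioc A B, F b‖ ≤
      1 / (M : ℝ) ^ 2 * ∑ b ∈ Ioc A B, ‖∑ x ∈ Icc 1 M, ∑ y ∈ Icc 1 M, F (b + x * y)‖ +
        2 * (M : ℝ) ^ 2 := by
  have hMp : (0 : ℝ) < M := by exact_mod_cast hM
  have h1 : (M : ℂ) ^ 2 * ∑ b ∈ Ioc A B, F b =
      ∑ b ∈ Ioc A B, ∑ x ∈ Icc 1 M, ∑ y ∈ Icc 1 M, F (b + x * y) +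
      ∑ x ∈ Icc 1 M, ∑ y ∈ Icc 1 M,
        (∑ b ∈ Ioc A B, F b - ∑ b ∈ Ioc A B, F (b + x * y)) := by
    have h2 : ∑ b ∈ Ioc A B, ∑ x ∈ Icc 1 M, ∑ y ∈ Icc 1 M, F (b + x * y) =
        ∑ x ∈ Icc 1 M, ∑ y ∈ Icc 1 M, ∑ b ∈ Ioc A B, F (b + x * y) := by
      rw [Finset.sum_comm]
      exact sum_congr rfl fun x _ => Finset.sum_comm
    rw [h2, ← sum_add_distrib]
    simp only [← sum_add_distrib]
    simp only [add_sub_cancel, sum_const, Nat.card_Icc, Nat.add_sub_cancel, nsmul_eq_mul]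
    ring
  have h2 : ‖∑ x ∈ Icc 1 M, ∑ y ∈ Icc 1 M,
      (∑ b ∈ Ioc A B, F b - ∑ b ∈ Ioc A B, F (b + x * y))‖ ≤ 2 * (M : ℝ) ^ 4 := by
    calc _ ≤ ∑ x ∈ Icc 1 M, ∑ y ∈ Icc 1 M,
          ‖∑ b ∈ Ioc A B, F b - ∑ b ∈ Ioc A B, F (b + x * y)‖ :=
          (norm_sum_le _ _).trans (sum_le_sum fun x _ => norm_sum_le _ _)
      _ ≤ ∑ _x ∈ Icc 1 M, ∑ _y ∈ Icc 1 M, 2 * (M : ℝ) ^ 2 := by
          refine sum_le_sum fun x hx => sum_le_sum fun y hy => ?_
          refine (shift_one F hF A B (x * y)).trans ?_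
          rw [mem_Icc] at hx hy
          have : x * y ≤ M * M := Nat.mul_le_mul hx.2 hy.2
          have h3 : ((x * y : ℕ) : ℝ) ≤ (M : ℝ) ^ 2 := by
            rw [sq]
            exact_mod_cast this
          linarith
      _ = 2 * (M : ℝ) ^ 4 := by
          simp only [sum_const, Nat.card_Icc, Nat.add_sub_cancel, nsmul_eq_mul]
          ring
  have h3 : (M : ℝ) ^ 2 * ‖∑ b ∈ Ioc A B, F b‖ ≤
      ∑ b ∈ Ioc A B, ‖∑ x ∈ Icc 1 M, ∑ y ∈ Icc 1 M, F (b + x * y)‖ + 2 * (M : ℝ) ^ 4 := by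
    calc (M : ℝ) ^ 2 * ‖∑ b ∈ Ioc A B, F b‖ = ‖(M : ℂ) ^ 2 * ∑ b ∈ Ioc A B, F b‖ := by
          rw [norm_mul, norm_pow, Complex.norm_natCast]
      _ ≤ _ := by
          rw [h1]
          exact (norm_add_le _ _).trans (add_le_add (norm_sum_le _ _) h2)
  have h4 : 0 < (M : ℝ) ^ 2 := by positivity
  refine le_of_mul_le_mul_left (h3.trans (le_of_eq ?_)) h4
  field_simp

lemma e_add (x y : ℝ) : e (x + y) = e x * e y := by
  unfold e
  rw [← Complex.exp_add]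
  congr 1
  push_cast
  ring

lemma e_close (x y : ℝ) : ‖e x - e y‖ ≤ 2 * Real.pi * |x - y| := by
  have h1 : e x - e y = e y * (e (x - y) - 1) := by
    have : e x = e y * e (x - y) := by
      rw [← e_add]
      congr 1
      ring
    rw [this]
    ring
  rw [h1, norm_mul, norm_e, one_mul]
  unfold e
  have h2 := Real.norm_exp_I_mul_ofReal_sub_one_le (x := 2 * Real.pi * (x - y))
  rw [Real.norm_eq_abs, abs_mul, abs_of_pos Real.two_pi_pos] at h2
  refine le_trans (le_of_eq ?_) h2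
  congr 3
  push_cast
  ring

/-- the inner sums are close to the bilinear sums -/
lemma inner_close {F : ℕ → ℝ} {a : ℕ → ℝ} {r M b : ℕ} {η : ℝ}
    (h : ∀ x ∈ Icc 1 M, ∀ y ∈ Icc 1 M,
      |F (b + x * y) - F b - ∑ j ∈ Icc 1 r, a j * ((x : ℝ) * y) ^ j| ≤ η) :
    ‖∑ x ∈ Icc 1 M, ∑ y ∈ Icc 1 M, e (F (b + x * y))‖ ≤
      ‖TT r M a‖ + (M : ℝ) ^ 2 * (2 * Real.pi * η) := by
  have h2 : e (F b) * TT r M a = ∑ x ∈ Icc 1 M, ∑ y ∈ Icc 1 M,
      e (F b + ∑ j ∈ Icc 1 r, a j * ((x : ℝ) * y) ^ j) := by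
    unfold TT
    rw [mul_sum]
    refine sum_congr rfl fun x _ => ?_
    rw [mul_sum]
    refine sum_congr rfl fun y _ => ?_
    rw [e_add]
    congr 1
    unfold e
    congr 1
    push_cast
    ring
  have h3 : ‖∑ x ∈ Icc 1 M, ∑ y ∈ Icc 1 M, e (F (b + x * y)) - e (F b) * TT r M a‖ ≤
      (M : ℝ) ^ 2 * (2 * Real.pi * η) := by
    rw [h2, ← sum_sub_distrib]
    simp only [← sum_sub_distrib]
    calc _ ≤ ∑ x ∈ Icc 1 M, ∑ y ∈ Icc 1 M, ‖e (F (b + x * y)) -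
          e (F b + ∑ j ∈ Icc 1 r, a j * ((x : ℝ) * y) ^ j)‖ :=
          (norm_sum_le _ _).trans (sum_le_sum fun x _ => norm_sum_le _ _)
      _ ≤ ∑ _x ∈ Icc 1 M, ∑ _y ∈ Icc 1 M, 2 * Real.pi * η := by
          refine sum_le_sum fun x hx => sum_le_sum fun y hy => ?_
          refine (e_close _ _).trans ?_
          refine mul_le_mul_of_nonneg_left ?_ Real.two_pi_pos.le
          refine le_trans (le_of_eq ?_) (h x hx y hy)
          congr 1
          ring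
      _ = _ := by
          simp only [sum_const, Nat.card_Icc, Nat.add_sub_cancel, nsmul_eq_mul]
          ring
  calc ‖∑ x ∈ Icc 1 M, ∑ y ∈ Icc 1 M, e (F (b + x * y))‖ ≤ ‖e (F b) * TT r M a‖ +
        ‖∑ x ∈ Icc 1 M, ∑ y ∈ Icc 1 M, e (F (b + x * y)) - e (F b) * TT r M a‖ := by
        have := norm_add_le (e (F b) * TT r M a)
          (∑ x ∈ Icc 1 M, ∑ y ∈ Icc 1 M, e (F (b + x * y)) - e (F b) * TT r M a)
        rwa [add_sub_cancel] at this
    _ ≤ ‖TT r M a‖ + (M : ℝ) ^ 2 * (2 * Real.pi * η) := by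
        rw [norm_mul, norm_e, one_mul]
        exact add_le_add le_rfl h3

/-- **exponential sums with smooth phases** -/
theorem es2 : ∃ K₀ : ℕ, 1 ≤ K₀ ∧ ∀ κ : ℝ, 0 < κ → κ ≤ 1 / 16 → ∃ r0 X₀ : ℕ, 1 ≤ r0 ∧ ∀ X : ℕ,
    X₀ ≤ X → ∀ r D : ℕ, r0 ≤ r → (r : ℝ) ^ K₀ ≤ Real.log X → 1 ≤ D → D ≤ r →
    ∀ (F : ℕ → ℝ) (a : ℕ → ℕ → ℝ) (X₁ X₂ : ℕ), X₂ ≤ X₁ + X →
    (∀ x ∈ Ioc X₁ X₂, ∀ t : ℕ, 1 ≤ t → (t : ℝ) ≤ (X : ℝ) ^ (1 - 2 * κ) →
      |F (x + t) - F x - ∑ j ∈ Icc 1 r, a x j * (t : ℝ) ^ j| ≤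
        Real.exp (-(2 * √(Real.log X)))) →
    (∀ x ∈ Ioc X₁ X₂, (X : ℝ) ^ (-(D : ℝ) + 2 * κ * D + 2 * κ) ≤ |a x D| ∧
      |a x D| ≤ (X : ℝ) ^ (-(D : ℝ) / 2)) →
    ‖∑ x ∈ Ioc X₁ X₂, e (F x)‖ ≤ X * Real.exp (-√(Real.log X)) := by
  obtain ⟨C, hC⟩ := tt
  refine ⟨C + 20, by omega, ?_⟩
  intro κ hκ0 hκ16
  obtain ⟨r1, hr12, hr1⟩ := exists_r0 κ hκ0
  obtain ⟨r2, hr2⟩ := exists_nat_ge (256 * C / κ + 768 / κ)
  have hlog : Tendsto (fun B : ℕ => Real.log (B : ℝ)) atTop atTop :=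
    Real.tendsto_log_atTop.comp tendsto_natCast_atTop_atTop
  have hev : ∀ᶠ B : ℕ in atTop, 24 / κ ^ 3 ≤ Real.log B ∧ 100 ≤ Real.log B ∧
      (10 / κ) ^ 2 ≤ Real.log B := by
    filter_upwards [hlog.eventually_ge_atTop (24 / κ ^ 3), hlog.eventually_ge_atTop 100,
      hlog.eventually_ge_atTop ((10 / κ) ^ 2)] with B a1 a2 a3
    exact ⟨a1, a2, a3⟩
  obtain ⟨X₀, hX₀⟩ := eventually_atTop.1 hev
  refine ⟨max r1 r2, max X₀ 1, by omega, ?_⟩
  intro X hX r D hr hrK hD1 hDr F a X₁ X₂ hX12 hF ha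
  obtain ⟨b1, b2, b3⟩ := hX₀ X (le_of_max_le_left hX)
  have hX1 : 1 ≤ X := le_of_max_le_right hX
  have hXp : (0 : ℝ) < X := by exact_mod_cast hX1
  set Λ : ℝ := Real.log (X : ℝ) with hΛ
  have hΛ0 : 0 < Λ := by linarith
  have hexpX : ∀ y : ℝ, (X : ℝ) ^ y = Real.exp (Λ * y) := fun y => by
    rw [Real.rpow_def_of_pos hXp, ← hΛ]
  set σ : ℝ := √Λ with hσ
  have hσσ : σ * σ = Λ := Real.mul_self_sqrt hΛ0.le
  have hσ10 : 10 / κ ≤ σ := Real.le_sqrt_of_sq_le b3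
  have hσ0 : 0 < σ := lt_of_lt_of_le (by positivity) hσ10
  have hκσ : 10 ≤ κ * σ := by
    rw [div_le_iff₀ hκ0] at hσ10
    linarith
  have hκσΛ : 10 * σ ≤ κ * Λ := by
    rw [← hσσ]
    nlinarith
  have hσ160 : 160 ≤ σ := by nlinarith
  -- the size of `r`
  have hrr1 : r1 ≤ r := le_of_max_le_left hr
  have hrr2 : r2 ≤ r := le_of_max_le_right hr
  have hr2' : 2 ≤ r := hr12.trans hrr1
  have hrR : (2 : ℝ) ≤ r := by exact_mod_cast hr2'
  have hr1R : (1 : ℝ) ≤ r := by linarith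
  have hr0R : (0 : ℝ) < r := by linarith
  have hr2R : 256 * C / κ + 768 / κ ≤ r := hr2.trans (by exact_mod_cast hrr2)
  have hCr : 256 * C ≤ κ * r := by
    have h1 : 256 * C / κ ≤ r := by
      have : (0 : ℝ) ≤ 768 / κ := by positivity
      linarith
    rw [div_le_iff₀ hκ0] at h1
    linarith
  have h768 : 768 ≤ κ * r := by
    have h1 : 768 / κ ≤ r := by
      have : (0 : ℝ) ≤ 256 * C / κ := by positivity
      linarith
    rw [div_le_iff₀ hκ0] at h1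
    linarith
  have hr10 : (r : ℝ) ^ 10 ≤ σ := by
    apply Real.le_sqrt_of_sq_le
    rw [← pow_mul]
    exact (pow_le_pow_right₀ hr1R (by omega)).trans hrK
  have hrσ : (r : ℝ) ≤ σ := by
    calc (r : ℝ) = r ^ 1 := (pow_one _).symm
      _ ≤ r ^ 10 := pow_le_pow_right₀ hr1R (by norm_num)
      _ ≤ σ := hr10
  have hr3σ : (r : ℝ) ^ 3 ≤ σ := (pow_le_pow_right₀ hr1R (by norm_num)).trans hr10
  have hDR : (D : ℝ) ≤ r := by exact_mod_cast hDr
  have hD1R : (1 : ℝ) ≤ D := by exact_mod_cast hD1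
  have hD0R : (0 : ℝ) < D := by linarith
  -- the length of the shifts
  set M : ℕ := ⌊(X : ℝ) ^ (1 / 2 - κ)⌋₊ with hM
  have hXM : (X : ℝ) ^ (1 / 2 - κ) = Real.exp (Λ * (1 / 2 - κ)) := hexpX _
  have hXM1 : (1 : ℝ) ≤ (X : ℝ) ^ (1 / 2 - κ) := by
    rw [hXM]
    exact Real.one_le_exp (mul_nonneg hΛ0.le (by linarith))
  have hM1 : 1 ≤ M := Nat.floor_pos.2 hXM1
  have hMr : (1 : ℝ) ≤ M := by exact_mod_cast hM1
  have hMp : (0 : ℝ) < M := by linarith
  have hMle : (M : ℝ) ≤ Real.exp (Λ * (1 / 2 - κ)) := by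
    rw [← hXM]
    exact Nat.floor_le (by positivity)
  have hMge : Real.exp (Λ * (1 / 2 - κ)) / 2 ≤ M := by
    have := Nat.lt_floor_add_one ((X : ℝ) ^ (1 / 2 - κ))
    rw [← hM, hXM] at this
    linarith
  have hlogM : Λ / 4 ≤ Real.log M := by
    rw [Real.le_log_iff_exp_le hMp]
    refine le_trans ?_ hMge
    rw [le_div_iff₀ two_pos]
    have h1 : (2 : ℝ) ≤ Real.exp (Λ / 8) := by
      have := Real.add_one_le_exp (Λ / 8)
      linarith
    calc Real.exp (Λ / 4) * 2 ≤ Real.exp (Λ / 4) * Real.exp (Λ / 8) := by gcongr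
      _ = Real.exp (Λ * (3 / 8)) := by
          rw [← Real.exp_add]
          congr 1
          ring
      _ ≤ Real.exp (Λ * (1 / 2 - κ)) := by
          apply Real.exp_le_exp.2
          nlinarith
  have hlogMle : Real.log M ≤ Λ := by
    refine Real.log_le_log hMp ?_
    refine hMle.trans ?_
    rw [← Real.exp_log hXp, ← hΛ]
    apply Real.exp_le_exp.2
    nlinarith
  -- the tuples
  set s : ℕ := r ^ 2 + r * r ^ 2 with hs
  have hs1 : 1 ≤ s := by
    rw [hs]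
    have : 0 < r ^ 2 := by positivity
    omega
  have hs1R : (1 : ℝ) ≤ s := by exact_mod_cast hs1
  have hs3 : (s : ℝ) ≤ 2 * σ := by
    rw [hs]
    push_cast
    nlinarith [pow_pos hr0R 2]
  set U : ℕ := s * M ^ D with hU
  have hUM : (M : ℝ) ≤ U := by
    have h1 : M ≤ M ^ D := Nat.le_self_pow (by omega) M
    have h2 : M ≤ s * M ^ D := h1.trans (Nat.le_mul_of_pos_left _ (by omega))
    exact_mod_cast h2
  have hUp : (0 : ℝ) < U := by linarith
  have hexpκ : 4 * Λ ^ 2 ≤ Real.exp (κ * Λ) := by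
    have h1 : (κ * Λ) ^ 3 / (Nat.factorial 3 : ℝ) ≤ Real.exp (κ * Λ) :=
      Real.pow_div_factorial_le_exp _ (by positivity) 3
    refine le_trans ?_ h1
    rw [div_le_iff₀ (by positivity)] at b1
    have h2 : (Nat.factorial 3 : ℝ) = 6 := by norm_num [Nat.factorial]
    rw [h2]
    have h3 : (κ * Λ) ^ 3 / 6 = Λ * κ ^ 3 / 6 * Λ ^ 2 := by ring
    rw [h3]
    have h4 : (4 : ℝ) ≤ Λ * κ ^ 3 / 6 := by linarith
    nlinarith [sq_nonneg Λ]
  have h2s : 2 * (s : ℝ) ≤ Real.exp (κ * Λ) := by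
    have h3 : 4 * σ ≤ 4 * Λ ^ 2 := by nlinarith
    linarith
  have hUle : (U : ℝ) ≤ s * Real.exp (Λ * ((1 / 2 - κ) * D)) := by
    rw [hU]
    push_cast
    refine mul_le_mul_of_nonneg_left ?_ (by linarith)
    calc (M : ℝ) ^ D ≤ Real.exp (Λ * (1 / 2 - κ)) ^ D := by gcongr
      _ = _ := by
        rw [← Real.exp_nat_mul]
        congr 1
        ring
  have h4D : (2 : ℝ) ^ D ≤ Real.exp (κ * Λ / 4) := by
    calc (2 : ℝ) ^ D ≤ Real.exp 1 ^ D := by
          have := Real.add_one_le_exp (1 : ℝ)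
          gcongr
          linarith
      _ = Real.exp D := by rw [← Real.exp_nat_mul, mul_one]
      _ ≤ Real.exp (κ * Λ / 4) := by
          apply Real.exp_le_exp.2
          linarith
  have hUge : Real.exp (Λ * ((1 / 2 - κ) * D)) * Real.exp (-(κ * Λ / 4)) ≤ U := by
    have h1 : (M : ℝ) ^ D ≤ U := by
      rw [hU]
      push_cast
      have : (0 : ℝ) < (M : ℝ) ^ D := by positivity
      nlinarith
    refine le_trans ?_ h1
    have h2 : (Real.exp (Λ * (1 / 2 - κ)) / 2) ^ D ≤ (M : ℝ) ^ D := by gcongr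
    refine le_trans ?_ h2
    rw [div_pow, le_div_iff₀ (by positivity), ← Real.exp_nat_mul]
    calc Real.exp (Λ * ((1 / 2 - κ) * D)) * Real.exp (-(κ * Λ / 4)) * 2 ^ D ≤
          Real.exp (Λ * ((1 / 2 - κ) * D)) * Real.exp (-(κ * Λ / 4)) * Real.exp (κ * Λ / 4) := by
          gcongr
      _ = Real.exp (D * (Λ * (1 / 2 - κ))) := by
          rw [mul_assoc, ← Real.exp_add, neg_add_cancel, Real.exp_zero, mul_one]
          congr 1
          ring
  -- the bilinear sums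
  have hTT : ∀ x ∈ Ioc X₁ X₂, ‖TT r M (a x)‖ ≤ (M : ℝ) ^ 2 * Real.exp (-(3 * σ)) := by
    intro x hx
    obtain ⟨ha1, ha2⟩ := ha x hx
    rw [hexpX] at ha1 ha2
    have hap : 0 < |a x D| := lt_of_lt_of_le (Real.exp_pos _) ha1
    have hane : a x D ≠ 0 := abs_pos.1 hap
    refine (hC r M D (a x) κ hr2' hM1 (mem_Icc.2 ⟨hD1, hDr⟩) hκ0 (hr1 r hrr1) ?_).trans ?_
    · rw [← hs]
      have hcond : |a x D| * ((s * M ^ D : ℕ) : ℝ) ≤ 1 / 2 := by
        rw [← hU]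
        calc |a x D| * U ≤ Real.exp (Λ * (-(D : ℝ) / 2)) *
              (s * Real.exp (Λ * ((1 / 2 - κ) * D))) := by gcongr
          _ = s * Real.exp (-(κ * Λ) * D) := by
              rw [mul_left_comm, ← Real.exp_add]
              congr 2
              ring
          _ ≤ s * Real.exp (-(κ * Λ)) := by
              refine mul_le_mul_of_nonneg_left (Real.exp_le_exp.2 ?_) (by linarith)
              have : 0 < κ * Λ := by positivity
              nlinarith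
          _ ≤ 1 / 2 := by
              rw [Real.exp_neg, ← div_eq_mul_inv, div_le_iff₀ (Real.exp_pos _)]
              linarith
      have h1 := WJ_small hane hcond
      rw [← hU] at h1
      rw [← hU]
      refine h1.trans ?_
      have hU1 : (1 : ℝ) ≤ U := hMr.trans hUM
      have hMκ : (M : ℝ) ^ κ ≤ Real.exp (κ * Λ / 2) := by
        calc (M : ℝ) ^ κ ≤ (Real.exp (Λ * (1 / 2 - κ))) ^ κ := by gcongr
          _ = Real.exp (Λ * (1 / 2 - κ) * κ) := by rw [← Real.exp_mul]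
          _ ≤ Real.exp (κ * Λ / 2) := by
              apply Real.exp_le_exp.2
              nlinarith [mul_pos hΛ0 hκ0, mul_pos (mul_pos hΛ0 hκ0) hκ0]
      have hMκ1 : (M : ℝ) ^ κ ≤ M := by
        calc (M : ℝ) ^ κ ≤ (M : ℝ) ^ (1 : ℝ) :=
              Real.rpow_le_rpow_of_exponent_le hMr (by linarith)
          _ = M := Real.rpow_one _
      have hMκp : 0 < (M : ℝ) ^ κ := by positivity
      have hA : 2 * (U : ℝ) + 1 ≤ (2 * (U : ℝ) + 1) ^ 2 * (4 * (M : ℝ) ^ (-κ)) := by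
        rw [Real.rpow_neg hMp.le]
        have h2 : 1 ≤ (2 * (U : ℝ) + 1) * (4 * ((M : ℝ) ^ κ)⁻¹) := by
          rw [← div_eq_mul_inv, ← mul_div_assoc, le_div_iff₀ hMκp]
          nlinarith
        have h3 : 0 < 2 * (U : ℝ) + 1 := by linarith
        nlinarith
      have hlogU : 1 + Real.log (U : ℝ) ≤ Real.exp (κ * Λ) := by
        refine le_trans ?_ hexpκ
        have h2 : Real.log (U : ℝ) ≤ s + D * Λ := by
          rw [hU]
          push_cast
          rw [Real.log_mul (by positivity) (by positivity), Real.log_pow]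
          have h3 := Real.log_le_sub_one_of_pos (show (0 : ℝ) < s by linarith)
          have h4 : (D : ℝ) * Real.log M ≤ D * Λ := by gcongr
          linarith
        have h3 : (D : ℝ) * Λ ≤ σ * Λ := mul_le_mul_of_nonneg_right (hDR.trans hrσ) hΛ0.le
        nlinarith
      have hB : (1 + Real.log (U : ℝ)) / |a x D| ≤ (2 * (U : ℝ) + 1) ^ 2 * (4 * (M : ℝ) ^ (-κ)) := by
        rw [div_le_iff₀ hap, Real.rpow_neg hMp.le]
        have h2 : (U : ℝ) ^ 2 ≤ (2 * (U : ℝ) + 1) ^ 2 := by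
          gcongr
          linarith
        have h3 : (Real.exp (Λ * ((1 / 2 - κ) * D)) * Real.exp (-(κ * Λ / 4))) ^ 2 ≤ (U : ℝ) ^ 2 := by
          gcongr
        have h4 : (Real.exp (κ * Λ / 2))⁻¹ ≤ ((M : ℝ) ^ κ)⁻¹ := inv_anti₀ hMκp hMκ
        calc 1 + Real.log (U : ℝ) ≤ Real.exp (κ * Λ) := hlogU
          _ = (Real.exp (Λ * ((1 / 2 - κ) * D)) * Real.exp (-(κ * Λ / 4))) ^ 2 *
                ((Real.exp (κ * Λ / 2))⁻¹) *
                Real.exp (Λ * (-(D : ℝ) + 2 * κ * D + 2 * κ)) := by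
              rw [← Real.exp_neg, mul_pow, ← Real.exp_nat_mul, ← Real.exp_nat_mul, ← Real.exp_add,
                ← Real.exp_add, ← Real.exp_add]
              congr 1
              push_cast
              ring
          _ ≤ (2 * (U : ℝ) + 1) ^ 2 * ((M : ℝ) ^ κ)⁻¹ * |a x D| := by
              have h5 := h3.trans h2
              gcongr
          _ ≤ (2 * (U : ℝ) + 1) ^ 2 * (4 * ((M : ℝ) ^ κ)⁻¹) * |a x D| := by
              have h5 : 0 < ((M : ℝ) ^ κ)⁻¹ := by positivity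
              gcongr
              linarith
      calc (2 * (U : ℝ) + 1) + (1 + Real.log (U : ℝ)) / |a x D| ≤
            (2 * (U : ℝ) + 1) ^ 2 * (4 * (M : ℝ) ^ (-κ)) +
              (2 * (U : ℝ) + 1) ^ 2 * (4 * (M : ℝ) ^ (-κ)) := add_le_add hA hB
        _ = (2 * (U : ℝ) + 1) ^ 2 * (8 * (M : ℝ) ^ (-κ)) := by ring
    · refine mul_le_mul_of_nonneg_left (Real.exp_le_exp.2 ?_) (by positivity)
      have h1 : κ * Λ / (128 * (r : ℝ) ^ 6) ≤ κ * Real.log M / (32 * (r : ℝ) ^ 6) := by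
        rw [div_le_div_iff₀ (by positivity) (by positivity)]
        have : Λ ≤ 4 * Real.log M := by linarith
        calc κ * Λ * (32 * (r : ℝ) ^ 6) ≤ κ * (4 * Real.log M) * (32 * (r : ℝ) ^ 6) := by gcongr
          _ = _ := by ring
      have h2 : C * (r : ℝ) ^ C ≤ κ * Λ / (256 * (r : ℝ) ^ 6) := by
        rw [le_div_iff₀ (by positivity)]
        calc C * (r : ℝ) ^ C * (256 * (r : ℝ) ^ 6) = (256 * C) * (r : ℝ) ^ (C + 6) := by ring
          _ ≤ (κ * r) * (r : ℝ) ^ (C + 6) := by gcongr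
          _ = κ * (r : ℝ) ^ (C + 7) := by ring
          _ ≤ κ * (r : ℝ) ^ (C + 20) :=
              mul_le_mul_of_nonneg_left (pow_le_pow_right₀ hr1R (by omega)) hκ0.le
          _ ≤ κ * Λ := mul_le_mul_of_nonneg_left hrK hκ0.le
      have h3 : 3 * σ ≤ κ * Λ / (256 * (r : ℝ) ^ 6) := by
        rw [le_div_iff₀ (by positivity)]
        calc 3 * σ * (256 * (r : ℝ) ^ 6) = σ * 768 * (r : ℝ) ^ 6 := by ring
          _ ≤ σ * (κ * r) * (r : ℝ) ^ 6 := by gcongr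
          _ = κ * σ * (r : ℝ) ^ 7 := by ring
          _ ≤ κ * σ * (r : ℝ) ^ 10 :=
              mul_le_mul_of_nonneg_left (pow_le_pow_right₀ hr1R (by norm_num)) (by positivity)
          _ ≤ κ * σ * σ := by gcongr
          _ = κ * Λ := by rw [mul_assoc, hσσ]
      have h5 : κ * Λ / (128 * (r : ℝ) ^ 6) = 2 * (κ * Λ / (256 * (r : ℝ) ^ 6)) := by
        field_simp
        norm_num
      linarith
  -- conclusion
  have hMsq : (M : ℝ) ^ 2 ≤ Real.exp (Λ * (1 - 2 * κ)) := by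
    calc (M : ℝ) ^ 2 ≤ (Real.exp (Λ * (1 / 2 - κ))) ^ 2 := by gcongr
      _ = Real.exp (Λ * (1 - 2 * κ)) := by
          rw [← Real.exp_nat_mul]
          congr 1
          push_cast
          ring
  have hcard : ((Ioc X₁ X₂).card : ℝ) ≤ X := by
    rw [Nat.card_Ioc]
    have : X₂ - X₁ ≤ X := by omega
    exact_mod_cast this
  have h1 := shift (fun b => e (F b)) (fun n => (norm_e _).le) X₁ X₂ M hM1
  refine h1.trans ?_
  have h2 : ∑ b ∈ Ioc X₁ X₂, ‖∑ x ∈ Icc 1 M, ∑ y ∈ Icc 1 M, e (F (b + x * y))‖ ≤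
      X * ((M : ℝ) ^ 2 * (Real.exp (-(3 * σ)) + 2 * Real.pi * Real.exp (-(2 * σ)))) := by
    calc _ ≤ ∑ _b ∈ Ioc X₁ X₂,
          (M : ℝ) ^ 2 * (Real.exp (-(3 * σ)) + 2 * Real.pi * Real.exp (-(2 * σ))) := by
          refine sum_le_sum fun b hb => ?_
          refine (inner_close (a := a b) (r := r) (η := Real.exp (-(2 * σ))) ?_).trans ?_
          · intro x hx y hy
            rw [mem_Icc] at hx hy
            have h3 := hF b hb (x * y) (Nat.mul_pos hx.1 hy.1) (by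
              rw [hexpX]
              refine le_trans ?_ hMsq
              rw [sq]
              exact_mod_cast Nat.mul_le_mul hx.2 hy.2)
            push_cast at h3
            exact h3
          · have h3 := hTT b hb
            linarith
      _ = (Ioc X₁ X₂).card *
          ((M : ℝ) ^ 2 * (Real.exp (-(3 * σ)) + 2 * Real.pi * Real.exp (-(2 * σ)))) := by
          rw [sum_const, nsmul_eq_mul]
      _ ≤ _ := by gcongr
  have h4 : 2 * (M : ℝ) ^ 2 ≤ X * (Real.exp (-σ) / 2) := by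
    have h5 : 4 * Real.exp (Λ * (1 - 2 * κ)) ≤ Real.exp Λ * Real.exp (-σ) := by
      have h7 : (4 : ℝ) ≤ Real.exp σ := by
        have := Real.add_one_le_exp σ
        linarith
      calc 4 * Real.exp (Λ * (1 - 2 * κ)) ≤ Real.exp σ * Real.exp (Λ * (1 - 2 * κ)) := by gcongr
        _ = Real.exp (σ + Λ * (1 - 2 * κ)) := by rw [← Real.exp_add]
        _ ≤ Real.exp (Λ + -σ) := by
            apply Real.exp_le_exp.2
            nlinarith
        _ = _ := Real.exp_add _ _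
    rw [Real.exp_log hXp] at h5
    linarith
  have h5 : Real.exp (-(3 * σ)) + 2 * Real.pi * Real.exp (-(2 * σ)) ≤ Real.exp (-σ) / 2 := by
    have h6 : Real.exp (-(3 * σ)) ≤ Real.exp (-(2 * σ)) := Real.exp_le_exp.2 (by linarith)
    have h7 : Real.exp (-(2 * σ)) * 160 ≤ Real.exp (-σ) := by
      calc Real.exp (-(2 * σ)) * 160 ≤ Real.exp (-(2 * σ)) * Real.exp σ := by
            gcongr
            have := Real.add_one_le_exp σ
            linarith
        _ = Real.exp (-σ) := by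
            rw [← Real.exp_add]
            congr 1
            ring
    have h8 := Real.pi_lt_d2
    have h9 : 0 < Real.exp (-(2 * σ)) := Real.exp_pos _
    nlinarith
  calc 1 / (M : ℝ) ^ 2 *
        ∑ b ∈ Ioc X₁ X₂, ‖∑ x ∈ Icc 1 M, ∑ y ∈ Icc 1 M, e (F (b + x * y))‖ + 2 * (M : ℝ) ^ 2 ≤
        1 / (M : ℝ) ^ 2 * (X * ((M : ℝ) ^ 2 *
          (Real.exp (-(3 * σ)) + 2 * Real.pi * Real.exp (-(2 * σ))))) +
          X * (Real.exp (-σ) / 2) := by gcongr
    _ = X * (Real.exp (-(3 * σ)) + 2 * Real.pi * Real.exp (-(2 * σ))) +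
          X * (Real.exp (-σ) / 2) := by
        field_simp
    _ ≤ X * (Real.exp (-σ) / 2) + X * (Real.exp (-σ) / 2) := by gcongr
    _ = _ := by ring

end Pool.Agent.Q270.VS
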