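import Pool.Agent.Q270.VS.Nr

/-!
# From exponential sums to the discrepancy, with all parameters chosen
-/

set_option autoImplicit false

namespace Pool.Agent.Q270.VS

open Finset Filter Topology
open Pool.Agent.Y933.KD (e)

lemma ev_pow_exp (m : ℕ) (c : ℝ) (hc : 0 < c) : ∀ᶠ t : ℝ in atTop, t ^ m ≤ Real.exp (c * t) := by
  have h1 := isLittleO_pow_exp_pos_mul_atTop m hc
  filter_upwards [h1.bound (show (0 : ℝ) < 1 by norm_num), eventually_ge_atTop (0 : ℝ)] with t ht ht0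
  rw [one_mul, Real.norm_of_nonneg (pow_nonneg ht0 m), Real.norm_of_nonneg (Real.exp_pos _).le] at ht
  exact ht

/-- the error term -/
lemma E_le {t : ℝ} (ht : 100 ≤ t) {k K : ℕ} (hk2 : (k : ℝ) ≤ 2 * t)
    (hK1 : Real.exp (t ^ 2) ≤ K) (hK2 : (K : ℝ) ≤ 2 * Real.exp (t ^ 2)) :
    (2 * (K : ℝ) ^ 3 + 1) ^ (2 * k) * Real.exp (-t ^ 4) +
      ((2 * k : ℕ) : ℝ) * (12 / K + 5 * Real.exp (-t ^ 4)) ≤ Real.exp (-(t ^ 2 / 2)) := by
  have ht0 : 0 < t := by linarith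
  have hKp : (0 : ℝ) < K := (Real.exp_pos _).trans_le hK1
  have ht2 : 100 * t ≤ t ^ 2 := by nlinarith
  have hK1' : (1 : ℝ) ≤ K := (Real.one_le_exp (by positivity)).trans hK1
  -- the main factor
  have h24 : (24 : ℝ) ≤ Real.exp (t ^ 2) := by
    have := Real.add_one_le_exp (t ^ 2)
    nlinarith
  have h1 : 2 * (K : ℝ) ^ 3 + 1 ≤ Real.exp (4 * t ^ 2) := by
    have h2 : (K : ℝ) ^ 3 ≤ 8 * Real.exp (t ^ 2) ^ 3 := by
      calc (K : ℝ) ^ 3 ≤ (2 * Real.exp (t ^ 2)) ^ 3 := pow_le_pow_left₀ hKp.le hK2 3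
        _ = _ := by ring
    have h3 : (1 : ℝ) ≤ (K : ℝ) ^ 3 := one_le_pow₀ hK1'
    have h4 : Real.exp (4 * t ^ 2) = Real.exp (t ^ 2) * Real.exp (t ^ 2) ^ 3 := by
      rw [← Real.exp_nat_mul, ← Real.exp_add]
      congr 1
      push_cast
      ring
    rw [h4]
    calc 2 * (K : ℝ) ^ 3 + 1 ≤ 3 * (K : ℝ) ^ 3 := by linarith
      _ ≤ 3 * (8 * Real.exp (t ^ 2) ^ 3) := by gcongr
      _ = 24 * Real.exp (t ^ 2) ^ 3 := by ring
      _ ≤ _ := by gcongr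
  have h2 : (2 * (K : ℝ) ^ 3 + 1) ^ (2 * k) ≤ Real.exp (16 * t ^ 3) := by
    calc (2 * (K : ℝ) ^ 3 + 1) ^ (2 * k) ≤ Real.exp (4 * t ^ 2) ^ (2 * k) :=
          pow_le_pow_left₀ (by positivity) h1 _
      _ = Real.exp (((2 * k : ℕ) : ℝ) * (4 * t ^ 2)) := by rw [← Real.exp_nat_mul]
      _ ≤ Real.exp (16 * t ^ 3) := by
          apply Real.exp_le_exp.2
          push_cast
          calc 2 * (k : ℝ) * (4 * t ^ 2) ≤ 2 * (2 * t) * (4 * t ^ 2) := by gcongr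
            _ = 16 * t ^ 3 := by ring
  have h3 : (2 * (K : ℝ) ^ 3 + 1) ^ (2 * k) * Real.exp (-t ^ 4) ≤ Real.exp (-t ^ 2) := by
    calc _ ≤ Real.exp (16 * t ^ 3) * Real.exp (-t ^ 4) := by gcongr
      _ = Real.exp (16 * t ^ 3 + -t ^ 4) := by rw [Real.exp_add]
      _ ≤ _ := by
          apply Real.exp_le_exp.2
          have h4 : 100 * t ^ 3 ≤ t ^ 4 := by
            have : t ^ 4 = t * t ^ 3 := by ring
            rw [this]
            gcongr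
          have h5 : t ^ 2 ≤ t ^ 3 := by
            have : t ^ 3 = t * t ^ 2 := by ring
            rw [this]
            exact le_mul_of_one_le_left (by positivity) (by linarith)
          have h6 : (0 : ℝ) ≤ t ^ 3 := by positivity
          linarith
  have h4 : (12 : ℝ) / K ≤ 12 * Real.exp (-t ^ 2) := by
    rw [Real.exp_neg, ← div_eq_mul_inv]
    exact div_le_div_of_nonneg_left (by norm_num) (Real.exp_pos _) hK1
  have h5 : Real.exp (-t ^ 4) ≤ Real.exp (-t ^ 2) := by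
    apply Real.exp_le_exp.2
    have h6 : t ^ 4 = t ^ 2 * t ^ 2 := by ring
    rw [h6]
    have h7 : t ^ 2 ≤ t ^ 2 * t ^ 2 := le_mul_of_one_le_left (by positivity) (by nlinarith)
    linarith
  have h6 : ((2 * k : ℕ) : ℝ) * (12 / K + 5 * Real.exp (-t ^ 4)) ≤
      68 * t * Real.exp (-t ^ 2) := by
    push_cast
    calc 2 * (k : ℝ) * (12 / K + 5 * Real.exp (-t ^ 4)) ≤
        2 * (2 * t) * (12 * Real.exp (-t ^ 2) + 5 * Real.exp (-t ^ 2)) := by gcongr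
      _ = _ := by ring
  have h7 : (1 + 68 * t) ≤ Real.exp (t ^ 2 / 2) := by
    have h8 := Real.add_one_le_exp (t ^ 2 / 2)
    nlinarith [Real.quadratic_le_exp_of_nonneg (show (0 : ℝ) ≤ t ^ 2 / 2 by positivity)]
  have h8 : Real.exp (-(t ^ 2 / 2)) = Real.exp (t ^ 2 / 2) * Real.exp (-t ^ 2) := by
    rw [← Real.exp_add]
    congr 1
    ring
  rw [h8]
  calc _ ≤ Real.exp (-t ^ 2) + 68 * t * Real.exp (-t ^ 2) := add_le_add h3 h6
    _ = (1 + 68 * t) * Real.exp (-t ^ 2) := by ring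
    _ ≤ _ := by gcongr

/-- the proportion of the bad elements -/
lemma bad_le {t : ℝ} (ht : 200 ≤ t) {c k N q G : ℕ} {E : ℝ} (hk1 : t ≤ k) (hk2 : (k : ℝ) ≤ 2 * t)
    (hE : E ≤ Real.exp (-(t ^ 2 / 2))) (hG : (G : ℝ) ≤ t ^ 3) (hN : (N : ℝ) ≤ t ^ c)
    (hGN : (G : ℝ) * N ≤ t ^ c)
    (hq : (q : ℝ) ≤ 3 * t ^ c) (h1 : t ^ (2 * c + 1) ≤ Real.exp (1 / 16 * t))
    (h2 : t ^ (4 * c + 4) ≤ Real.exp (1 / 2 * t)) :
    (G : ℝ) * ((G : ℝ) * N + 1) ^ 2 * ((q : ℝ) + 1) ^ 2 *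
      (2 * (Real.exp (-1)) ^ k + ((N : ℝ) * q) ^ (2 * k) * E) ≤ Real.exp (-(t / 2)) := by
  have ht0 : 0 < t := by linarith
  have ht1 : (1 : ℝ) ≤ t ^ c := one_le_pow₀ (by linarith)
  have hA : ((N : ℝ) * q) ≤ Real.exp (1 / 16 * t) := by
    refine le_trans ?_ h1
    calc (N : ℝ) * q ≤ t ^ c * (3 * t ^ c) := by gcongr
      _ = 3 * (t ^ (2 * c)) := by rw [two_mul, pow_add]; ring
      _ ≤ t * t ^ (2 * c) := by gcongr; linarith
      _ = t ^ (2 * c + 1) := by rw [pow_succ]; ring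
  have hB : ((N : ℝ) * q) ^ (2 * k) ≤ Real.exp (t ^ 2 / 4) := by
    calc ((N : ℝ) * q) ^ (2 * k) ≤ Real.exp (1 / 16 * t) ^ (2 * k) :=
          pow_le_pow_left₀ (by positivity) hA _
      _ = Real.exp (((2 * k : ℕ) : ℝ) * (1 / 16 * t)) := by rw [← Real.exp_nat_mul]
      _ ≤ _ := by
          apply Real.exp_le_exp.2
          push_cast
          calc 2 * (k : ℝ) * (1 / 16 * t) ≤ 2 * (2 * t) * (1 / 16 * t) := by gcongr
            _ = t ^ 2 / 4 := by ring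
  have hC : ((N : ℝ) * q) ^ (2 * k) * E ≤ Real.exp (-t) := by
    calc ((N : ℝ) * q) ^ (2 * k) * E ≤ ((N : ℝ) * q) ^ (2 * k) * Real.exp (-(t ^ 2 / 2)) := by
          gcongr
      _ ≤ Real.exp (t ^ 2 / 4) * Real.exp (-(t ^ 2 / 2)) := by gcongr
      _ = Real.exp (t ^ 2 / 4 + -(t ^ 2 / 2)) := by rw [Real.exp_add]
      _ ≤ _ := by
          apply Real.exp_le_exp.2
          nlinarith
  have hD : Real.exp (-1) ^ k ≤ Real.exp (-t) := by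
    rw [← Real.exp_nat_mul]
    apply Real.exp_le_exp.2
    linarith
  have hF : (G : ℝ) * ((G : ℝ) * N + 1) ^ 2 * ((q : ℝ) + 1) ^ 2 * 3 ≤ Real.exp (1 / 2 * t) := by
    refine le_trans ?_ h2
    calc (G : ℝ) * ((G : ℝ) * N + 1) ^ 2 * ((q : ℝ) + 1) ^ 2 * 3 ≤
        t ^ 3 * (t ^ c + t ^ c) ^ 2 * (3 * t ^ c + t ^ c) ^ 2 * 3 := by gcongr
      _ = 192 * (t ^ 3 * ((t ^ c) ^ 2 * (t ^ c) ^ 2)) := by ring
      _ = 192 * t ^ (4 * c + 3) := by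
          rw [← pow_mul, ← pow_add, ← pow_add]
          congr 2
          ring
      _ ≤ t * t ^ (4 * c + 3) := by gcongr; linarith
      _ = t ^ (4 * c + 4) := by rw [pow_succ t (4 * c + 3)]; ring
  have hP : 0 ≤ (G : ℝ) * ((G : ℝ) * N + 1) ^ 2 * ((q : ℝ) + 1) ^ 2 := by positivity
  calc _ ≤ (G : ℝ) * ((G : ℝ) * N + 1) ^ 2 * ((q : ℝ) + 1) ^ 2 *
        (2 * Real.exp (-t) + Real.exp (-t)) := by
        refine mul_le_mul_of_nonneg_left ?_ hP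
        linarith
    _ = (G : ℝ) * ((G : ℝ) * N + 1) ^ 2 * ((q : ℝ) + 1) ^ 2 * 3 * Real.exp (-t) := by ring
    _ ≤ Real.exp (1 / 2 * t) * Real.exp (-t) := by gcongr
    _ = _ := by
        rw [← Real.exp_add]
        congr 1
        ring

/-- a window as a window of the classes and a short remainder -/
lemma cn_split (y : ℕ → ℝ) (s n₁ n₂ : ℕ) (u v : ℝ) :
    cn y s (n₁ + n₂) u v = cn y s n₁ u v + cn y (s + n₁) n₂ u v := by
  unfold cn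
  rw [← card_union_of_disjoint]
  · congr 1
    rw [← filter_union]
    congr 1
    rw [← add_assoc]
    exact (Ico_union_Ico_eq_Ico (by omega) (by omega)).symm
  · apply disjoint_filter_filter
    exact Ico_disjoint_Ico_consecutive _ _ _

lemma cn_le (y : ℕ → ℝ) (s n : ℕ) (u v : ℝ) : cn y s n u v ≤ n := by
  unfold cn
  refine (card_filter_le _ _).trans ?_
  rw [Nat.card_Ico]
  omega

/-- the final window bound -/
lemma window_bound {t : ℝ} (ht : 400 ≤ t) {G₀ : ℕ} (hG₀ : √(7 * (G₀ : ℝ)) + 1 ≤ t)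
    {G L q : ℕ} (hG1 : 1 ≤ G) (hG : (G : ℝ) ≤ 7 * G₀ * t ^ 2) (hq : q = 2 * L + 1) {k : ℕ}
    (hk2 : (k : ℝ) ≤ 2 * t) {y : ℕ → ℝ}
    (hgood : ∀ s n, s + n ≤ G * (L / G) → ∀ u v : ℝ, 0 ≤ u → u ≤ v → v ≤ 1 →
      |(cn y s n u v : ℝ) - n * (v - u)| ≤ √((G : ℝ) * n) * √(4 * Real.exp 1 ^ 2 * k) +
        n * (2 / q))
    {s n : ℕ} (hsn : s + n ≤ L) {u v : ℝ} (hu : 0 ≤ u) (huv : u ≤ v) (hv : v ≤ 1) :
    |(cn y s n u v : ℝ) - n * (v - u)| ≤ √(n : ℝ) * t ^ 3 := by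
  have ht0 : 0 < t := by linarith
  rcases Nat.eq_zero_or_pos n with hn0 | hn0
  · subst hn0
    have : cn y s 0 u v = 0 := Nat.le_zero.1 (cn_le y s 0 u v)
    rw [this]
    simp
  have hn1 : (1 : ℝ) ≤ √(n : ℝ) := by
    rw [Real.one_le_sqrt]
    exact_mod_cast hn0
  -- the short remainder
  obtain ⟨n₁, r, hn, hr, hrG, hs1⟩ : ∃ n₁ r : ℕ, n = n₁ + r ∧ r ≤ G ∧ r ≤ n ∧
      (n₁ = 0 ∨ s + n₁ ≤ G * (L / G)) := by
    have h1 : G * (L / G) + L % G = L := Nat.div_add_mod L G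
    have h2 : L % G < G := Nat.mod_lt _ (by omega)
    rcases le_total (s + n) (G * (L / G)) with h3 | h3
    · exact ⟨n, 0, by omega, by omega, by omega, Or.inr h3⟩
    · rcases le_total s (G * (L / G)) with h4 | h4
      · exact ⟨G * (L / G) - s, s + n - G * (L / G), by omega, by omega, by omega, Or.inr (by omega)⟩
      · exact ⟨0, n, by omega, by omega, by omega, Or.inl rfl⟩
  have hlam : √(4 * Real.exp 1 ^ 2 * k) ≤ t - 2 := by
    rw [Real.sqrt_le_left (by linarith)]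
    have h1 : Real.exp 1 ^ 2 ≤ 9 := by
      have := Real.exp_one_lt_d9
      nlinarith [Real.exp_pos 1]
    calc 4 * Real.exp 1 ^ 2 * k ≤ 4 * 9 * (2 * t) := by gcongr
      _ ≤ (t - 2) ^ 2 := by nlinarith
  have hGs : √(G : ℝ) ≤ √(7 * (G₀ : ℝ)) * t := by
    calc √(G : ℝ) ≤ √(7 * G₀ * t ^ 2) := Real.sqrt_le_sqrt hG
      _ = √(7 * (G₀ : ℝ)) * t := by
          rw [Real.sqrt_mul (by positivity), Real.sqrt_sq ht0.le]
  have hGn : ∀ w : ℕ, √((G : ℝ) * w) = √(G : ℝ) * √(w : ℝ) := fun w =>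
    Real.sqrt_mul (Nat.cast_nonneg _) _
  have hrr : (r : ℝ) ≤ √(G : ℝ) * √(n : ℝ) := by
    calc (r : ℝ) = √(r : ℝ) * √(r : ℝ) := (Real.mul_self_sqrt (Nat.cast_nonneg _)).symm
      _ ≤ √(G : ℝ) * √(n : ℝ) := by gcongr
  have h1 : |(cn y s n₁ u v : ℝ) - n₁ * (v - u)| ≤ √(G : ℝ) * √(n : ℝ) * (t - 2) + 1 := by
    rcases hs1 with h0 | h0
    · rw [h0]
      have h2 : cn y s 0 u v = 0 := Nat.le_zero.1 (cn_le y s 0 u v)
      rw [h2]
      simp only [Nat.cast_zero, zero_mul, sub_zero, abs_zero]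
      have : 0 ≤ √(G : ℝ) * √(n : ℝ) * (t - 2) := mul_nonneg (by positivity) (by linarith)
      linarith
    · refine (hgood s n₁ h0 u v hu huv hv).trans ?_
      rw [hGn]
      have hnn : (n₁ : ℝ) ≤ n := by
        rw [hn]
        push_cast
        linarith [(Nat.cast_nonneg r : (0 : ℝ) ≤ r)]
      have h2 : (n₁ : ℝ) * (2 / q) ≤ 1 := by
        have hqp : (0 : ℝ) < q := by
          rw [hq]
          positivity
        rw [mul_div_assoc', div_le_one hqp, hq]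
        have : (n₁ : ℝ) ≤ L := by
          have : n₁ ≤ L := by omega
          exact_mod_cast this
        push_cast
        linarith
      have h3 : √(G : ℝ) * √(n₁ : ℝ) * √(4 * Real.exp 1 ^ 2 * k) ≤
          √(G : ℝ) * √(n : ℝ) * (t - 2) := by gcongr
      linarith
  have h2 : |(cn y (s + n₁) r u v : ℝ) - r * (v - u)| ≤ r := by
    have h3 : (cn y (s + n₁) r u v : ℝ) ≤ r := by exact_mod_cast cn_le y (s + n₁) r u v
    have h4 : (0 : ℝ) ≤ cn y (s + n₁) r u v := Nat.cast_nonneg _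
    have h5 : (0 : ℝ) ≤ r * (v - u) := mul_nonneg (Nat.cast_nonneg _) (by linarith)
    have h6 : (r : ℝ) * (v - u) ≤ r := by
      have : (r : ℝ) * (v - u) ≤ r * 1 := by
        refine mul_le_mul_of_nonneg_left ?_ (Nat.cast_nonneg _)
        linarith
      linarith
    rw [abs_le]
    constructor <;> linarith
  have h3 : (cn y s n u v : ℝ) - n * (v - u) = ((cn y s n₁ u v : ℝ) - n₁ * (v - u)) +
      ((cn y (s + n₁) r u v : ℝ) - r * (v - u)) := by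
    rw [hn, cn_split]
    push_cast
    ring
  rw [h3]
  have hP : 0 ≤ √(G : ℝ) * √(n : ℝ) := by positivity
  calc _ ≤ (√(G : ℝ) * √(n : ℝ) * (t - 2) + 1) + r := (abs_add_le _ _).trans (add_le_add h1 h2)
    _ ≤ √(G : ℝ) * √(n : ℝ) * t + √(n : ℝ) := by nlinarith
    _ ≤ √(7 * (G₀ : ℝ)) * t * √(n : ℝ) * t + √(n : ℝ) := by gcongr
    _ = √(n : ℝ) * (√(7 * (G₀ : ℝ)) * t ^ 2 + 1) := by ring
    _ ≤ √(n : ℝ) * t ^ 3 := by
        refine mul_le_mul_of_nonneg_left ?_ (Real.sqrt_nonneg _)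
        have h4 : (√(7 * (G₀ : ℝ)) + 1) * t ^ 2 ≤ t * t ^ 2 := by gcongr
        nlinarith

/-- the discrepancy of all windows from exponential sums along residue classes of the places -/
theorem bb_core (G₀ c : ℕ) (hG₀ : 1 ≤ G₀) : ∀ᶠ t : ℝ in atTop, ∃ D G₁ : ℕ, 1 ≤ D ∧
    (D : ℝ) ≤ Real.exp (4 * t ^ 2) ∧ 1 ≤ G₁ ∧ ((G₀ * G₁ : ℕ) : ℝ) ≤ t ^ 3 ∧ 4 * D ≤ 2 ^ G₁ ∧
    ∀ (Ω : Finset ℕ) (y : ℕ → ℕ → ℝ) (L : ℕ), Ω.Nonempty → (L : ℝ) ≤ t ^ c →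
      (∀ a < G₀ * G₁, ∀ h : Fin (L / (G₀ * G₁)) → ℤ, h ≠ 0 → (∀ i, |(h i : ℝ)| ≤ D) →
        ‖∑ x ∈ Ω, e (∑ i, h i * y x (a + G₀ * G₁ * (i : ℕ)))‖ ≤ Ω.card * Real.exp (-t ^ 4)) →
      ∃ B ⊆ Ω, (B.card : ℝ) ≤ Ω.card * Real.exp (-(t / 2)) ∧
        ∀ x ∈ Ω, x ∉ B → ∀ s n, s + n ≤ L → ∀ u v : ℝ, 0 ≤ u → u ≤ v → v ≤ 1 →
          |(cn (y x) s n u v : ℝ) - n * (v - u)| ≤ √(n : ℝ) * t ^ 3 := by
  filter_upwards [eventually_ge_atTop (400 : ℝ), eventually_ge_atTop (√(7 * (G₀ : ℝ)) + 1),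
    eventually_ge_atTop (7 * (G₀ : ℝ)), ev_pow_exp (2 * c + 1) (1 / 16) (by norm_num),
    ev_pow_exp (4 * c + 4) (1 / 2) (by norm_num)] with t ht hG₀t hG₀t' hp1 hp2
  classical
  have ht0 : 0 < t := by linarith
  obtain ⟨k, hk⟩ : ∃ k : ℕ, k = ⌈t⌉₊ := ⟨_, rfl⟩
  obtain ⟨K, hK⟩ : ∃ K : ℕ, K = ⌈Real.exp (t ^ 2)⌉₊ := ⟨_, rfl⟩
  have hk1 : t ≤ k := by rw [hk]; exact Nat.le_ceil _
  have hk2 : (k : ℝ) ≤ 2 * t := by
    have := Nat.ceil_lt_add_one ht0.le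
    rw [hk]
    linarith
  have hk0 : 1 ≤ k := by
    rw [hk]
    exact Nat.one_le_ceil_iff.2 ht0
  have hexp1 : (1 : ℝ) ≤ Real.exp (t ^ 2) := Real.one_le_exp (by positivity)
  have hK1 : Real.exp (t ^ 2) ≤ K := by rw [hK]; exact Nat.le_ceil _
  have hK2 : (K : ℝ) ≤ 2 * Real.exp (t ^ 2) := by
    have := Nat.ceil_lt_add_one (Real.exp_pos (t ^ 2)).le
    rw [hK]
    linarith
  have hK0 : 1 ≤ K := by
    rw [hK]
    exact Nat.one_le_ceil_iff.2 (Real.exp_pos _)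
  have hD : ((K ^ 3 : ℕ) : ℝ) ≤ 8 * Real.exp (3 * t ^ 2) := by
    push_cast
    calc (K : ℝ) ^ 3 ≤ (2 * Real.exp (t ^ 2)) ^ 3 := pow_le_pow_left₀ (Nat.cast_nonneg _) hK2 3
      _ = 8 * (Real.exp (t ^ 2)) ^ 3 := by ring
      _ = 8 * Real.exp (3 * t ^ 2) := by
          rw [← Real.exp_nat_mul]
          norm_num
  have h32 : (32 : ℝ) ≤ Real.exp (t ^ 2) := by
    have := Real.add_one_le_exp (t ^ 2)
    nlinarith
  have hD4 : ((4 * K ^ 3 : ℕ) : ℝ) ≤ Real.exp (4 * t ^ 2) := by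
    push_cast at hD ⊢
    calc 4 * (K : ℝ) ^ 3 ≤ 4 * (8 * Real.exp (3 * t ^ 2)) := by gcongr
      _ = 32 * Real.exp (3 * t ^ 2) := by ring
      _ ≤ Real.exp (t ^ 2) * Real.exp (3 * t ^ 2) := by gcongr
      _ = _ := by
          rw [← Real.exp_add]
          congr 1
          ring
  obtain ⟨G₁, hG₁⟩ : ∃ G₁ : ℕ, G₁ = Nat.clog 2 (4 * K ^ 3) := ⟨_, rfl⟩
  have h4K : 4 ≤ 4 * K ^ 3 := by
    have : 1 ≤ K ^ 3 := Nat.one_le_pow _ _ hK0
    omega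
  have hG₁1 : 1 ≤ G₁ := by
    rw [hG₁]
    exact Nat.clog_pos (by norm_num) (by omega)
  have hG₁2 : 4 * K ^ 3 ≤ 2 ^ G₁ := by
    rw [hG₁]
    exact Nat.le_pow_clog (by norm_num) _
  have hG₁3 : (G₁ : ℝ) ≤ 7 * t ^ 2 := by
    have h1 : 2 ^ (G₁ - 1) < 4 * K ^ 3 := by
      rw [hG₁]
      exact Nat.pow_pred_clog_lt_self (by norm_num) (by omega)
    have h2 : (2 : ℝ) ^ (G₁ - 1) ≤ Real.exp (4 * t ^ 2) := by
      refine le_trans ?_ hD4
      exact_mod_cast h1.le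
    have h3 : ((G₁ - 1 : ℕ) : ℝ) * Real.log 2 ≤ 4 * t ^ 2 := by
      rw [← Real.log_pow, Real.log_le_iff_le_exp (by positivity)]
      exact h2
    have h4 : ((G₁ - 1 : ℕ) : ℝ) = G₁ - 1 := by
      rw [Nat.cast_sub hG₁1]
      simp
    rw [h4] at h3
    have h5 := Real.log_two_gt_d9
    have h6 : ((G₁ : ℝ) - 1) * 0.69 ≤ 4 * t ^ 2 := by
      have h7 : (0 : ℝ) ≤ (G₁ : ℝ) - 1 := by
        have : (1 : ℝ) ≤ G₁ := by exact_mod_cast hG₁1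
        linarith
      refine le_trans ?_ h3
      exact mul_le_mul_of_nonneg_left (by linarith) h7
    nlinarith
  have hG2 : ((G₀ * G₁ : ℕ) : ℝ) ≤ 7 * G₀ * t ^ 2 := by
    push_cast
    calc (G₀ : ℝ) * G₁ ≤ G₀ * (7 * t ^ 2) := by gcongr
      _ = _ := by ring
  have hG3 : ((G₀ * G₁ : ℕ) : ℝ) ≤ t ^ 3 := by
    refine hG2.trans ?_
    calc 7 * (G₀ : ℝ) * t ^ 2 ≤ t * t ^ 2 := by gcongr
      _ = _ := by ring
  refine ⟨K ^ 3, G₁, Nat.one_le_pow _ _ hK0, ?_, hG₁1, hG3, hG₁2, ?_⟩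
  · refine le_trans ?_ hD4
    push_cast
    linarith [(by positivity : (0 : ℝ) ≤ (K : ℝ) ^ 3)]
  intro Ω y L hΩ hL hyp
  obtain ⟨G, hG⟩ : ∃ G : ℕ, G = G₀ * G₁ := ⟨_, rfl⟩
  rw [← hG] at hG2 hG3 hyp
  have hG1 : 1 ≤ G := by
    rw [hG]
    exact Nat.mul_pos hG₀ hG₁1
  obtain ⟨q, hq⟩ : ∃ q : ℕ, q = 2 * L + 1 := ⟨_, rfl⟩
  have : NeZero q := ⟨by omega⟩
  obtain ⟨E, hE⟩ : ∃ E : ℝ, E = (2 * (K : ℝ) ^ 3 + 1) ^ (2 * k) * Real.exp (-t ^ 4) +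
      ((2 * k : ℕ) : ℝ) * (12 / K + 5 * Real.exp (-t ^ 4)) := ⟨_, rfl⟩
  have hE0 : 0 ≤ E := by
    rw [hE]
    positivity
  have hE1 : E ≤ Real.exp (-(t ^ 2 / 2)) := by
    rw [hE]
    exact E_le (by linarith) hk2 hK1 hK2
  have hnear : ∀ a < G, Near Ω (fun x (i : Fin (L / G)) => cl q (y x (a + G * (i : ℕ))))
      (2 * k) E := by
    intro a ha
    rw [hE]
    refine near_of_sums hΩ (fun x (i : Fin (L / G)) => y x (a + G * (i : ℕ))) hK0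
      (Real.exp_pos _).le ?_
    intro h hh hhK
    refine hyp a ha h hh fun i => ?_
    push_cast
    exact hhK i
  obtain ⟨lam, hlam⟩ : ∃ lam : ℝ, lam = √(4 * Real.exp 1 ^ 2 * k) := ⟨_, rfl⟩
  have hkp : (0 : ℝ) < k := by linarith
  have hlam1 : 1 ≤ lam := by
    rw [hlam, Real.one_le_sqrt]
    have h1 : (1 : ℝ) ≤ Real.exp 1 ^ 2 := one_le_pow₀ (Real.one_le_exp (by norm_num))
    nlinarith
  have hlam2 : lam ^ 2 = 4 * Real.exp 1 ^ 2 * k := by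
    rw [hlam]
    exact Real.sq_sqrt (by positivity)
  have hratio : 4 * Real.exp 1 * k / lam ^ 2 = Real.exp (-1) := by
    rw [hlam2, Real.exp_neg]
    have := (Real.exp_pos 1).ne'
    field_simp
  have hL' : (((L / G : ℕ) : ℕ) : ℝ) ≤ t ^ c := by
    refine le_trans ?_ hL
    exact_mod_cast Nat.div_le_self L G
  have hGL : (G : ℝ) * ((L / G : ℕ) : ℝ) ≤ t ^ c := by
    refine le_trans ?_ hL
    exact_mod_cast Nat.mul_div_le L G
  have hq3 : (q : ℝ) ≤ 3 * t ^ c := by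
    rw [hq]
    push_cast
    have : (1 : ℝ) ≤ t ^ c := one_le_pow₀ (by linarith)
    linarith
  refine ⟨Bd Ω y q G (L / G) lam, filter_subset _ _, ?_, ?_⟩
  · refine (card_Bd hk0 hE0 hlam1 hnear).trans ?_
    refine mul_le_mul_of_nonneg_left ?_ (Nat.cast_nonneg _)
    rw [hratio]
    exact bad_le (by linarith) hk1 hk2 hE1 hG3 hL' hGL hq3 hp1 hp2
  · intro x hx hxB s n hsn u v hu huv hv
    refine window_bound ht hG₀t hG1 hG2 hq hk2 ?_ hsn hu huv hv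
    intro s' n' hs' u' v' hu' huv' hv'
    have h1 := disc_good hG1 (by linarith) hx hxB hs' hu' huv' hv'
    rw [hlam] at h1
    exact h1

end Pool.Agent.Q270.VS
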