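import Pool.Agent.Q270.VS.Es4

/-!
# The digits of a fixed number in a random base
-/

set_option autoImplicit false

namespace Pool.Agent.Q270.VS

open Finset Filter Topology
open Pool.Agent.Y933.KD (e)

/-- exponential sums for linear forms in the fractional parts `A / x ^ (i + 1)` -/
theorem dig : ∃ δ : ℝ, 0 < δ ∧ δ ≤ 1 / 16 ∧ ∀ ε : ℝ, 0 < ε → ∀ᶠ N : ℕ in atTop,
    ∀ (A : ℝ) (J : ℕ) (D : ℝ) (g : ℕ → ℤ), (N : ℝ) ^ ((J : ℝ) + ε) ≤ |A| →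
      |A| ≤ Real.exp ((Real.log N) ^ (1 + δ)) → D ≤ Real.exp ((Real.log N) ^ (1 / 2 : ℝ)) →
      (∃ i < J, g i ≠ 0) → (∀ i < J, |(g i : ℝ)| ≤ D) →
      (J : ℝ) ≤ (Real.log N) ^ δ ∧
      ‖∑ x ∈ Icc 1 N, e (∑ i ∈ range J, g i * (A / (x : ℝ) ^ (i + 1)))‖ ≤
        N * Real.exp (-(Real.log N) ^ (1 / 3 : ℝ)) := by
  obtain ⟨δ, hδ0, hδ1, hes⟩ := es4
  refine ⟨δ, hδ0, hδ1, ?_⟩
  intro ε hε
  have hlog : Tendsto (fun X : ℕ => Real.log (X : ℝ)) atTop atTop :=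
    Real.tendsto_log_atTop.comp tendsto_natCast_atTop_atTop
  have e1 : ∀ᶠ N : ℕ in atTop, (2 : ℝ) ≤ (Real.log N) ^ δ :=
    hlog.eventually ((tendsto_rpow_atTop (by positivity)).eventually_ge_atTop _)
  filter_upwards [hes ε hε, e1, hlog.eventually_ge_atTop 64, eventually_ge_atTop 2] with N hN h1 h2 h3
  intro A J D g hA1 hA2 hD hg hgD
  have hN1 : (1 : ℝ) ≤ N := by exact_mod_cast (by omega : 1 ≤ N)
  have hNp : (0 : ℝ) < N := by linarith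
  obtain ⟨ℓ, hℓ⟩ : ∃ ℓ : ℝ, ℓ = Real.log N := ⟨_, rfl⟩
  rw [← hℓ] at h1 h2 hA2 hD hN ⊢
  have hℓ0 : 0 < ℓ := by linarith
  have hNexp : (N : ℝ) = Real.exp ℓ := by rw [hℓ, Real.exp_log hNp]
  have hJ : (J : ℝ) ≤ ℓ ^ δ := by
    have h4 : Real.exp (ℓ * ((J : ℝ) + ε)) ≤ Real.exp (ℓ ^ (1 + δ)) := by
      rw [Real.exp_mul, ← hNexp]
      exact hA1.trans hA2
    have h5 := Real.exp_le_exp.1 h4
    rw [Real.rpow_add hℓ0, Real.rpow_one] at h5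
    have h6 := le_of_mul_le_mul_left h5 hℓ0
    linarith
  refine ⟨hJ, ?_⟩
  have hδδ : ℓ ^ (2 * δ) = ℓ ^ δ * ℓ ^ δ := by
    rw [← Real.rpow_add hℓ0]
    congr 1
    ring
  -- the first index
  classical
  obtain ⟨i₀, ⟨hi₀J, hi₀⟩, hmin⟩ : ∃ i₀, (i₀ < J ∧ g i₀ ≠ 0) ∧ ∀ i < i₀, g i = 0 := by
    have hex : ∃ i, i < J ∧ g i ≠ 0 := by
      obtain ⟨i, hi1, hi2⟩ := hg
      exact ⟨i, hi1, hi2⟩
    refine ⟨Nat.find hex, Nat.find_spec hex, fun i hi => ?_⟩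
    have h4 := Nat.find_min hex hi
    push Not at h4
    exact h4 (hi.trans (Nat.find_spec hex).1)
  obtain ⟨K, hK⟩ : ∃ K : ℕ, J = i₀ + (K + 1) := ⟨J - i₀ - 1, by omega⟩
  have hA0 : 0 < |A| := (Real.rpow_pos_of_pos hNp _).trans_le hA1
  have hg1 : (1 : ℝ) ≤ |(g i₀ : ℝ)| := by
    have := Int.one_le_abs hi₀
    exact_mod_cast this
  have hD1 : 1 ≤ D := hg1.trans (hgD i₀ hi₀J)
  have hDN : D ≤ (N : ℝ) ^ (1 / 4 : ℝ) := by
    refine hD.trans ?_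
    rw [hNexp, ← Real.exp_mul]
    apply Real.exp_le_exp.2
    have h4 : ℓ = ℓ ^ (1 / 2 : ℝ) * ℓ ^ (1 / 2 : ℝ) := by
      rw [← Real.rpow_add hℓ0]
      norm_num
    have h5 : (8 : ℝ) ≤ ℓ ^ (1 / 2 : ℝ) := by
      rw [← Real.sqrt_eq_rpow]
      apply Real.le_sqrt_of_sq_le
      linarith
    have h6 : 0 ≤ ℓ ^ (1 / 2 : ℝ) := by positivity
    calc ℓ ^ (1 / 2 : ℝ) = ℓ ^ (1 / 2 : ℝ) * 1 := (mul_one _).symm
      _ ≤ ℓ ^ (1 / 2 : ℝ) * (ℓ ^ (1 / 2 : ℝ) * (1 / 4)) := by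
          gcongr
          linarith
      _ = ℓ * (1 / 4) := by
          rw [← mul_assoc, ← h4]
  have h4 := hN (i₀ + 1) K (fun k => A * g (i₀ + k)) (by
      have h5 : i₀ + 1 + K = J := by omega
      rw [h5, hδδ]
      have h6 : 0 ≤ ℓ ^ δ := by positivity
      nlinarith) (by omega) (by
      simp only [add_zero]
      exact mul_ne_zero (abs_pos.1 hA0) (by exact_mod_cast hi₀)) (fun k hk => by
      simp only [add_zero]
      rw [abs_mul, abs_mul]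
      calc |A| * |(g (i₀ + k) : ℝ)| ≤ |A| * D := by
            gcongr
            exact hgD _ (by omega)
        _ = |A| * 1 * D := by ring
        _ ≤ |A| * |(g i₀ : ℝ)| * (N : ℝ) ^ (1 / 4 : ℝ) := by gcongr) (by
      simp only [add_zero]
      rw [abs_mul]
      calc (N : ℝ) ^ (((i₀ + 1 : ℕ) : ℝ) + ε) ≤ (N : ℝ) ^ ((J : ℝ) + ε) := by
            apply Real.rpow_le_rpow_of_exponent_le hN1
            have : ((i₀ + 1 : ℕ) : ℝ) ≤ J := by exact_mod_cast (by omega : i₀ + 1 ≤ J)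
            linarith
        _ ≤ |A| := hA1
        _ ≤ |A| * |(g i₀ : ℝ)| := le_mul_of_one_le_right hA0.le hg1) (by
      simp only [add_zero]
      rw [abs_mul]
      calc |A| * |(g i₀ : ℝ)| ≤ Real.exp (ℓ ^ (1 + δ)) * Real.exp (ℓ ^ (1 / 2 : ℝ)) := by
            gcongr
            exact (hgD i₀ hi₀J).trans hD
        _ = Real.exp (ℓ ^ (1 + δ) + ℓ ^ (1 / 2 : ℝ)) := by rw [Real.exp_add]
        _ ≤ Real.exp (ℓ ^ (1 + 2 * δ)) := by
            apply Real.exp_le_exp.2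
            have h5 : ℓ ^ (1 / 2 : ℝ) ≤ ℓ ^ (1 + δ) :=
              Real.rpow_le_rpow_of_exponent_le (by linarith) (by linarith)
            have h6 : ℓ ^ (1 + 2 * δ) = ℓ ^ (1 + δ) * ℓ ^ δ := by
              rw [← Real.rpow_add hℓ0]
              congr 1
              ring
            have h7 : 0 ≤ ℓ ^ (1 + δ) := by positivity
            rw [h6]
            nlinarith)
  refine le_trans (le_of_eq ?_) h4
  congr 1
  refine sum_congr rfl fun x hx => ?_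
  rw [mem_Icc] at hx
  have hxp : (0 : ℝ) < x := by exact_mod_cast hx.1
  congr 1
  rw [hK, sum_range_add]
  have h5 : ∑ i ∈ range i₀, (g i : ℝ) * (A / (x : ℝ) ^ (i + 1)) = 0 := by
    refine sum_eq_zero fun i hi => ?_
    rw [hmin i (mem_range.1 hi)]
    simp
  rw [h5, zero_add]
  refine sum_congr rfl fun k _ => ?_
  have h6 : (x : ℝ) ^ (-(((i₀ + 1 : ℕ) : ℕ) : ℝ) - k) = ((x : ℝ) ^ (i₀ + k + 1))⁻¹ := by
    have h7 : -(((i₀ + 1 : ℕ) : ℕ) : ℝ) - k = -((i₀ + k + 1 : ℕ) : ℝ) := by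
      push_cast
      ring
    rw [h7, Real.rpow_neg hxp.le, Real.rpow_natCast]
  rw [h6, div_eq_mul_inv]
  ring

/-- the error term of the total variation distance -/
lemma tv_err {z w J q K η : ℝ} (hz : 3 ≤ z) (hJ0 : 0 ≤ J) (hJ : J ≤ z) (hη : η = Real.exp (-w))
    (hw : 4 * z ^ 5 + z ^ 4 ≤ w) (hK1 : Real.exp (z ^ 4) ≤ K) {j : ℕ} (hj : (j : ℝ) = J)
    (hq0 : 0 ≤ q) (hq : q ≤ Real.exp z) (hK2 : 2 * K ^ 3 + 1 ≤ Real.exp (4 * z ^ 4)) :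
    q ^ j * ((2 * K ^ 3 + 1) ^ j * η + J * (12 / K + 5 * η)) ≤ Real.exp (-z) := by
  have hz0 : 0 < z := by linarith
  have hKp : 0 < K := (Real.exp_pos _).trans_le hK1
  have hη0 : 0 ≤ η := by rw [hη]; exact (Real.exp_pos _).le
  have h1 : q ^ j ≤ Real.exp (z ^ 2) := by
    calc q ^ j ≤ Real.exp z ^ j := pow_le_pow_left₀ hq0 hq j
      _ = Real.exp (j * z) := by rw [← Real.exp_nat_mul]
      _ ≤ Real.exp (z ^ 2) := by
          apply Real.exp_le_exp.2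
          rw [hj]
          nlinarith
  have h2 : (2 * K ^ 3 + 1) ^ j ≤ Real.exp (4 * z ^ 5) := by
    calc (2 * K ^ 3 + 1) ^ j ≤ Real.exp (4 * z ^ 4) ^ j := pow_le_pow_left₀ (by positivity) hK2 j
      _ = Real.exp (j * (4 * z ^ 4)) := by rw [← Real.exp_nat_mul]
      _ ≤ Real.exp (4 * z ^ 5) := by
          apply Real.exp_le_exp.2
          rw [hj]
          calc J * (4 * z ^ 4) ≤ z * (4 * z ^ 4) := by gcongr
            _ = 4 * z ^ 5 := by ring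
  have h3 : (2 * K ^ 3 + 1) ^ j * η ≤ Real.exp (-z ^ 4) := by
    calc (2 * K ^ 3 + 1) ^ j * η ≤ Real.exp (4 * z ^ 5) * Real.exp (-w) := by
          rw [hη]
          gcongr
      _ = Real.exp (4 * z ^ 5 + -w) := by rw [Real.exp_add]
      _ ≤ _ := Real.exp_le_exp.2 (by linarith)
  have h4 : 12 / K ≤ 12 * Real.exp (-z ^ 4) := by
    rw [Real.exp_neg, ← div_eq_mul_inv]
    exact div_le_div_of_nonneg_left (by norm_num) (Real.exp_pos _) hK1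
  have h5 : η ≤ Real.exp (-z ^ 4) := by
    rw [hη]
    apply Real.exp_le_exp.2
    have : (0 : ℝ) ≤ z ^ 5 := by positivity
    linarith
  have h6 : J * (12 / K + 5 * η) ≤ z * (17 * Real.exp (-z ^ 4)) := by
    have h7 : 12 / K + 5 * η ≤ 17 * Real.exp (-z ^ 4) := by linarith
    have h8 : 0 ≤ 12 / K + 5 * η := by positivity
    exact mul_le_mul hJ h7 h8 hz0.le
  have h7 : 1 + 17 * z ≤ Real.exp (18 * z) := by
    have := Real.add_one_le_exp (18 * z)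
    linarith
  calc q ^ j * ((2 * K ^ 3 + 1) ^ j * η + J * (12 / K + 5 * η)) ≤
      Real.exp (z ^ 2) * (Real.exp (-z ^ 4) + z * (17 * Real.exp (-z ^ 4))) := by
        refine mul_le_mul h1 (add_le_add h3 h6) (by positivity) (Real.exp_pos _).le
    _ = Real.exp (z ^ 2) * ((1 + 17 * z) * Real.exp (-z ^ 4)) := by ring
    _ ≤ Real.exp (z ^ 2) * (Real.exp (18 * z) * Real.exp (-z ^ 4)) := by gcongr
    _ = Real.exp (z ^ 2 + (18 * z + -z ^ 4)) := by rw [Real.exp_add, Real.exp_add]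
    _ ≤ Real.exp (-z) := by
        apply Real.exp_le_exp.2
        have h8 : z ^ 4 = z ^ 2 * z ^ 2 := by ring
        have h9 : 9 ≤ z ^ 2 := by nlinarith
        have h10 : 8 * z ^ 2 ≤ z ^ 2 * (z ^ 2 - 1) := by nlinarith
        nlinarith

/-- **the digits of a fixed number in a random base are independent and uniform** -/
theorem tvd : ∃ δ : ℝ, 0 < δ ∧ δ ≤ 1 / 16 ∧ ∀ ε : ℝ, 0 < ε → ∀ᶠ N : ℕ in atTop,
    ∀ (A : ℝ) (J q : ℕ), (N : ℝ) ^ ((J : ℝ) + ε) ≤ |A| →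
      |A| ≤ Real.exp ((Real.log N) ^ (1 + δ)) → 1 ≤ q → (q : ℝ) ≤ Real.exp ((Real.log N) ^ δ) →
      ∀ W : Set (Fin J → ℕ),
        |({b : ℕ | (1 ≤ b ∧ b ≤ N) ∧
            (fun i : Fin J => ⌊(q : ℝ) * Int.fract (A / (b : ℝ) ^ ((i : ℕ) + 1))⌋₊) ∈ W}.ncard : ℝ) /
              N - ({w : Fin J → ℕ | (∀ i, w i < q) ∧ w ∈ W}.ncard : ℝ) / (q : ℝ) ^ J| ≤
          Real.exp (-(Real.log N) ^ δ) := by
  classical
  obtain ⟨δ, hδ0, hδ1, hdig⟩ := dig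
  refine ⟨δ, hδ0, hδ1, ?_⟩
  intro ε hε
  have hlog : Tendsto (fun X : ℕ => Real.log (X : ℝ)) atTop atTop :=
    Real.tendsto_log_atTop.comp tendsto_natCast_atTop_atTop
  have e1 : ∀ᶠ N : ℕ in atTop, (5 : ℝ) ≤ (Real.log N) ^ (1 / 48 : ℝ) :=
    hlog.eventually ((tendsto_rpow_atTop (by norm_num)).eventually_ge_atTop _)
  filter_upwards [hdig ε hε, e1, hlog.eventually_ge_atTop 64, eventually_ge_atTop 2] with N hN h1 h2 h3
  intro A J q hA1 hA2 hq1 hq2 W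
  have hN1 : (1 : ℝ) ≤ N := by exact_mod_cast (by omega : 1 ≤ N)
  have hNp : (0 : ℝ) < N := by linarith
  obtain ⟨ℓ, hℓ⟩ : ∃ ℓ : ℝ, ℓ = Real.log N := ⟨_, rfl⟩
  rw [← hℓ] at h1 h2 hA2 hN hq2 ⊢
  have hℓ0 : 0 < ℓ := by linarith
  have hℓ1 : 1 ≤ ℓ := by linarith
  have hNexp : (N : ℝ) = Real.exp ℓ := by rw [hℓ, Real.exp_log hNp]
  have hJ : (J : ℝ) ≤ ℓ ^ δ := by
    have h4 : Real.exp (ℓ * ((J : ℝ) + ε)) ≤ Real.exp (ℓ ^ (1 + δ)) := by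
      rw [Real.exp_mul, ← hNexp]
      exact hA1.trans hA2
    have h5 := Real.exp_le_exp.1 h4
    rw [Real.rpow_add hℓ0, Real.rpow_one] at h5
    have h6 := le_of_mul_le_mul_left h5 hℓ0
    linarith
  obtain ⟨z, hz⟩ : ∃ z : ℝ, z = ℓ ^ (1 / 16 : ℝ) := ⟨_, rfl⟩
  have hz3 : 3 ≤ z := by
    have h4 : ℓ ^ (1 / 48 : ℝ) ≤ ℓ ^ (1 / 16 : ℝ) :=
      Real.rpow_le_rpow_of_exponent_le hℓ1 (by norm_num)
    rw [hz]
    linarith
  have hδz : ℓ ^ δ ≤ z := by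
    rw [hz]
    exact Real.rpow_le_rpow_of_exponent_le hℓ1 hδ1
  have hz4 : z ^ 4 = ℓ ^ (1 / 4 : ℝ) := by
    rw [hz, ← Real.rpow_natCast, ← Real.rpow_mul hℓ0.le]
    norm_num
  have hz8 : z ^ 8 = ℓ ^ (1 / 2 : ℝ) := by
    rw [hz, ← Real.rpow_natCast, ← Real.rpow_mul hℓ0.le]
    norm_num
  have hz5 : z ^ 5 * ℓ ^ (1 / 48 : ℝ) = ℓ ^ (1 / 3 : ℝ) := by
    rw [hz, ← Real.rpow_natCast, ← Real.rpow_mul hℓ0.le, ← Real.rpow_add hℓ0]
    norm_num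
  have hw : 4 * z ^ 5 + z ^ 4 ≤ ℓ ^ (1 / 3 : ℝ) := by
    rw [← hz5]
    have h4 : z ^ 4 ≤ z ^ 5 := pow_le_pow_right₀ (by linarith) (by norm_num)
    have h5 : (0 : ℝ) ≤ z ^ 5 := by positivity
    nlinarith
  obtain ⟨K, hK⟩ : ∃ K : ℕ, K = ⌈Real.exp (z ^ 4)⌉₊ := ⟨_, rfl⟩
  have hK1 : Real.exp (z ^ 4) ≤ K := by rw [hK]; exact Nat.le_ceil _
  have hK2 : (K : ℝ) ≤ 2 * Real.exp (z ^ 4) := by
    have h4 := Nat.ceil_lt_add_one (Real.exp_pos (z ^ 4)).le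
    have h5 : (1 : ℝ) ≤ Real.exp (z ^ 4) := Real.one_le_exp (by positivity)
    rw [hK]
    linarith
  have hK0 : 1 ≤ K := by
    rw [hK]
    exact Nat.one_le_ceil_iff.2 (Real.exp_pos _)
  have hK0r : (1 : ℝ) ≤ K := by exact_mod_cast hK0
  have h81 : (81 : ℝ) ≤ z ^ 4 := by
    calc (81 : ℝ) = 3 ^ 4 := by norm_num
      _ ≤ z ^ 4 := pow_le_pow_left₀ (by norm_num) hz3 4
  have hK3 : 2 * (K : ℝ) ^ 3 + 1 ≤ Real.exp (4 * z ^ 4) := by
    have h4 : (K : ℝ) ^ 3 ≤ 8 * Real.exp (z ^ 4) ^ 3 := by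
      calc (K : ℝ) ^ 3 ≤ (2 * Real.exp (z ^ 4)) ^ 3 := pow_le_pow_left₀ (Nat.cast_nonneg _) hK2 3
        _ = _ := by ring
    have h5 : (1 : ℝ) ≤ (K : ℝ) ^ 3 := one_le_pow₀ hK0r
    have h6 : Real.exp (4 * z ^ 4) = Real.exp (z ^ 4) * Real.exp (z ^ 4) ^ 3 := by
      rw [← Real.exp_nat_mul, ← Real.exp_add]
      congr 1
      push_cast
      ring
    have h7 : (24 : ℝ) ≤ Real.exp (z ^ 4) := by
      have := Real.add_one_le_exp (z ^ 4)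
      linarith
    rw [h6]
    calc 2 * (K : ℝ) ^ 3 + 1 ≤ 3 * (K : ℝ) ^ 3 := by linarith
      _ ≤ 3 * (8 * Real.exp (z ^ 4) ^ 3) := by gcongr
      _ = 24 * Real.exp (z ^ 4) ^ 3 := by ring
      _ ≤ _ := by gcongr
  obtain ⟨Ω, hΩ⟩ : ∃ Ω : Finset ℕ, Ω = Icc 1 N := ⟨_, rfl⟩
  have hΩc : Ω.card = N := by
    rw [hΩ, Nat.card_Icc]
    omega
  have hΩne : Ω.Nonempty := by
    rw [← Finset.card_pos, hΩc]
    omega
  have h5 := tv_g hΩne (fun b (i : Fin J) => A / (b : ℝ) ^ ((i : ℕ) + 1)) hK0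
    (Real.exp_pos (-ℓ ^ (1 / 3 : ℝ))).le (fun h hh hhK => by
      obtain ⟨g, hg⟩ : ∃ g : ℕ → ℤ, g = fun n => if hn : n < J then h ⟨n, hn⟩ else 0 := ⟨_, rfl⟩
      have hgi : ∀ i : Fin J, g i = h i := by
        intro i
        rw [hg]
        simp
      have h6 := (hN A J ((K : ℝ) ^ 3) g hA1 hA2 (by
          rw [← hz8]
          have h7 : (K : ℝ) ^ 3 ≤ Real.exp (4 * z ^ 4) := by
            have : (0 : ℝ) ≤ (K : ℝ) ^ 3 := by positivity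
            linarith
          refine h7.trans (Real.exp_le_exp.2 ?_)
          have h8 : z ^ 8 = z ^ 4 * z ^ 4 := by ring
          rw [h8]
          nlinarith) (by
          by_contra hcon
          push Not at hcon
          apply hh
          funext i
          rw [← hgi i]
          exact hcon i i.2) (by
          intro i hi
          have := hhK ⟨i, hi⟩
          rw [← hgi] at this
          exact this)).2
      rw [hΩc]
      rw [hΩ]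
      refine le_trans (le_of_eq ?_) h6
      congr 1
      refine sum_congr rfl fun x _ => ?_
      congr 1
      rw [← Fin.sum_univ_eq_sum_range (fun i => (g i : ℝ) * (A / (x : ℝ) ^ (i + 1)))]
      refine sum_congr rfl fun i _ => ?_
      rw [hgi]) hq1 W
  rw [hΩc] at h5
  have h6 : {b : ℕ | b ∈ Ω ∧ (fun i : Fin J => ⌊(q : ℝ) *
      Int.fract (A / (b : ℝ) ^ ((i : ℕ) + 1))⌋₊) ∈ W} = {b : ℕ | (1 ≤ b ∧ b ≤ N) ∧
      (fun i : Fin J => ⌊(q : ℝ) * Int.fract (A / (b : ℝ) ^ ((i : ℕ) + 1))⌋₊) ∈ W} := by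
    ext b
    rw [hΩ]
    simp only [Set.mem_setOf_eq, mem_Icc]
  rw [h6] at h5
  refine h5.trans ?_
  refine (tv_err hz3 (Nat.cast_nonneg J) (hJ.trans hδz) rfl hw hK1 rfl (Nat.cast_nonneg q)
    (hq2.trans (Real.exp_le_exp.2 hδz)) hK3).trans ?_
  exact Real.exp_le_exp.2 (by linarith)

end Pool.Agent.Q270.VS
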