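import Pool.Agent.Q270.VS.Dg

/-!
# The discrepancy of the digits of many numbers in almost all bases
-/

set_option autoImplicit false

namespace Pool.Agent.Q270.VS

open Finset Filter Topology
open Pool.Agent.Y933.KD (e)

/-- a linear form along a residue class as a linear form in all places -/
lemma class_form {G a J : ℕ} (hG : 1 ≤ G) (ha : a < G) (h : Fin (J / G) → ℤ) :
    ∃ g : ℕ → ℤ, (∀ i : Fin (J / G), g (a + G * (i : ℕ)) = h i) ∧
      (∀ D : ℝ, 0 ≤ D → (∀ i, |(h i : ℝ)| ≤ D) → ∀ j, |(g j : ℝ)| ≤ D) ∧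
      (∀ i : Fin (J / G), a + G * (i : ℕ) < J) ∧
      ∀ f : ℕ → ℝ, ∑ j ∈ range J, (g j : ℝ) * f j = ∑ i, (h i : ℝ) * f (a + G * (i : ℕ)) := by
  classical
  have hlt : ∀ i : Fin (J / G), a + G * (i : ℕ) < J := by
    intro i
    have h1 : G * (J / G) ≤ J := Nat.mul_div_le J G
    have h2 : G * ((i : ℕ) + 1) ≤ G * (J / G) := Nat.mul_le_mul_left G i.2
    rw [Nat.mul_add, Nat.mul_one] at h2
    omega
  have hinj : ∀ i j : Fin (J / G), a + G * (i : ℕ) = a + G * (j : ℕ) → i = j := by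
    intro i j hij
    have h1 : G * (i : ℕ) = G * (j : ℕ) := by omega
    exact Fin.ext (Nat.eq_of_mul_eq_mul_left (by omega) h1)
  refine ⟨fun j => ∑ i : Fin (J / G), if a + G * (i : ℕ) = j then h i else 0, ?_, ?_, hlt, ?_⟩
  · intro i
    simp only
    rw [Finset.sum_eq_single i]
    · simp
    · intro j _ hj
      rw [if_neg (fun h2 => hj (hinj j i h2))]
    · simp
  · intro D hD hhD j
    simp only
    by_cases hex : ∃ i : Fin (J / G), a + G * (i : ℕ) = j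
    · obtain ⟨i, rfl⟩ := hex
      rw [Finset.sum_eq_single i]
      · simp only [if_true]
        exact hhD i
      · intro j _ hj
        rw [if_neg (fun h2 => hj (hinj j i h2))]
      · simp
    · push Not at hex
      rw [Finset.sum_eq_zero (fun i _ => if_neg (hex i))]
      simpa using hD
  · intro f
    have h1 : ∀ j, ((∑ i : Fin (J / G), if a + G * (i : ℕ) = j then h i else 0 : ℤ) : ℝ) * f j =
        ∑ i : Fin (J / G), if a + G * (i : ℕ) = j then (h i : ℝ) * f j else 0 := by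
      intro j
      push_cast
      rw [Finset.sum_mul]
      refine sum_congr rfl fun i _ => ?_
      split_ifs
      · rfl
      · simp
    simp only [h1]
    rw [Finset.sum_comm]
    refine sum_congr rfl fun i _ => ?_
    rw [Finset.sum_ite_eq, if_pos (mem_range.2 (hlt i))]

theorem discd : ∃ δ : ℝ, 0 < δ ∧ δ ≤ 1 / 16 ∧ ∀ ε : ℝ, 0 < ε → ∃ κ : ℝ, 0 < κ ∧ κ ≤ 1 / 16 ∧
    ∀ᶠ N : ℕ in atTop, ∀ F : Finset ℝ, (F.card : ℝ) ≤ Real.exp ((Real.log N) ^ κ) →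
      (∀ A ∈ F, |A| ≤ Real.exp ((Real.log N) ^ (1 + δ))) →
      ∃ B : Finset ℕ, (B.card : ℝ) ≤ N * Real.exp (-(Real.log N) ^ κ) ∧
        ∀ b, 1 ≤ b → b ≤ N → b ∉ B → ∀ A ∈ F, ∀ s n : ℕ, (N : ℝ) ^ (((s + n : ℕ) : ℝ) + ε) ≤ |A| →
          ∀ u v : ℝ, 0 ≤ u → u ≤ v → v ≤ 1 →
            |(cn (fun i => A / (b : ℝ) ^ (i + 1)) s n u v : ℝ) - n * (v - u)| ≤
              √(n : ℝ) * (Real.log N) ^ ε := by
  classical
  obtain ⟨δ, hδ0, hδ1, hdig⟩ := dig
  refine ⟨δ, hδ0, hδ1, ?_⟩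
  intro ε hε
  obtain ⟨γ, hγ⟩ : ∃ γ : ℝ, γ = min (1 / 12) (ε / 3) := ⟨_, rfl⟩
  have hγ0 : 0 < γ := by rw [hγ]; exact lt_min (by norm_num) (by positivity)
  have hγ1 : γ ≤ 1 / 12 := by rw [hγ]; exact min_le_left _ _
  have hγ2 : γ ≤ ε / 3 := by rw [hγ]; exact min_le_right _ _
  obtain ⟨c, hc⟩ : ∃ c : ℕ, 1 ≤ γ * c := by
    obtain ⟨c, hc⟩ := exists_nat_ge (1 / γ)
    refine ⟨c, ?_⟩
    rw [div_le_iff₀ hγ0] at hc
    linarith
  refine ⟨γ / 2, by positivity, by linarith, ?_⟩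
  have hlog : Tendsto (fun X : ℕ => Real.log (X : ℝ)) atTop atTop :=
    Real.tendsto_log_atTop.comp tendsto_natCast_atTop_atTop
  have ev2 := hlog.eventually ((tendsto_rpow_atTop hγ0).eventually (bb_core 1 c le_rfl))
  have e1 : ∀ᶠ N : ℕ in atTop, (4 : ℝ) ≤ (Real.log N) ^ (γ / 2) :=
    hlog.eventually ((tendsto_rpow_atTop (by positivity)).eventually_ge_atTop _)
  filter_upwards [hdig ε hε, ev2, e1, hlog.eventually_ge_atTop 64, eventually_ge_atTop 2]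
    with N hN hX2 h1 h2 h3
  intro F hF hFA
  have hN1 : (1 : ℝ) ≤ N := by exact_mod_cast (by omega : 1 ≤ N)
  have hNp : (0 : ℝ) < N := by linarith
  obtain ⟨ℓ, hℓ⟩ : ∃ ℓ : ℝ, ℓ = Real.log N := ⟨_, rfl⟩
  rw [← hℓ] at h1 h2 hN hF hFA hX2 ⊢
  have hℓ0 : 0 < ℓ := by linarith
  have hℓ1 : 1 ≤ ℓ := by linarith
  have hNexp : (N : ℝ) = Real.exp ℓ := by rw [hℓ, Real.exp_log hNp]
  obtain ⟨D, G₁, hD1, hD2, hG1, hG3, hDG, hmain⟩ := hX2
  obtain ⟨G, hG⟩ : ∃ G : ℕ, G = 1 * G₁ := ⟨_, rfl⟩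
  rw [← hG] at hmain
  have hG1' : 1 ≤ G := by omega
  obtain ⟨Ω, hΩ⟩ : ∃ Ω : Finset ℕ, Ω = Icc 1 N := ⟨_, rfl⟩
  have hΩc : Ω.card = N := by
    rw [hΩ, Nat.card_Icc]
    omega
  have hΩne : Ω.Nonempty := by
    rw [← Finset.card_pos, hΩc]
    omega
  -- one number
  have key : ∀ A ∈ F, ∃ B ⊆ Ω, (B.card : ℝ) ≤ N * Real.exp (-(ℓ ^ γ / 2)) ∧
      ∀ b ∈ Ω, b ∉ B → ∀ s n : ℕ, (N : ℝ) ^ (((s + n : ℕ) : ℝ) + ε) ≤ |A| →
        ∀ u v : ℝ, 0 ≤ u → u ≤ v → v ≤ 1 →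
          |(cn (fun i => A / (b : ℝ) ^ (i + 1)) s n u v : ℝ) - n * (v - u)| ≤
            √(n : ℝ) * (ℓ ^ γ) ^ 3 := by
    intro A hA
    by_cases hex : (N : ℝ) ^ ε ≤ |A|
    · have hA0 : 0 < |A| := (Real.rpow_pos_of_pos hNp _).trans_le hex
      have hle : ∀ x : ℝ, (N : ℝ) ^ (x + ε) ≤ |A| ↔ x ≤ Real.log |A| / ℓ - ε := by
        intro x
        rw [hNexp, ← Real.exp_mul, ← Real.le_log_iff_exp_le hA0, le_sub_iff_add_le,
          le_div_iff₀ hℓ0, mul_comm]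
      obtain ⟨J, hJ⟩ : ∃ J : ℕ, J = ⌊Real.log |A| / ℓ - ε⌋₊ := ⟨_, rfl⟩
      have h0 : 0 ≤ Real.log |A| / ℓ - ε := (hle 0).1 (by rwa [zero_add])
      have hJ1 : (N : ℝ) ^ ((J : ℝ) + ε) ≤ |A| := by
        rw [hle, hJ]
        exact Nat.floor_le h0
      have hJℓ : (J : ℝ) ≤ ℓ := by
        have h4 : Real.exp (ℓ * ((J : ℝ) + ε)) ≤ Real.exp (ℓ ^ (1 + δ)) := by
          rw [Real.exp_mul, ← hNexp]
          exact hJ1.trans (hFA A hA)
        have h5 := Real.exp_le_exp.1 h4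
        rw [Real.rpow_add hℓ0, Real.rpow_one] at h5
        have h6 := le_of_mul_le_mul_left h5 hℓ0
        have h7 : ℓ ^ δ ≤ ℓ ^ (1 : ℝ) := Real.rpow_le_rpow_of_exponent_le hℓ1 (by linarith)
        rw [Real.rpow_one] at h7
        linarith
      obtain ⟨B, hBΩ, hBc, hB⟩ := hmain Ω (fun b i => A / (b : ℝ) ^ (i + 1)) J hΩne (by
        rw [← Real.rpow_natCast, ← Real.rpow_mul hℓ0.le]
        refine hJℓ.trans ?_
        calc ℓ = ℓ ^ (1 : ℝ) := (Real.rpow_one ℓ).symm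
          _ ≤ _ := Real.rpow_le_rpow_of_exponent_le hℓ1 hc) (by
        intro a ha h hh hhD
        obtain ⟨g, hg1, hg2, hg3, hg4⟩ := class_form hG1' ha h
        have h5 : ∃ i < J, g i ≠ 0 := by
          by_contra hcon
          push Not at hcon
          apply hh
          funext i
          rw [← hg1 i]
          exact hcon _ (hg3 i)
        have h6 := (hN A J (D : ℝ) g hJ1 (hFA A hA) (by
          refine hD2.trans (Real.exp_le_exp.2 ?_)
          rw [← Real.rpow_natCast, ← Real.rpow_mul hℓ0.le]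
          have h7 : ℓ ^ (γ * ((2 : ℕ) : ℝ)) ≤ ℓ ^ (1 / 6 : ℝ) := by
            apply Real.rpow_le_rpow_of_exponent_le hℓ1
            push_cast
            linarith
          have h8 : ℓ ^ (1 / 2 : ℝ) = ℓ ^ (1 / 3 : ℝ) * ℓ ^ (1 / 6 : ℝ) := by
            rw [← Real.rpow_add hℓ0]
            norm_num
          have h9 : (4 : ℝ) ≤ ℓ ^ (1 / 3 : ℝ) := by
            have h10 : (64 : ℝ) ^ (1 / 3 : ℝ) ≤ ℓ ^ (1 / 3 : ℝ) :=
              Real.rpow_le_rpow (by norm_num) h2 (by norm_num)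
            have h11 : (64 : ℝ) ^ (1 / 3 : ℝ) = 4 := by
              have : (64 : ℝ) = 4 ^ (3 : ℝ) := by norm_num
              rw [this, ← Real.rpow_mul (by norm_num)]
              norm_num
            linarith
          rw [h8]
          calc 4 * ℓ ^ (γ * ((2 : ℕ) : ℝ)) ≤ 4 * ℓ ^ (1 / 6 : ℝ) := by gcongr
            _ ≤ _ := by gcongr) h5
          (fun i _ => hg2 D (Nat.cast_nonneg _) hhD i)).2
        rw [hΩc]
        rw [hΩ]
        have h7 : ∀ x : ℕ, ∑ i, (h i : ℝ) * (A / (x : ℝ) ^ (a + G * (i : ℕ) + 1)) =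
            ∑ i ∈ range J, (g i : ℝ) * (A / (x : ℝ) ^ (i + 1)) := by
          intro x
          rw [hg4 (fun i => A / (x : ℝ) ^ (i + 1))]
        simp only [h7]
        refine h6.trans ?_
        refine mul_le_mul_of_nonneg_left (Real.exp_le_exp.2 ?_) hNp.le
        rw [← Real.rpow_natCast, ← Real.rpow_mul hℓ0.le]
        have h8 : ℓ ^ (γ * ((4 : ℕ) : ℝ)) ≤ ℓ ^ (1 / 3 : ℝ) := by
          apply Real.rpow_le_rpow_of_exponent_le hℓ1
          push_cast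
          linarith
        linarith)
      rw [hΩc] at hBc
      refine ⟨B, hBΩ, hBc, ?_⟩
      intro b hb hbB s n hsn u v hu huv hv
      refine hB b hb hbB s n ?_ u v hu huv hv
      rw [hJ]
      exact Nat.le_floor ((hle _).1 hsn)
    · refine ⟨∅, empty_subset _, by rw [card_empty]; push_cast; positivity, ?_⟩
      intro b _ _ s n hsn
      exfalso
      apply hex
      refine le_trans ?_ hsn
      apply Real.rpow_le_rpow_of_exponent_le hN1
      have : (0 : ℝ) ≤ ((s + n : ℕ) : ℝ) := Nat.cast_nonneg _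
      linarith
  choose! Bi hBiΩ hBic hBi using key
  have hγγ : ℓ ^ γ = ℓ ^ (γ / 2) * ℓ ^ (γ / 2) := by
    rw [← Real.rpow_add hℓ0]
    congr 1
    ring
  refine ⟨F.biUnion Bi, ?_, ?_⟩
  · calc ((F.biUnion Bi).card : ℝ) ≤ ∑ i ∈ F, ((Bi i).card : ℝ) := by
          exact_mod_cast card_biUnion_le
      _ ≤ ∑ _i ∈ F, N * Real.exp (-(ℓ ^ γ / 2)) := sum_le_sum fun i hi => hBic i hi
      _ = F.card * (N * Real.exp (-(ℓ ^ γ / 2))) := by rw [sum_const, nsmul_eq_mul]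
      _ ≤ Real.exp (ℓ ^ (γ / 2)) * (N * Real.exp (-(ℓ ^ γ / 2))) := by gcongr
      _ = N * Real.exp (ℓ ^ (γ / 2) + -(ℓ ^ γ / 2)) := by
          rw [Real.exp_add]
          ring
      _ ≤ N * Real.exp (-ℓ ^ (γ / 2)) := by
          refine mul_le_mul_of_nonneg_left (Real.exp_le_exp.2 ?_) hNp.le
          rw [hγγ]
          nlinarith
  · intro b hb1 hb2 hbB A hA s n hsn u v hu huv hv
    have hbBi : b ∉ Bi A := fun h => hbB (mem_biUnion.2 ⟨A, hA, h⟩)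
    refine (hBi A hA b (by rw [hΩ, mem_Icc]; exact ⟨hb1, hb2⟩) hbBi s n hsn u v hu huv hv).trans ?_
    refine mul_le_mul_of_nonneg_left ?_ (Real.sqrt_nonneg _)
    rw [← Real.rpow_natCast, ← Real.rpow_mul hℓ0.le]
    apply Real.rpow_le_rpow_of_exponent_le hℓ1
    push_cast
    linarith

end Pool.Agent.Q270.VS
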