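import Pool.Agent.Q270.VS.Mm
import Pool.Agent.Q270.VB.Dc

/-!
# Discrepancy from near independence in the residue classes of the places
-/

set_option autoImplicit false

namespace Pool.Agent.Q270.VS

open Finset Filter Topology
open Pool.Agent.Q270.VB (div_close cell_lt)

variable {ι : Type*} {q : ℕ} [NeZero q]

/-- the cell of a real number -/
noncomputable def cl (q : ℕ) [NeZero q] (y : ℝ) : Fin q := Fin.ofNat q ⌊(q : ℝ) * Int.fract y⌋₊

lemma cl_val (y : ℝ) : ((cl q y : Fin q) : ℕ) = ⌊(q : ℝ) * Int.fract y⌋₊ := by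
  unfold cl
  rw [Fin.val_ofNat]
  exact Nat.mod_eq_of_lt (cell_lt q _)

/-- the centred indicator of an interval of cells -/
noncomputable def gg (q : ℕ) (A B : ℕ) (v : Fin q) : ℝ :=
  (if A ≤ (v : ℕ) ∧ (v : ℕ) < B then 1 else 0) - ((B - A : ℕ) : ℝ) / q

lemma gg_abs {A B : ℕ} (hB : B ≤ q) (v : Fin q) : |gg q A B v| ≤ 1 := by
  have hqp : (0 : ℝ) < q := by exact_mod_cast Nat.pos_of_ne_zero (NeZero.ne q)
  have h1 : 0 ≤ ((B - A : ℕ) : ℝ) / q := by positivity
  have h2 : ((B - A : ℕ) : ℝ) / q ≤ 1 := by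
    rw [div_le_one hqp]
    exact_mod_cast (Nat.sub_le _ _).trans hB
  unfold gg
  rw [abs_le]
  split_ifs <;> constructor <;> linarith

lemma gg_sum {A B : ℕ} (hB : B ≤ q) : ∑ v, gg q A B v = 0 := by
  have hqp : (0 : ℝ) < q := by exact_mod_cast Nat.pos_of_ne_zero (NeZero.ne q)
  unfold gg
  rw [sum_sub_distrib, sum_boole, sum_const, card_univ, Fintype.card_fin, nsmul_eq_mul]
  have h1 : ((univ.filter (fun v : Fin q => A ≤ (v : ℕ) ∧ (v : ℕ) < B)).map
      Fin.valEmbedding).card = (Ico A B).card := by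
    congr 1
    ext y
    simp only [Finset.mem_map, mem_filter, mem_univ, true_and, Fin.valEmbedding_apply, mem_Ico]
    constructor
    · rintro ⟨v, hv, rfl⟩
      exact hv
    · intro hy
      exact ⟨⟨y, lt_of_lt_of_le hy.2 hB⟩, hy, rfl⟩
  rw [card_map, Nat.card_Ico] at h1
  rw [h1]
  field_simp
  ring

/-- the part of a window in a residue class of the places -/
def wi (G N a s n : ℕ) : Finset (Fin N) :=
  univ.filter (fun i => s ≤ a + G * (i : ℕ) ∧ a + G * (i : ℕ) < s + n)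

/-- a sum over a window as a sum over residue classes -/
lemma sum_classes {G N s n : ℕ} (hG : 1 ≤ G) (hsn : s + n ≤ G * N) (F : ℕ → ℝ) :
    ∑ j ∈ Ico s (s + n), F j = ∑ a ∈ range G, ∑ i ∈ wi G N a s n, F (a + G * (i : ℕ)) := by
  classical
  rw [Finset.sum_sigma']
  symm
  refine Finset.sum_bij' (i := fun (z : (_ : ℕ) × Fin N) _ => z.1 + G * (z.2 : ℕ))
    (j := fun j hj => (⟨j % G, ⟨j / G, by
      rw [mem_Ico] at hj
      rw [Nat.div_lt_iff_lt_mul (by omega), mul_comm]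
      omega⟩⟩ : (_ : ℕ) × Fin N)) ?_ ?_ ?_ ?_ ?_
  · rintro ⟨a, i⟩ h
    simp only [wi, mem_sigma, mem_range, mem_filter, mem_univ, true_and] at h
    rw [mem_Ico]
    exact h.2
  · intro j hj
    rw [mem_Ico] at hj
    simp only [wi, mem_sigma, mem_range, mem_filter, mem_univ, true_and]
    refine ⟨Nat.mod_lt _ (by omega), ?_⟩
    rw [Nat.mod_add_div]
    exact hj
  · rintro ⟨a, i⟩ h
    simp only [wi, mem_sigma, mem_range, mem_filter, mem_univ, true_and] at h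
    have h1 : (a + G * (i : ℕ)) % G = a := by
      rw [Nat.add_mul_mod_self_left, Nat.mod_eq_of_lt h.1]
    have h2 : (a + G * (i : ℕ)) / G = i := by
      rw [Nat.add_mul_div_left _ _ (by omega), Nat.div_eq_of_lt h.1, zero_add]
    simp only [Sigma.mk.injEq]
    refine ⟨h1, ?_⟩
    rw [heq_iff_eq]
    exact Fin.ext h2
  · intro j hj
    simp only
    exact Nat.mod_add_div j G
  · intro z hz
    rfl

lemma card_classes {G N s n : ℕ} (hG : 1 ≤ G) (hsn : s + n ≤ G * N) :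
    ∑ a ∈ range G, ((wi G N a s n).card : ℝ) = n := by
  have h1 := sum_classes hG hsn (fun _ => (1 : ℝ))
  simp only [sum_const, Nat.card_Ico, nsmul_eq_mul, mul_one] at h1
  rw [← h1]
  have : s + n - s = n := by omega
  rw [this]

/-- the Cauchy-Schwarz inequality for the classes -/
lemma sqrt_classes {G N s n : ℕ} (hG : 1 ≤ G) (hsn : s + n ≤ G * N) :
    ∑ a ∈ range G, √((wi G N a s n).card : ℝ) ≤ √((G : ℝ) * n) := by
  apply Real.le_sqrt_of_sq_le
  have h1 := Finset.sum_mul_sq_le_sq_mul_sq (range G) (fun _ => (1 : ℝ))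
    (fun a => √((wi G N a s n).card : ℝ))
  simp only [one_mul, one_pow, sum_const, card_range, nsmul_eq_mul, mul_one] at h1
  refine h1.trans (le_of_eq ?_)
  congr 1
  rw [← card_classes hG hsn]
  refine sum_congr rfl fun a _ => ?_
  exact Real.sq_sqrt (Nat.cast_nonneg _)

open Classical in
/-- the bad elements -/
noncomputable def Bd (Ω : Finset ι) (y : ι → ℕ → ℝ) (q : ℕ) [NeZero q] (G N : ℕ) (lam : ℝ) :
    Finset ι :=
  Ω.filter (fun x => ∃ a s n A B : ℕ, a < G ∧ s + n ≤ G * N ∧ A ≤ q ∧ B ≤ q ∧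
    √((wi G N a s n).card : ℝ) * lam < |∑ i ∈ wi G N a s n, gg q A B (cl q (y x (a + G * (i : ℕ))))|)

open Classical in
/-- the number of the bad elements -/
lemma card_Bd {Ω : Finset ι} {y : ι → ℕ → ℝ} {G N k : ℕ} {E lam : ℝ} (hk : 1 ≤ k) (hE : 0 ≤ E)
    (hlam : 1 ≤ lam)
    (h : ∀ a < G, Near Ω (fun x (i : Fin N) => cl q (y x (a + G * (i : ℕ)))) (2 * k) E) :
    ((Bd Ω y q G N lam).card : ℝ) ≤ Ω.card * ((G : ℝ) * ((G : ℝ) * N + 1) ^ 2 * ((q : ℝ) + 1) ^ 2 *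
      (2 * (4 * Real.exp 1 * k / lam ^ 2) ^ k + ((N : ℝ) * q) ^ (2 * k) * E)) := by
  have hlp : 0 < lam := by linarith
  set p : ℝ := 2 * (4 * Real.exp 1 * k / lam ^ 2) ^ k + ((N : ℝ) * q) ^ (2 * k) * E with hp
  have hp0 : 0 ≤ p := by positivity
  set Z := (range G ×ˢ (range (G * N + 1) ×ˢ range (G * N + 1))) ×ˢ
    (range (q + 1) ×ˢ range (q + 1)) with hZ
  have h1 : Bd Ω y q G N lam ⊆ Z.biUnion (fun z => Ω.filter (fun x =>
      √((wi G N z.1.1 z.1.2.1 z.1.2.2).card : ℝ) * lam <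
        |∑ i ∈ wi G N z.1.1 z.1.2.1 z.1.2.2,
          gg q z.2.1 z.2.2 (cl q (y x (z.1.1 + G * (i : ℕ))))|)) := by
    intro x hx
    unfold Bd at hx
    obtain ⟨hxΩ, a, s, n, A, B, ha, hsn, hA, hB, h2⟩ := mem_filter.1 hx
    rw [mem_biUnion]
    refine ⟨((a, s, n), A, B), ?_, mem_filter.2 ⟨hxΩ, h2⟩⟩
    rw [hZ]
    simp only [mem_product, mem_range]
    omega
  have h2 : ∀ z ∈ Z, ((Ω.filter (fun x =>
      √((wi G N z.1.1 z.1.2.1 z.1.2.2).card : ℝ) * lam <
        |∑ i ∈ wi G N z.1.1 z.1.2.1 z.1.2.2,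
          gg q z.2.1 z.2.2 (cl q (y x (z.1.1 + G * (i : ℕ))))|)).card : ℝ) ≤ Ω.card * p := by
    intro z hz
    rw [hZ] at hz
    simp only [mem_product, mem_range] at hz
    obtain ⟨⟨hz1, hz2, hz3⟩, hz4, hz5⟩ := hz
    set I := wi G N z.1.1 z.1.2.1 z.1.2.2 with hI
    rcases I.eq_empty_or_nonempty with h0 | h0
    · rw [h0]
      have h3 : Ω.filter (fun x => √(((∅ : Finset (Fin N)).card : ℕ) : ℝ) * lam <
          |∑ i ∈ (∅ : Finset (Fin N)), gg q z.2.1 z.2.2 (cl q (y x (z.1.1 + G * (i : ℕ))))|) =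
          ∅ := by
        refine filter_false_of_mem fun x _ => ?_
        rw [card_empty, Nat.cast_zero, Real.sqrt_zero, zero_mul, sum_empty, abs_zero]
        exact lt_irrefl _
      rw [h3, card_empty, Nat.cast_zero]
      positivity
    · have hIp : (0 : ℝ) < I.card := by exact_mod_cast h0.card_pos
      have hI1 : (1 : ℝ) ≤ I.card := by exact_mod_cast h0.card_pos
      have h3 := conc_near hk (h z.1.1 hz1) hE I (gg q z.2.1 z.2.2)
        (gg_abs (by omega)) (gg_sum (by omega)) (T := √(I.card : ℝ) * lam) (by positivity)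
      refine h3.trans ?_
      refine mul_le_mul_of_nonneg_left ?_ (Nat.cast_nonneg _)
      have hT2 : (√(I.card : ℝ) * lam) ^ (2 * k) = (I.card : ℝ) ^ k * (lam ^ 2) ^ k := by
        rw [pow_mul, mul_pow, Real.sq_sqrt hIp.le, mul_pow]
      rw [hT2, add_div, hp]
      refine add_le_add (le_of_eq ?_) ?_
      · rw [mul_pow, div_pow]
        field_simp
      · rw [← mul_assoc, ← mul_pow]
        refine div_le_self (by positivity) ?_
        have h4 : (1 : ℝ) ≤ (I.card : ℝ) ^ k := one_le_pow₀ hI1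
        have h5 : (1 : ℝ) ≤ (lam ^ 2) ^ k := one_le_pow₀ (one_le_pow₀ hlam)
        calc (1 : ℝ) = 1 * 1 := by norm_num
          _ ≤ (I.card : ℝ) ^ k * (lam ^ 2) ^ k := by gcongr
  have hZc : (Z.card : ℝ) = (G : ℝ) * ((G : ℝ) * N + 1) ^ 2 * ((q : ℝ) + 1) ^ 2 := by
    rw [hZ, card_product, card_product, card_product, card_product, card_range, card_range,
      card_range]
    push_cast
    ring
  calc ((Bd Ω y q G N lam).card : ℝ) ≤ ((Z.biUnion (fun z => Ω.filter (fun x =>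
      √((wi G N z.1.1 z.1.2.1 z.1.2.2).card : ℝ) * lam <
        |∑ i ∈ wi G N z.1.1 z.1.2.1 z.1.2.2,
          gg q z.2.1 z.2.2 (cl q (y x (z.1.1 + G * (i : ℕ))))|))).card : ℝ) := by
        exact_mod_cast card_le_card h1
    _ ≤ ∑ z ∈ Z, ((Ω.filter (fun x =>
      √((wi G N z.1.1 z.1.2.1 z.1.2.2).card : ℝ) * lam <
        |∑ i ∈ wi G N z.1.1 z.1.2.1 z.1.2.2,
          gg q z.2.1 z.2.2 (cl q (y x (z.1.1 + G * (i : ℕ))))|)).card : ℝ) := by
        exact_mod_cast card_biUnion_le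
    _ ≤ ∑ _z ∈ Z, Ω.card * p := sum_le_sum h2
    _ = Z.card * (Ω.card * p) := by rw [sum_const, nsmul_eq_mul]
    _ = _ := by
        rw [hZc]
        ring

/-- the number of the times in a window at which the sequence is in an interval -/
noncomputable def cn (y : ℕ → ℝ) (s n : ℕ) (u v : ℝ) : ℕ :=
  ((Ico s (s + n)).filter (fun j => u ≤ Int.fract (y j) ∧ Int.fract (y j) < v)).card

/-- the discrepancy of a good element -/
theorem disc_good {Ω : Finset ι} {y : ι → ℕ → ℝ} {G N : ℕ} {lam : ℝ} {x : ι} (hG : 1 ≤ G)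
    (hlam : 0 ≤ lam) (hx : x ∈ Ω) (hgood : x ∉ Bd Ω y q G N lam) {s n : ℕ}
    (hsn : s + n ≤ G * N) {u v : ℝ} (hu : 0 ≤ u) (huv : u ≤ v) (hv : v ≤ 1) :
    |(cn (y x) s n u v : ℝ) - n * (v - u)| ≤ √((G : ℝ) * n) * lam + n * (2 / q) := by
  classical
  have hqp : (0 : ℝ) < q := by exact_mod_cast Nat.pos_of_ne_zero (NeZero.ne q)
  have hcl : ∀ a < G, ∀ A B : ℕ, A ≤ q → B ≤ q →
      |∑ i ∈ wi G N a s n, gg q A B (cl q (y x (a + G * (i : ℕ))))| ≤
        √((wi G N a s n).card : ℝ) * lam := by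
    intro a ha A B hA hB
    by_contra hcon
    push Not at hcon
    apply hgood
    unfold Bd
    exact mem_filter.2 ⟨hx, a, s, n, A, B, ha, hsn, hA, hB, hcon⟩
  have hall : ∀ A B : ℕ, A ≤ q → B ≤ q →
      |∑ j ∈ Ico s (s + n), gg q A B (cl q (y x j))| ≤ √((G : ℝ) * n) * lam := by
    intro A B hA hB
    rw [sum_classes hG hsn (fun j => gg q A B (cl q (y x j)))]
    calc _ ≤ ∑ a ∈ range G, |∑ i ∈ wi G N a s n, gg q A B (cl q (y x (a + G * (i : ℕ))))| :=
          Finset.abs_sum_le_sum_abs _ _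
      _ ≤ ∑ a ∈ range G, √((wi G N a s n).card : ℝ) * lam :=
          sum_le_sum fun a ha => hcl a (mem_range.1 ha) A B hA hB
      _ = (∑ a ∈ range G, √((wi G N a s n).card : ℝ)) * lam := by rw [sum_mul]
      _ ≤ _ := mul_le_mul_of_nonneg_right (sqrt_classes hG hsn) hlam
  have hsum : ∀ A B : ℕ, ∑ j ∈ Ico s (s + n), gg q A B (cl q (y x j)) =
      (((Ico s (s + n)).filter (fun j => A ≤ ⌊(q : ℝ) * Int.fract (y x j)⌋₊ ∧
        ⌊(q : ℝ) * Int.fract (y x j)⌋₊ < B)).card : ℝ) - n * (((B - A : ℕ) : ℝ) / q) := by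
    intro A B
    unfold gg
    rw [sum_sub_distrib, sum_const, Nat.card_Ico, nsmul_eq_mul, sum_boole]
    have h1 : s + n - s = n := by omega
    rw [h1]
    simp only [cl_val]
  have hn0 : (0 : ℝ) ≤ n := Nat.cast_nonneg n
  have hv0 : 0 ≤ v := hu.trans huv
  rw [abs_le]
  constructor
  · -- the lower bound
    have ha : ⌈(q : ℝ) * u⌉₊ ≤ q := by
      rw [Nat.ceil_le]
      exact mul_le_of_le_one_right hqp.le (huv.trans hv)
    have hc : ⌊(q : ℝ) * v⌋₊ ≤ q := by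
      have : (⌊(q : ℝ) * v⌋₊ : ℝ) ≤ q :=
        (Nat.floor_le (by positivity)).trans (mul_le_of_le_one_right hqp.le hv)
      exact_mod_cast this
    have h1 := (abs_le.1 (hall _ _ ha hc)).1
    rw [hsum] at h1
    have h2 : (((Ico s (s + n)).filter (fun j => ⌈(q : ℝ) * u⌉₊ ≤
        ⌊(q : ℝ) * Int.fract (y x j)⌋₊ ∧ ⌊(q : ℝ) * Int.fract (y x j)⌋₊ <
          ⌊(q : ℝ) * v⌋₊)).card : ℝ) ≤ (cn (y x) s n u v : ℝ) := by
      unfold cn
      refine Nat.cast_le.2 (card_le_card fun j hj => ?_)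
      rw [mem_filter] at hj ⊢
      refine ⟨hj.1, ?_⟩
      have h4 : 0 ≤ (q : ℝ) * Int.fract (y x j) := mul_nonneg hqp.le (Int.fract_nonneg _)
      constructor
      · have h5 : (q : ℝ) * u ≤ q * Int.fract (y x j) :=
          calc (q : ℝ) * u ≤ ⌈(q : ℝ) * u⌉₊ := Nat.le_ceil _
            _ ≤ ⌊(q : ℝ) * Int.fract (y x j)⌋₊ := by exact_mod_cast hj.2.1
            _ ≤ _ := Nat.floor_le h4
        exact le_of_mul_le_mul_left h5 hqp
      · have h5 : (q : ℝ) * Int.fract (y x j) < q * v :=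
          calc _ < (⌊(q : ℝ) * Int.fract (y x j)⌋₊ : ℝ) + 1 := Nat.lt_floor_add_one _
            _ ≤ (⌊(q : ℝ) * v⌋₊ : ℝ) := by exact_mod_cast hj.2.2
            _ ≤ _ := Nat.floor_le (by positivity)
        exact lt_of_mul_lt_mul_left h5 hqp.le
    have h3 : |((⌊(q : ℝ) * v⌋₊ - ⌈(q : ℝ) * u⌉₊ : ℕ) : ℝ) / q - (v - u)| ≤ 2 / q := by
      apply div_close hqp
      have e1 := Nat.le_ceil ((q : ℝ) * u)
      have e2 := Nat.ceil_lt_add_one (mul_nonneg hqp.le hu)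
      have e3 := Nat.lt_floor_add_one ((q : ℝ) * v)
      have e4 := Nat.floor_le (mul_nonneg hqp.le hv0)
      rcases le_total ⌈(q : ℝ) * u⌉₊ ⌊(q : ℝ) * v⌋₊ with h | h
      · rw [Nat.cast_sub h, abs_le]
        constructor <;> linarith
      · rw [Nat.sub_eq_zero_of_le h, Nat.cast_zero, abs_le]
        have h' : (⌊(q : ℝ) * v⌋₊ : ℝ) ≤ ⌈(q : ℝ) * u⌉₊ := by exact_mod_cast h
        have := mul_le_mul_of_nonneg_left huv hqp.le
        constructor <;> linarith
    have h5 := mul_le_mul_of_nonneg_left (abs_le.1 h3).1 hn0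
    linarith
  · -- the upper bound
    have ha : ⌊(q : ℝ) * u⌋₊ ≤ q := by
      have : (⌊(q : ℝ) * u⌋₊ : ℝ) ≤ q :=
        (Nat.floor_le (by positivity)).trans (mul_le_of_le_one_right hqp.le (huv.trans hv))
      exact_mod_cast this
    have hc : ⌈(q : ℝ) * v⌉₊ ≤ q := by
      rw [Nat.ceil_le]
      exact mul_le_of_le_one_right hqp.le hv
    have h1 := (abs_le.1 (hall _ _ ha hc)).2
    rw [hsum] at h1
    have h2 : (cn (y x) s n u v : ℝ) ≤ (((Ico s (s + n)).filter (fun j => ⌊(q : ℝ) * u⌋₊ ≤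
        ⌊(q : ℝ) * Int.fract (y x j)⌋₊ ∧ ⌊(q : ℝ) * Int.fract (y x j)⌋₊ <
          ⌈(q : ℝ) * v⌉₊)).card : ℝ) := by
      unfold cn
      refine Nat.cast_le.2 (card_le_card fun j hj => ?_)
      rw [mem_filter] at hj ⊢
      refine ⟨hj.1, ?_⟩
      have h4 : 0 ≤ (q : ℝ) * Int.fract (y x j) := mul_nonneg hqp.le (Int.fract_nonneg _)
      constructor
      · exact Nat.floor_le_floor (mul_le_mul_of_nonneg_left hj.2.1 hqp.le)
      · rw [Nat.floor_lt h4]
        exact lt_of_lt_of_le (mul_lt_mul_of_pos_left hj.2.2 hqp) (Nat.le_ceil _)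
    have h3 : |((⌈(q : ℝ) * v⌉₊ - ⌊(q : ℝ) * u⌋₊ : ℕ) : ℝ) / q - (v - u)| ≤ 2 / q := by
      apply div_close hqp
      have e1 := Nat.le_ceil ((q : ℝ) * v)
      have e2 := Nat.ceil_lt_add_one (mul_nonneg hqp.le hv0)
      have e3 := Nat.lt_floor_add_one ((q : ℝ) * u)
      have e4 := Nat.floor_le (mul_nonneg hqp.le hu)
      have h : ⌊(q : ℝ) * u⌋₊ ≤ ⌈(q : ℝ) * v⌉₊ := by
        have h7 : (⌊(q : ℝ) * u⌋₊ : ℝ) ≤ ⌈(q : ℝ) * v⌉₊ := by
          have := mul_le_mul_of_nonneg_left huv hqp.le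
          linarith
        exact_mod_cast h7
      rw [Nat.cast_sub h, abs_le]
      constructor <;> linarith
    have h5 := mul_le_mul_of_nonneg_left (abs_le.1 h3).2 hn0
    linarith

end Pool.Agent.Q270.VS
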