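import Pool.Agent.Q270.VS.Vl

/-!
# Dyadic summation, and families of lacunary sequences
-/

set_option autoImplicit false

namespace Pool.Agent.Q270.VS

open Finset Filter Topology

/-- sums over the dyadic blocks -/
lemma dyadic {κ η : ℝ} (hκ : 0 < κ) (hκ1 : κ ≤ 1) (hη : 0 < η) (hη1 : η ≤ 1 / 2) :
    ∀ᶠ N : ℕ in atTop, ∀ P : ℕ → Prop, (∀ i : ℕ, (N : ℝ) ^ (1 - η) ≤ 2 ^ i → 2 ^ i ≤ N →
      ∃ B : Finset ℕ, (B.card : ℝ) ≤ 2 ^ i * Real.exp (-(Real.log (2 ^ i)) ^ κ) ∧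
        ∀ x ∈ Ioc (2 ^ i) (2 * 2 ^ i), x ∉ B → P x) →
      ∃ B : Finset ℕ, (B.card : ℝ) ≤ N * Real.exp (-(Real.log N) ^ (κ / 2)) ∧
        ∀ x, 1 ≤ x → x ≤ N → x ∉ B → P x := by
  classical
  have hlog : Tendsto (fun X : ℕ => Real.log (X : ℝ)) atTop atTop :=
    Real.tendsto_log_atTop.comp tendsto_natCast_atTop_atTop
  have e1 : ∀ᶠ N : ℕ in atTop, (4 : ℝ) ≤ (Real.log N) ^ (κ / 2) :=
    hlog.eventually ((tendsto_rpow_atTop (by positivity)).eventually_ge_atTop 4)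
  have e2 : ∀ᶠ N : ℕ in atTop, (2 : ℝ) / η ≤ (Real.log N) ^ (1 - κ / 2) :=
    hlog.eventually ((tendsto_rpow_atTop (by linarith)).eventually_ge_atTop _)
  filter_upwards [e1, e2, eventually_ge_atTop 2, hlog.eventually_ge_atTop 1] with N h1 h2 hN hℓ1
  intro P hP
  choose! B hBc hB using hP
  have hNp : (0 : ℝ) < N := by
    have : (2 : ℝ) ≤ N := by exact_mod_cast hN
    linarith
  obtain ⟨ℓ, hℓ⟩ : ∃ ℓ : ℝ, ℓ = Real.log N := ⟨_, rfl⟩
  rw [← hℓ] at h1 h2 hℓ1 ⊢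
  have hℓ0 : 0 < ℓ := by linarith
  have hNexp : (N : ℝ) = Real.exp ℓ := by rw [hℓ, Real.exp_log hNp]
  have hY : (0 : ℝ) < (N : ℝ) ^ (1 - η) := Real.rpow_pos_of_pos hNp _
  -- the first block
  obtain ⟨i₀, hi₀⟩ : ∃ i₀ : ℕ, i₀ = Nat.clog 2 ⌈(N : ℝ) ^ (1 - η)⌉₊ := ⟨_, rfl⟩
  have hY1 : (1 : ℝ) ≤ (N : ℝ) ^ (1 - η) :=
    Real.one_le_rpow (by exact_mod_cast (by omega : 1 ≤ N)) (by linarith)
  have hi₀1 : (N : ℝ) ^ (1 - η) ≤ 2 ^ i₀ := by
    calc (N : ℝ) ^ (1 - η) ≤ (⌈(N : ℝ) ^ (1 - η)⌉₊ : ℝ) := Nat.le_ceil _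
      _ ≤ ((2 ^ i₀ : ℕ) : ℝ) := by
          rw [hi₀]
          exact_mod_cast Nat.le_pow_clog (by norm_num) _
      _ = _ := by push_cast; ring
  have hi₀2 : (2 : ℝ) ^ i₀ ≤ 4 * (N : ℝ) ^ (1 - η) := by
    rcases Nat.eq_zero_or_pos i₀ with h0 | h0
    · rw [h0]
      linarith
    · have h3 : 1 < ⌈(N : ℝ) ^ (1 - η)⌉₊ := by
        by_contra hcon
        push Not at hcon
        have h4 : Nat.clog 2 ⌈(N : ℝ) ^ (1 - η)⌉₊ = 0 := Nat.clog_of_right_le_one hcon 2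
        omega
      have h4 : 2 ^ (i₀ - 1) < ⌈(N : ℝ) ^ (1 - η)⌉₊ := by
        rw [hi₀]
        exact Nat.pow_pred_clog_lt_self (by norm_num) h3
      have h5 : ((2 ^ (i₀ - 1) : ℕ) : ℝ) ≤ 2 * (N : ℝ) ^ (1 - η) := by
        have h6 := Nat.ceil_lt_add_one hY.le
        have h7 : ((2 ^ (i₀ - 1) : ℕ) : ℝ) ≤ ⌈(N : ℝ) ^ (1 - η)⌉₊ := by exact_mod_cast h4.le
        linarith
      have h6 : (2 : ℝ) ^ i₀ = 2 * ((2 ^ (i₀ - 1) : ℕ) : ℝ) := by
        push_cast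
        rw [← pow_succ']
        congr 1
        omega
      rw [h6]
      linarith
  obtain ⟨J, hJ⟩ : ∃ J : ℕ, J = Nat.log 2 N := ⟨_, rfl⟩
  have hJ1 : 2 ^ J ≤ N := by rw [hJ]; exact Nat.pow_log_le_self 2 (by omega)
  have hJ2 : N < 2 ^ (J + 1) := by rw [hJ]; exact Nat.lt_pow_succ_log_self (by norm_num) _
  refine ⟨Icc 1 (2 ^ i₀) ∪ (Icc i₀ J).biUnion B, ?_, ?_⟩
  · have hb : ∀ i ∈ Icc i₀ J, ((B i).card : ℝ) ≤ 2 ^ i * Real.exp (-(ℓ ^ κ / 2)) := by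
      intro i hi
      rw [mem_Icc] at hi
      have h3 : (N : ℝ) ^ (1 - η) ≤ 2 ^ i := hi₀1.trans (pow_le_pow_right₀ (by norm_num) hi.1)
      refine (hBc i h3 ((Nat.pow_le_pow_right (by norm_num) hi.2).trans hJ1)).trans ?_
      refine mul_le_mul_of_nonneg_left (Real.exp_le_exp.2 ?_) (by positivity)
      have h4 : ℓ / 2 ≤ Real.log (2 ^ i) := by
        calc ℓ / 2 ≤ (1 - η) * ℓ := by nlinarith
          _ = Real.log ((N : ℝ) ^ (1 - η)) := by rw [Real.log_rpow hNp, hℓ]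
          _ ≤ _ := Real.log_le_log hY h3
      have h5 : ℓ ^ κ / 2 ≤ (ℓ / 2) ^ κ := by
        rw [Real.div_rpow hℓ0.le (by norm_num)]
        apply div_le_div_of_nonneg_left (by positivity) (by positivity)
        calc (2 : ℝ) ^ κ ≤ 2 ^ (1 : ℝ) := Real.rpow_le_rpow_of_exponent_le (by norm_num) hκ1
          _ = 2 := Real.rpow_one 2
      have h6 : (ℓ / 2) ^ κ ≤ (Real.log (2 ^ i)) ^ κ :=
        Real.rpow_le_rpow (by positivity) h4 hκ.le
      linarith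
    have hsum : ∑ i ∈ Icc i₀ J, ((2 : ℝ) ^ i) ≤ 2 * N := by
      calc ∑ i ∈ Icc i₀ J, ((2 : ℝ) ^ i) ≤ ∑ i ∈ range (J + 1), ((2 : ℝ) ^ i) := by
            refine sum_le_sum_of_subset_of_nonneg ?_ (fun i _ _ => by positivity)
            intro i hi
            rw [mem_Icc] at hi
            rw [mem_range]
            omega
        _ ≤ (2 : ℝ) ^ (J + 1) := by
            rw [geom_sum_eq (by norm_num)]
            norm_num
        _ = 2 * 2 ^ J := by ring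
        _ ≤ 2 * N := by
            have : ((2 ^ J : ℕ) : ℝ) ≤ N := by exact_mod_cast hJ1
            push_cast at this
            linarith
    have he4 : (8 : ℝ) ≤ Real.exp 4 := by
      have h3 := Real.add_one_le_exp (2 : ℝ)
      have h4 : Real.exp 4 = Real.exp 2 * Real.exp 2 := by
        rw [← Real.exp_add]
        norm_num
      rw [h4]
      nlinarith
    have h8 : Real.exp (-(ℓ ^ (κ / 2) + 4)) ≤ Real.exp (-ℓ ^ (κ / 2)) / 8 := by
      rw [le_div_iff₀ (by norm_num)]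
      calc Real.exp (-(ℓ ^ (κ / 2) + 4)) * 8 ≤ Real.exp (-(ℓ ^ (κ / 2) + 4)) * Real.exp 4 := by
            gcongr
        _ = _ := by
            rw [← Real.exp_add]
            congr 1
            ring
    have hfirst : ((Icc 1 (2 ^ i₀)).card : ℝ) ≤ N * Real.exp (-ℓ ^ (κ / 2)) / 2 := by
      rw [Nat.card_Icc, Nat.add_sub_cancel]
      push_cast
      refine hi₀2.trans ?_
      have h3 : (N : ℝ) ^ (1 - η) = N * Real.exp (-(η * ℓ)) := by
        rw [hNexp, ← Real.exp_mul, ← Real.exp_add]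
        congr 1
        ring
      rw [h3]
      have h4 : ℓ ^ (κ / 2) + 4 ≤ η * ℓ := by
        have h5 : ℓ = ℓ ^ (1 - κ / 2) * ℓ ^ (κ / 2) := by
          rw [← Real.rpow_add hℓ0]
          norm_num
        have h6 : 2 ≤ η * ℓ ^ (1 - κ / 2) := by
          rw [div_le_iff₀ hη] at h2
          linarith
        calc ℓ ^ (κ / 2) + 4 ≤ 2 * ℓ ^ (κ / 2) := by linarith
          _ ≤ (η * ℓ ^ (1 - κ / 2)) * ℓ ^ (κ / 2) := by gcongr
          _ = η * (ℓ ^ (1 - κ / 2) * ℓ ^ (κ / 2)) := by ring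
          _ = η * ℓ := by rw [← h5]
      have h5 : Real.exp (-(η * ℓ)) ≤ Real.exp (-ℓ ^ (κ / 2)) / 8 :=
        (Real.exp_le_exp.2 (by linarith)).trans h8
      calc 4 * (N * Real.exp (-(η * ℓ))) ≤ 4 * (N * (Real.exp (-ℓ ^ (κ / 2)) / 8)) := by gcongr
        _ = _ := by ring
    have hrest : (((Icc i₀ J).biUnion B).card : ℝ) ≤ N * Real.exp (-ℓ ^ (κ / 2)) / 2 := by
      have h3 : Real.exp (-(ℓ ^ κ / 2)) ≤ Real.exp (-ℓ ^ (κ / 2)) / 8 := by
        refine le_trans (Real.exp_le_exp.2 ?_) h8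
        have h5 : ℓ ^ κ = ℓ ^ (κ / 2) * ℓ ^ (κ / 2) := by
          rw [← Real.rpow_add hℓ0]
          norm_num
        rw [h5]
        nlinarith
      calc (((Icc i₀ J).biUnion B).card : ℝ) ≤ ∑ i ∈ Icc i₀ J, ((B i).card : ℝ) := by
            exact_mod_cast card_biUnion_le
        _ ≤ ∑ i ∈ Icc i₀ J, (2 : ℝ) ^ i * Real.exp (-(ℓ ^ κ / 2)) := sum_le_sum hb
        _ = (∑ i ∈ Icc i₀ J, (2 : ℝ) ^ i) * Real.exp (-(ℓ ^ κ / 2)) := by rw [sum_mul]
        _ ≤ (2 * N) * (Real.exp (-ℓ ^ (κ / 2)) / 8) := by gcongr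
        _ ≤ _ := by
            have : 0 ≤ (N : ℝ) * Real.exp (-ℓ ^ (κ / 2)) := by positivity
            linarith
    calc ((Icc 1 (2 ^ i₀) ∪ (Icc i₀ J).biUnion B).card : ℝ) ≤
        ((Icc 1 (2 ^ i₀)).card : ℝ) + (((Icc i₀ J).biUnion B).card : ℝ) := by
          exact_mod_cast card_union_le _ _
      _ ≤ _ := by linarith
  · intro x hx1 hxN hxB
    rw [mem_union, mem_Icc, mem_biUnion] at hxB
    push Not at hxB
    have h3 : 2 ^ i₀ < x := hxB.1 hx1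
    obtain ⟨i, hi⟩ : ∃ i : ℕ, i + 1 = Nat.clog 2 x := by
      refine ⟨Nat.clog 2 x - 1, ?_⟩
      have : 0 < Nat.clog 2 x := Nat.clog_pos (by norm_num) (by
        have : 1 ≤ 2 ^ i₀ := Nat.one_le_two_pow
        omega)
      omega
    have h4 : 2 ^ i < x := by
      have := Nat.pow_pred_clog_lt_self (b := 2) (by norm_num) (x := x) (by
        have : 1 ≤ 2 ^ i₀ := Nat.one_le_two_pow
        omega)
      rw [← hi] at this
      simpa using this
    have h5 : x ≤ 2 ^ (i + 1) := by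
      rw [hi]
      exact Nat.le_pow_clog (by norm_num) _
    have h6 : i₀ ≤ i := by
      by_contra hcon
      push Not at hcon
      have : 2 ^ (i + 1) ≤ 2 ^ i₀ := Nat.pow_le_pow_right (by norm_num) hcon
      omega
    have h7 : i ≤ J := by
      by_contra hcon
      push Not at hcon
      have : 2 ^ (J + 1) ≤ 2 ^ i := Nat.pow_le_pow_right (by norm_num) hcon
      omega
    have h8 : (N : ℝ) ^ (1 - η) ≤ 2 ^ i := hi₀1.trans (pow_le_pow_right₀ (by norm_num) h6)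
    have h9 : 2 ^ i ≤ N := (Nat.pow_le_pow_right (by norm_num) h7).trans hJ1
    refine hB i h8 h9 x ?_ (hxB.2 i (mem_Icc.2 ⟨h6, h7⟩))
    rw [mem_Ioc]
    rw [pow_succ] at h5
    omega

/-- powers in a short range -/
lemma rpow_range {N X θ η : ℝ} (hN : 1 ≤ N) (hη : 0 ≤ η) (hX : N ^ (1 - η) ≤ X) (hXN : X ≤ N) :
    N ^ θ * N ^ (-(η * |θ|)) ≤ X ^ θ ∧ X ^ θ ≤ N ^ θ * N ^ (η * |θ|) := by
  have hN0 : 0 < N := by linarith
  have hY : 0 < N ^ (1 - η) := Real.rpow_pos_of_pos hN0 _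
  have hX0 : 0 < X := hY.trans_le hX
  rcases le_total 0 θ with h | h
  · rw [abs_of_nonneg h, ← Real.rpow_add hN0, ← Real.rpow_add hN0]
    constructor
    · calc N ^ (θ + -(η * θ)) = (N ^ (1 - η)) ^ θ := by
            rw [← Real.rpow_mul hN0.le]
            congr 1
            ring
        _ ≤ X ^ θ := Real.rpow_le_rpow hY.le hX h
    · have h1 : X ^ θ ≤ N ^ θ := Real.rpow_le_rpow hX0.le hXN h
      refine h1.trans (Real.rpow_le_rpow_of_exponent_le hN ?_)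
      nlinarith
  · rw [abs_of_nonpos h, ← Real.rpow_add hN0, ← Real.rpow_add hN0]
    constructor
    · have h1 : N ^ θ ≤ X ^ θ := Real.rpow_le_rpow_of_nonpos hX0 hXN h
      refine le_trans (Real.rpow_le_rpow_of_exponent_le hN ?_) h1
      nlinarith
    · calc X ^ θ ≤ (N ^ (1 - η)) ^ θ := Real.rpow_le_rpow_of_nonpos hY hX h
        _ = N ^ (θ + η * -θ) := by
            rw [← Real.rpow_mul hN0.le]
            congr 1
            ring

/-- **families of lacunary sequences times powers**: for almost all `m ≤ N` all the sequences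
`u i j * m ^ θ` have almost square root discrepancy in all windows -/
theorem lacN : ∃ δ : ℝ, 0 < δ ∧ ∀ θ : ℝ, (∀ n : ℕ, θ ≠ n) → ∀ (ε : ℝ) (G₀ : ℕ),
    0 < ε → 1 ≤ G₀ → ∃ κ : ℝ, 0 < κ ∧ κ ≤ 1 ∧ ∀ᶠ N : ℕ in atTop, ∀ (ι : Type) (F : Finset ι)
      (u : ι → ℕ → ℝ) (L : ι → ℕ), (F.card : ℝ) ≤ Real.exp ((Real.log N) ^ κ) →
      (∀ i ∈ F, ∀ n < L i, (N : ℝ) ^ ε ≤ |u i n| * (N : ℝ) ^ θ) →
      (∀ i ∈ F, ∀ n < L i, |u i n| * (N : ℝ) ^ θ ≤ Real.exp ((Real.log N) ^ (1 + δ))) →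
      (∀ i ∈ F, ∀ n, n + G₀ < L i → 2 * |u i n| ≤ |u i (n + G₀)|) →
      ∃ B : Finset ℕ, (B.card : ℝ) ≤ N * Real.exp (-(Real.log N) ^ κ) ∧
        ∀ m, 1 ≤ m → m ≤ N → m ∉ B → ∀ i ∈ F, ∀ s n, s + n ≤ L i → ∀ a b : ℝ, 0 ≤ a → a ≤ b →
          b ≤ 1 → |(cn (fun j => u i j * (m : ℝ) ^ θ) s n a b : ℝ) - n * (b - a)| ≤
            √(n : ℝ) * (Real.log N) ^ ε := by
  classical
  obtain ⟨δ₀, hδ₀, hδ₁, hlac⟩ := lac
  refine ⟨δ₀ / 2, by positivity, ?_⟩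
  intro θ hθ ε G₀ hε hG₀
  obtain ⟨κ₁, hκ₁, hκ₁1, X₀, hlac⟩ := hlac θ hθ (ε / 2) G₀ (by positivity) hG₀
  obtain ⟨η, hη⟩ : ∃ η : ℝ, η = min (1 / 2) (ε / (2 * (|θ| + 1))) := ⟨_, rfl⟩
  have hθ1 : 0 < |θ| + 1 := by positivity
  have hη0 : 0 < η := by rw [hη]; exact lt_min (by norm_num) (by positivity)
  have hη1 : η ≤ 1 / 2 := by rw [hη]; exact min_le_left _ _
  have hη2 : η * |θ| ≤ ε / 2 := by
    have h1 : η ≤ ε / (2 * (|θ| + 1)) := by rw [hη]; exact min_le_right _ _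
    have h2 : η * (|θ| + 1) ≤ ε / 2 := by
      rw [le_div_iff₀ (by positivity)] at h1
      linarith
    nlinarith
  have hη3 : η * |θ| ≤ |θ| := by nlinarith [abs_nonneg θ]
  refine ⟨κ₁ / 4, by positivity, by linarith, ?_⟩
  have hlog : Tendsto (fun X : ℕ => Real.log (X : ℝ)) atTop atTop :=
    Real.tendsto_log_atTop.comp tendsto_natCast_atTop_atTop
  have hNη : Tendsto (fun N : ℕ => (N : ℝ) ^ (1 - η)) atTop atTop :=
    (tendsto_rpow_atTop (by linarith)).comp tendsto_natCast_atTop_atTop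
  have e1 : ∀ᶠ N : ℕ in atTop, (4 : ℝ) * (1 + |θ|) ≤ (Real.log N) ^ (δ₀ / 2) :=
    hlog.eventually ((tendsto_rpow_atTop (by positivity)).eventually_ge_atTop _)
  have e2 : ∀ᶠ N : ℕ in atTop, (12 : ℝ) ≤ (Real.log N) ^ (κ₁ / 2) :=
    hlog.eventually ((tendsto_rpow_atTop (by positivity)).eventually_ge_atTop _)
  have e3 := dyadic (κ := κ₁ / 2) (by positivity) (by linarith) hη0 hη1
  filter_upwards [e1, e2, e3, hNη.eventually_ge_atTop (X₀ : ℝ), hlog.eventually_ge_atTop 2,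
    eventually_ge_atTop 2] with N h1 h2 h3 h4 h5 h6
  intro ι F u L hF hu1 hu2 hu3
  have hκ4 : κ₁ / 2 / 2 = κ₁ / 4 := by ring
  rw [hκ4] at h3
  obtain ⟨ℓ, hℓ⟩ : ∃ ℓ : ℝ, ℓ = Real.log N := ⟨_, rfl⟩
  have hN1 : (1 : ℝ) ≤ N := by exact_mod_cast (by omega : 1 ≤ N)
  have hNp : (0 : ℝ) < N := by linarith
  rw [← hℓ] at h1 h2 h5 hF
  have hℓ0 : 0 < ℓ := by linarith
  have hNexp : (N : ℝ) = Real.exp ℓ := by rw [hℓ, Real.exp_log hNp]
  obtain ⟨B, hBc, hB⟩ := h3 (fun m => ∀ i ∈ F, ∀ s n, s + n ≤ L i → ∀ a b : ℝ, 0 ≤ a → a ≤ b →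
    b ≤ 1 → |(cn (fun j => u i j * (m : ℝ) ^ θ) s n a b : ℝ) - n * (b - a)| ≤
      √(n : ℝ) * (Real.log N) ^ ε) (by
    intro k hk1 hk2
    obtain ⟨X, hX⟩ : ∃ X : ℕ, X = 2 ^ k := ⟨_, rfl⟩
    have hXr : (2 : ℝ) ^ k = X := by rw [hX]; push_cast; rfl
    rw [hXr] at hk1 ⊢
    rw [← hX] at hk2 ⊢
    have hXX₀ : X₀ ≤ X := by
      have : (X₀ : ℝ) ≤ X := h4.trans hk1
      exact_mod_cast this
    have hY : (0 : ℝ) < (N : ℝ) ^ (1 - η) := Real.rpow_pos_of_pos hNp _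
    have hXp : (0 : ℝ) < X := hY.trans_le hk1
    have hX1 : (1 : ℝ) ≤ X := by
      have : 1 ≤ X := by
        rw [hX]
        exact Nat.one_le_two_pow
      exact_mod_cast this
    have hXN : (X : ℝ) ≤ N := by exact_mod_cast hk2
    have hr := rpow_range (θ := θ) hN1 hη0.le hk1 hXN
    obtain ⟨lx, hlx⟩ : ∃ lx : ℝ, lx = Real.log X := ⟨_, rfl⟩
    have hlx1 : lx ≤ ℓ := by
      rw [hlx, hℓ]
      exact Real.log_le_log hXp hXN
    have hlx2 : ℓ / 2 ≤ lx := by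
      calc ℓ / 2 ≤ (1 - η) * ℓ := by nlinarith
        _ = Real.log ((N : ℝ) ^ (1 - η)) := by rw [Real.log_rpow hNp, hℓ]
        _ ≤ _ := by
            rw [hlx]
            exact Real.log_le_log hY hk1
    have hlx0 : 0 < lx := by linarith
    have hlxx1 : 1 ≤ lx := by linarith
    have key : ∀ i ∈ F, ∃ B ⊆ Ioc X (2 * X), (B.card : ℝ) ≤ X * Real.exp (-(Real.log X) ^ κ₁) ∧
        ∀ x ∈ Ioc X (2 * X), x ∉ B → ∀ s n, s + n ≤ L i → ∀ a b : ℝ, 0 ≤ a → a ≤ b → b ≤ 1 →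
          |(cn (fun j => u i j * (x : ℝ) ^ θ) s n a b : ℝ) - n * (b - a)| ≤
            √(n : ℝ) * (Real.log X) ^ (ε / 2) := by
      intro i hi
      refine hlac X hXX₀ (u i) (L i) (fun n hn => ?_) (fun n hn => ?_) (hu3 i hi)
      · have h7 := hu1 i hi n hn
        have h8 : (X : ℝ) ^ (ε / 2) ≤ (N : ℝ) ^ (ε / 2) :=
          Real.rpow_le_rpow hXp.le hXN (by positivity)
        have h9 : (N : ℝ) ^ (ε / 2) = (N : ℝ) ^ ε * (N : ℝ) ^ (-(ε / 2)) := by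
          rw [← Real.rpow_add hNp]
          congr 1
          ring
        have h10 : (N : ℝ) ^ (-(ε / 2)) ≤ (N : ℝ) ^ (-(η * |θ|)) :=
          Real.rpow_le_rpow_of_exponent_le hN1 (by linarith)
        calc (X : ℝ) ^ (ε / 2) ≤ (N : ℝ) ^ ε * (N : ℝ) ^ (-(ε / 2)) := h8.trans h9.le
          _ ≤ (|u i n| * (N : ℝ) ^ θ) * (N : ℝ) ^ (-(η * |θ|)) := by gcongr
          _ = |u i n| * ((N : ℝ) ^ θ * (N : ℝ) ^ (-(η * |θ|))) := by ring
          _ ≤ _ := mul_le_mul_of_nonneg_left hr.1 (abs_nonneg _)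
      · have h7 := hu2 i hi n hn
        rw [← hℓ] at h7
        rw [← hlx]
        calc |u i n| * (X : ℝ) ^ θ ≤ |u i n| * ((N : ℝ) ^ θ * (N : ℝ) ^ (η * |θ|)) :=
              mul_le_mul_of_nonneg_left hr.2 (abs_nonneg _)
          _ = (|u i n| * (N : ℝ) ^ θ) * (N : ℝ) ^ (η * |θ|) := by ring
          _ ≤ Real.exp (ℓ ^ (1 + δ₀ / 2)) * (N : ℝ) ^ |θ| := by
              gcongr
          _ = Real.exp (ℓ ^ (1 + δ₀ / 2) + ℓ * |θ|) := by
              rw [hNexp, ← Real.exp_mul, ← Real.exp_add]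
          _ ≤ Real.exp (lx ^ (1 + δ₀)) := by
              apply Real.exp_le_exp.2
              have h8 : ℓ ≤ ℓ ^ (1 + δ₀ / 2) := by
                calc ℓ = ℓ ^ (1 : ℝ) := (Real.rpow_one ℓ).symm
                  _ ≤ _ := Real.rpow_le_rpow_of_exponent_le (by linarith) (by linarith)
              have h9 : (ℓ / 2) ^ (1 + δ₀) ≤ lx ^ (1 + δ₀) :=
                Real.rpow_le_rpow (by positivity) hlx2 (by positivity)
              have h10 : ℓ ^ (1 + δ₀) / 4 ≤ (ℓ / 2) ^ (1 + δ₀) := by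
                rw [Real.div_rpow hℓ0.le (by norm_num)]
                apply div_le_div_of_nonneg_left (by positivity) (by positivity)
                calc (2 : ℝ) ^ (1 + δ₀) ≤ 2 ^ (2 : ℝ) :=
                      Real.rpow_le_rpow_of_exponent_le (by norm_num) (by linarith)
                  _ = 4 := by norm_num
              have h11 : ℓ ^ (1 + δ₀) = ℓ ^ (δ₀ / 2) * ℓ ^ (1 + δ₀ / 2) := by
                rw [← Real.rpow_add hℓ0]
                congr 1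
                ring
              have h12 : 0 ≤ ℓ ^ (1 + δ₀ / 2) := by positivity
              calc ℓ ^ (1 + δ₀ / 2) + ℓ * |θ| ≤ ℓ ^ (1 + δ₀ / 2) + ℓ ^ (1 + δ₀ / 2) * |θ| := by
                    gcongr
                _ = (4 * (1 + |θ|)) * ℓ ^ (1 + δ₀ / 2) / 4 := by ring
                _ ≤ ℓ ^ (δ₀ / 2) * ℓ ^ (1 + δ₀ / 2) / 4 := by gcongr
                _ = ℓ ^ (1 + δ₀) / 4 := by rw [h11]
                _ ≤ _ := h10.trans h9
    choose! Bi hBiX hBic hBi using key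
    refine ⟨F.biUnion Bi, ?_, ?_⟩
    · rw [← hlx] at hBic ⊢
      have hy : (3 : ℝ) ≤ lx ^ (κ₁ / 2) := by
        have h7 : (ℓ / 2) ^ (κ₁ / 2) ≤ lx ^ (κ₁ / 2) :=
          Real.rpow_le_rpow (by positivity) hlx2 (by positivity)
        have h8 : ℓ ^ (κ₁ / 2) / 2 ≤ (ℓ / 2) ^ (κ₁ / 2) := by
          rw [Real.div_rpow hℓ0.le (by norm_num)]
          apply div_le_div_of_nonneg_left (by positivity) (by positivity)
          calc (2 : ℝ) ^ (κ₁ / 2) ≤ 2 ^ (1 : ℝ) :=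
                Real.rpow_le_rpow_of_exponent_le (by norm_num) (by linarith)
            _ = 2 := Real.rpow_one 2
        linarith
      have hFl : ℓ ^ (κ₁ / 4) ≤ 2 * lx ^ (κ₁ / 2) := by
        calc ℓ ^ (κ₁ / 4) ≤ (2 * lx) ^ (κ₁ / 4) :=
              Real.rpow_le_rpow hℓ0.le (by linarith) (by positivity)
          _ = 2 ^ (κ₁ / 4) * lx ^ (κ₁ / 4) := Real.mul_rpow (by norm_num) hlx0.le
          _ ≤ 2 ^ (1 : ℝ) * lx ^ (κ₁ / 2) := by
              apply mul_le_mul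
              · exact Real.rpow_le_rpow_of_exponent_le (by norm_num) (by linarith)
              · exact Real.rpow_le_rpow_of_exponent_le hlxx1 (by linarith)
              · positivity
              · positivity
          _ = _ := by rw [Real.rpow_one]
      have hsq : lx ^ κ₁ = lx ^ (κ₁ / 2) * lx ^ (κ₁ / 2) := by
        rw [← Real.rpow_add hlx0]
        norm_num
      calc ((F.biUnion Bi).card : ℝ) ≤ ∑ i ∈ F, ((Bi i).card : ℝ) := by
            exact_mod_cast card_biUnion_le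
        _ ≤ ∑ _i ∈ F, X * Real.exp (-lx ^ κ₁) := sum_le_sum fun i hi => hBic i hi
        _ = F.card * (X * Real.exp (-lx ^ κ₁)) := by rw [sum_const, nsmul_eq_mul]
        _ ≤ Real.exp (ℓ ^ (κ₁ / 4)) * (X * Real.exp (-lx ^ κ₁)) := by gcongr
        _ = X * Real.exp (ℓ ^ (κ₁ / 4) + -lx ^ κ₁) := by
            rw [Real.exp_add]
            ring
        _ ≤ X * Real.exp (-lx ^ (κ₁ / 2)) := by
            refine mul_le_mul_of_nonneg_left (Real.exp_le_exp.2 ?_) hXp.le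
            rw [hsq]
            nlinarith
    · intro x hx hxB i hi s n hsn a b ha hab hb
      have hxBi : x ∉ Bi i := fun h => hxB (mem_biUnion.2 ⟨i, hi, h⟩)
      refine (hBi i hi x hx hxBi s n hsn a b ha hab hb).trans ?_
      refine mul_le_mul_of_nonneg_left ?_ (Real.sqrt_nonneg _)
      rw [← hlx, ← hℓ]
      calc lx ^ (ε / 2) ≤ ℓ ^ (ε / 2) := Real.rpow_le_rpow hlx0.le hlx1 (by positivity)
        _ ≤ ℓ ^ ε := Real.rpow_le_rpow_of_exponent_le (by linarith) (by linarith))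
  exact ⟨B, hBc, hB⟩

end Pool.Agent.Q270.VS
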