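import Pool.Agent.Q270.VS.Tay

/-!
# Exponential sums with sums of real powers
-/

set_option autoImplicit false

namespace Pool.Agent.Q270.VS

open Finset Filter Topology
open Pool.Agent.Y933.KD (e)

lemma cmp {X x y Y : ℝ} (hX : 0 < X) (h1 : X ≤ x) (h2 : x ≤ 2 * X) (hy : |y| ≤ Y) :
    x ^ y ≤ X ^ y * 2 ^ Y ∧ X ^ y * 2 ^ (-Y) ≤ x ^ y := by
  have hx : x = X * (x / X) := by field_simp
  have hq1 : 1 ≤ x / X := by
    rw [le_div_iff₀ hX]
    linarith
  have hq2 : x / X ≤ 2 := by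
    rw [div_le_iff₀ hX]
    linarith
  have hxy : x ^ y = X ^ y * (x / X) ^ y := by
    conv_lhs => rw [hx, Real.mul_rpow hX.le (by linarith)]
  have h3 : (x / X) ^ Y ≤ 2 ^ Y :=
    Real.rpow_le_rpow (by linarith) hq2 ((abs_nonneg _).trans hy)
  rw [hxy]
  constructor
  · refine mul_le_mul_of_nonneg_left ?_ (by positivity)
    exact (Real.rpow_le_rpow_of_exponent_le hq1 ((le_abs_self _).trans hy)).trans h3
  · refine mul_le_mul_of_nonneg_left ?_ (by positivity)
    have h4 : (x / X) ^ (-Y) ≤ (x / X) ^ y :=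
      Real.rpow_le_rpow_of_exponent_le hq1 (by
        have := neg_abs_le y
        linarith)
    refine le_trans ?_ h4
    rw [Real.rpow_neg (by norm_num), Real.rpow_neg (by linarith)]
    exact inv_anti₀ (by positivity) h3

lemma lowb {p q E T : ℝ} (h1 : E ≤ |p|) (h2 : |q| ≤ T) (h3 : T ≤ E / 2) :
    E / 2 ≤ |q + p| := by
  have h4 := abs_sub_abs_le_abs_sub p (-q)
  rw [abs_neg, sub_neg_eq_add, add_comm] at h4
  linarith

lemma two_exp {y : ℝ} (hy : 0 ≤ y) : (2 : ℝ) ^ y ≤ Real.exp y := by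
  rw [Real.rpow_def_of_pos (by norm_num)]
  apply Real.exp_le_exp.2
  have := Real.log_two_lt_d9
  nlinarith

lemma two_exp' {y : ℝ} (hy : 0 ≤ y) : Real.exp (-y) ≤ (2 : ℝ) ^ (-y) := by
  rw [Real.rpow_neg (by norm_num), Real.exp_neg]
  exact inv_anti₀ (by positivity) (two_exp hy)

lemma pow_exp {R : ℝ} (hR : 0 ≤ R) (n : ℕ) : R ^ n ≤ Real.exp (n * R) := by
  rw [Real.exp_nat_mul]
  have := Real.add_one_le_exp R
  exact pow_le_pow_left₀ hR (by linarith) n

/-- the data of a sum of real powers -/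
structure Dat (X : ℕ) (R θ L S : ℝ) (K : ℕ) (c : ℕ → ℝ) : Prop where
  hXp : (0 : ℝ) < X
  hexpX : ∀ y : ℝ, (X : ℝ) ^ y = Real.exp (L * y)
  hR1 : 1 ≤ R
  hKR : (K : ℝ) + 1 ≤ R
  hθR : |θ| + 1 ≤ R
  hθk : ∀ k ≤ K, |θ - k| + 1 ≤ R
  hSp : 0 < S
  hS : S = |c 0| * (X : ℝ) ^ θ
  hck0 : ∀ k ≤ K, |c k| * (X : ℝ) ^ (θ - k) ≤ S
  hck1 : ∀ k ≤ K, 1 ≤ k → |c k| * (X : ℝ) ^ (θ - k) ≤ S * (X : ℝ) ^ (-(1 / 2) : ℝ)

variable {X : ℕ} {R θ L S : ℝ} {K : ℕ} {c : ℕ → ℝ}

/-- the coefficients of the Taylor expansion -/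
noncomputable def co (θ : ℝ) (K : ℕ) (c : ℕ → ℝ) (x j : ℕ) : ℝ :=
  ∑ k ∈ range (K + 1), c k * (bin (θ - k) j * (x : ℝ) ^ (θ - k - j))

/-- one term of the remainder -/
lemma rem_term (h : Dat X R θ L S K c) {κ : ℝ} (hκ0 : 0 < κ) (hκ16 : κ ≤ 1 / 16) {r : ℕ}
    (hrge : 4 * R ≤ κ * (r + 1)) (hL0 : 0 < L) {x t : ℕ} (hXx : (X : ℝ) ≤ x)
    (hx2X : (x : ℝ) ≤ 2 * X) (ht2 : (t : ℝ) ≤ (X : ℝ) ^ (1 - 2 * κ)) (htx : (t : ℝ) ≤ x)
    {k : ℕ} (hkK : k ≤ K) :
    |c k * (((x : ℝ) + t) ^ (θ - k) - (x : ℝ) ^ (θ - k) -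
          ∑ j ∈ Icc 1 r, bin (θ - k) j * (x : ℝ) ^ (θ - k - j) * (t : ℝ) ^ j)| ≤
        S * (Real.exp (2 * R + r) * Real.exp ((r + 1 : ℕ) * R) *
          Real.exp (-(8 * R * L))) := by
  have hXp := h.hXp
  have hR0 : 0 < R := lt_of_lt_of_le one_pos h.hR1
  have hxp : (0 : ℝ) < x := by linarith
  have ht0 : (0 : ℝ) ≤ t := Nat.cast_nonneg t
  have h1 := rem_le' r (θ - k) hxp ht0 htx
  rw [abs_mul]
  have h2 : (t / x : ℝ) ^ (r + 1) ≤ Real.exp (-(8 * R * L)) := by
    have h3 : (t / x : ℝ) ≤ Real.exp (-(2 * κ * L)) := by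
      calc (t / x : ℝ) ≤ t / X := by gcongr
        _ ≤ (X : ℝ) ^ (1 - 2 * κ) / X := by gcongr
        _ = Real.exp (-(2 * κ * L)) := by
            rw [Real.rpow_sub hXp, Real.rpow_one, h.hexpX]
            rw [div_right_comm, div_self hXp.ne', one_div, ← Real.exp_neg]
            congr 1
            ring
    calc (t / x : ℝ) ^ (r + 1) ≤ Real.exp (-(2 * κ * L)) ^ (r + 1) := by gcongr
      _ = Real.exp (-(2 * κ * L * (r + 1))) := by
          rw [← Real.exp_nat_mul]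
          congr 1
          push_cast
          ring
      _ ≤ Real.exp (-(8 * R * L)) := by
          apply Real.exp_le_exp.2
          have h4 : 4 * R * L ≤ κ * (r + 1) * L := mul_le_mul_of_nonneg_right hrge hL0.le
          linarith
  have h3 : (x : ℝ) ^ (θ - k) ≤ (X : ℝ) ^ (θ - k) * 2 ^ R :=
    (cmp hXp hXx hx2X (by linarith [h.hθk k hkK])).1
  have h4 : (2 : ℝ) ^ R ≤ Real.exp R := two_exp hR0.le
  have h5 : (2 : ℝ) ^ (|θ - k| + r + 1) ≤ Real.exp (R + r) := by
    refine (two_exp (by positivity)).trans (Real.exp_le_exp.2 ?_)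
    linarith [h.hθk k hkK]
  have h6 : (|θ - k| + 1) ^ (r + 1) ≤ Real.exp ((r + 1 : ℕ) * R) := by
    refine le_trans ?_ (pow_exp hR0.le (r + 1))
    exact pow_le_pow_left₀ (by positivity) (h.hθk k hkK) _
  have h7 : (x : ℝ) ^ (θ - k) ≤ (X : ℝ) ^ (θ - k) * Real.exp R :=
    h3.trans (mul_le_mul_of_nonneg_left h4 (by positivity))
  calc |c k| * |((x : ℝ) + t) ^ (θ - k) - (x : ℝ) ^ (θ - k) -
      ∑ j ∈ Icc 1 r, bin (θ - k) j * (x : ℝ) ^ (θ - k - j) * (t : ℝ) ^ j| ≤
        |c k| * (2 ^ (|θ - k| + r + 1) * (|θ - k| + 1) ^ (r + 1) * (x : ℝ) ^ (θ - k) *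
          (t / x) ^ (r + 1)) := mul_le_mul_of_nonneg_left h1 (abs_nonneg _)
    _ ≤ |c k| * (Real.exp (R + r) * Real.exp ((r + 1 : ℕ) * R) *
          ((X : ℝ) ^ (θ - k) * Real.exp R) * Real.exp (-(8 * R * L))) := by
        gcongr
    _ = (|c k| * (X : ℝ) ^ (θ - k)) * ((Real.exp (R + r) * Real.exp R) *
          Real.exp ((r + 1 : ℕ) * R) * Real.exp (-(8 * R * L))) := by ring
    _ ≤ S * ((Real.exp (R + r) * Real.exp R) *
          Real.exp ((r + 1 : ℕ) * R) * Real.exp (-(8 * R * L))) :=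
        mul_le_mul_of_nonneg_right (h.hck0 k hkK) (by positivity)
    _ = _ := by
        rw [← Real.exp_add (R + r) R]
        congr 4
        ring

/-- the remainder -/
lemma rem_sum (h : Dat X R θ L S K c) {κ σ : ℝ} (hκ0 : 0 < κ) (hκ16 : κ ≤ 1 / 16) {r : ℕ}
    (hrge : 4 * R ≤ κ * (r + 1)) (hL0 : 0 < L) (hSR : S ≤ Real.exp (L * R))
    (hnum : R + (L * R + (2 * R + r + (r + 1) * R + -(8 * R * L))) ≤ -(2 * σ)) {x t : ℕ}
    (hXx : (X : ℝ) ≤ x) (hx2X : (x : ℝ) ≤ 2 * X) (ht2 : (t : ℝ) ≤ (X : ℝ) ^ (1 - 2 * κ))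
    (htx : (t : ℝ) ≤ x) :
    |(∑ k ∈ range (K + 1), c k * ((x + t : ℕ) : ℝ) ^ (θ - k)) -
        (∑ k ∈ range (K + 1), c k * (x : ℝ) ^ (θ - k)) -
          ∑ j ∈ Icc 1 r, co θ K c x j * (t : ℝ) ^ j| ≤ Real.exp (-(2 * σ)) := by
  have hSp := h.hSp
  have hsum : (∑ k ∈ range (K + 1), c k * ((x + t : ℕ) : ℝ) ^ (θ - k)) -
      (∑ k ∈ range (K + 1), c k * (x : ℝ) ^ (θ - k)) - ∑ j ∈ Icc 1 r, co θ K c x j * (t : ℝ) ^ j =
      ∑ k ∈ range (K + 1), c k * (((x : ℝ) + t) ^ (θ - k) - (x : ℝ) ^ (θ - k) -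
        ∑ j ∈ Icc 1 r, bin (θ - k) j * (x : ℝ) ^ (θ - k - j) * (t : ℝ) ^ j) := by
    unfold co
    simp only [sum_mul, mul_sub, sum_sub_distrib, mul_sum]
    rw [Finset.sum_comm (s := Icc 1 r)]
    push_cast
    congr 1
    refine sum_congr rfl fun k _ => sum_congr rfl fun j _ => ?_
    ring
  rw [hsum]
  calc |∑ k ∈ range (K + 1), c k * (((x : ℝ) + t) ^ (θ - k) - (x : ℝ) ^ (θ - k) -
        ∑ j ∈ Icc 1 r, bin (θ - k) j * (x : ℝ) ^ (θ - k - j) * (t : ℝ) ^ j)| ≤
        ∑ k ∈ range (K + 1), |c k * (((x : ℝ) + t) ^ (θ - k) - (x : ℝ) ^ (θ - k) -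
        ∑ j ∈ Icc 1 r, bin (θ - k) j * (x : ℝ) ^ (θ - k - j) * (t : ℝ) ^ j)| :=
        Finset.abs_sum_le_sum_abs _ _
    _ ≤ ∑ _k ∈ range (K + 1), S * (Real.exp (2 * R + r) * Real.exp ((r + 1 : ℕ) * R) *
        Real.exp (-(8 * R * L))) := by
        refine sum_le_sum fun k hk => ?_
        rw [mem_range] at hk
        exact rem_term h hκ0 hκ16 hrge hL0 hXx hx2X ht2 htx (by omega)
    _ = (K + 1) * (S * (Real.exp (2 * R + r) * Real.exp ((r + 1 : ℕ) * R) *
        Real.exp (-(8 * R * L)))) := by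
        rw [sum_const, card_range, nsmul_eq_mul]
        push_cast
        ring
    _ ≤ Real.exp R * (Real.exp (L * R) * (Real.exp (2 * R + r) * Real.exp ((r + 1 : ℕ) * R) *
        Real.exp (-(8 * R * L)))) := by
        have h8 : (K : ℝ) + 1 ≤ Real.exp R := by
          have := Real.add_one_le_exp R
          linarith [h.hKR]
        gcongr
    _ = Real.exp (R + (L * R + (2 * R + r + (r + 1 : ℕ) * R + -(8 * R * L)))) := by
        simp only [← Real.exp_add]
    _ ≤ Real.exp (-(2 * σ)) := by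
        apply Real.exp_le_exp.2
        push_cast
        exact hnum

/-- one term of a coefficient -/
lemma co_term (h : Dat X R θ L S K c) {D : ℕ} {x : ℕ} (hXx : (X : ℝ) ≤ x)
    (hx2X : (x : ℝ) ≤ 2 * X) {k : ℕ} (hk : k ≤ K) :
    |c k * (bin (θ - k) D * (x : ℝ) ^ (θ - k - D))| ≤
        (|c k| * (X : ℝ) ^ (θ - k)) * (Real.exp (D * R) * Real.exp (R + D) *
          Real.exp (-(D * L))) := by
  have hXp := h.hXp
  have hR0 : 0 < R := lt_of_lt_of_le one_pos h.hR1
  have hxp : (0 : ℝ) < x := by linarith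
  have hsize : (x : ℝ) ^ (θ - k - D) ≤ (X : ℝ) ^ (θ - k - D) * Real.exp (R + D) := by
    have h1 := (cmp (y := θ - k - D) (Y := R + D) hXp hXx hx2X (by
      have h2 := abs_sub (θ - k) (D : ℝ)
      rw [Nat.abs_cast] at h2
      linarith [h.hθk k hk])).1
    exact h1.trans (mul_le_mul_of_nonneg_left (two_exp (by positivity)) (by positivity))
  have hbk : |bin (θ - k) D| ≤ Real.exp (D * R) := by
    refine (bin_abs_le _ _).trans (le_trans ?_ (pow_exp hR0.le D))
    exact pow_le_pow_left₀ (by positivity) (h.hθk k hk) _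
  rw [abs_mul, abs_mul, abs_of_pos (Real.rpow_pos_of_pos hxp _)]
  calc |c k| * (|bin (θ - k) D| * (x : ℝ) ^ (θ - k - D)) ≤
        |c k| * (Real.exp (D * R) * ((X : ℝ) ^ (θ - k - D) * Real.exp (R + D))) := by
        gcongr
    _ = _ := by
        have h1 : (X : ℝ) ^ (θ - k - D) = (X : ℝ) ^ (θ - k) * Real.exp (-(D * L)) := by
          rw [h.hexpX, h.hexpX, ← Real.exp_add]
          congr 1
          ring
        rw [h1]
        ring

/-- the upper bound for a coefficient -/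
lemma co_upper (h : Dat X R θ L S K c) {D : ℕ} {x : ℕ} (hXx : (X : ℝ) ≤ x)
    (hx2X : (x : ℝ) ≤ 2 * X) :
    |co θ K c x D| ≤ Real.exp R * (S * (Real.exp (D * R) * Real.exp (R + D) *
          Real.exp (-(D * L)))) := by
  have hSp := h.hSp
  unfold co
  calc _ ≤ ∑ k ∈ range (K + 1), |c k * (bin (θ - k) D * (x : ℝ) ^ (θ - k - D))| :=
        Finset.abs_sum_le_sum_abs _ _
    _ ≤ ∑ _k ∈ range (K + 1), S * (Real.exp (D * R) * Real.exp (R + D) *
        Real.exp (-(D * L))) := by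
        refine sum_le_sum fun k hk => ?_
        rw [mem_range] at hk
        refine (co_term h hXx hx2X (by omega)).trans ?_
        exact mul_le_mul_of_nonneg_right (h.hck0 k (by omega)) (by positivity)
    _ = (K + 1) * (S * (Real.exp (D * R) * Real.exp (R + D) *
        Real.exp (-(D * L)))) := by
        rw [sum_const, card_range, nsmul_eq_mul]
        push_cast
        ring
    _ ≤ _ := by
        have : (K : ℝ) + 1 ≤ Real.exp R := by
          have := Real.add_one_le_exp R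
          linarith [h.hKR]
        gcongr

/-- the lower bound for a coefficient -/
lemma co_lower (h : Dat X R θ L S K c) {κ : ℝ} {D : ℕ} (hbin : Real.exp (-(κ * L)) ≤ |bin θ D|)
    (hnum : R + -(L / 2) + (D * R + (R + D)) + 1 ≤ -(κ * L) + -(R + D))
    {x : ℕ} (hXx : (X : ℝ) ≤ x) (hx2X : (x : ℝ) ≤ 2 * X) :
    S * Real.exp (-(κ * L)) * Real.exp (-(D * L)) * Real.exp (-(R + D)) / 2 ≤
      |co θ K c x D| := by
  have hSp := h.hSp
  have hXp := h.hXp
  have hR0 : 0 < R := lt_of_lt_of_le one_pos h.hR1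
  have hxp : (0 : ℝ) < x := by linarith
  have hmain : S * Real.exp (-(κ * L)) * Real.exp (-(D * L)) * Real.exp (-(R + D)) ≤
      |c 0 * (bin (θ - (0 : ℕ)) D * (x : ℝ) ^ (θ - (0 : ℕ) - D))| := by
    rw [Nat.cast_zero, sub_zero, abs_mul, abs_mul, abs_of_pos (Real.rpow_pos_of_pos hxp _)]
    have h2 := (cmp (y := θ - D) (Y := R + D) hXp hXx hx2X (by
      have h2 := abs_sub θ (D : ℝ)
      rw [Nat.abs_cast] at h2
      linarith [h.hθR])).2
    have h3 : Real.exp (-(R + D)) ≤ (2 : ℝ) ^ (-(R + D)) := two_exp' (by positivity)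
    have h4 : (X : ℝ) ^ (θ - D) = (X : ℝ) ^ θ * Real.exp (-(D * L)) := by
      rw [h.hexpX, h.hexpX, ← Real.exp_add]
      congr 1
      ring
    have h5 : (X : ℝ) ^ (θ - D) * Real.exp (-(R + D)) ≤ (x : ℝ) ^ (θ - D) :=
      le_trans (mul_le_mul_of_nonneg_left h3 (by positivity)) h2
    calc S * Real.exp (-(κ * L)) * Real.exp (-(D * L)) * Real.exp (-(R + D)) =
          |c 0| * (Real.exp (-(κ * L)) * ((X : ℝ) ^ (θ - D) * Real.exp (-(R + D)))) := by
          rw [h.hS, h4]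
          ring
      _ ≤ |c 0| * (|bin θ D| * (x : ℝ) ^ (θ - D)) := by
          gcongr
  have hrest : |∑ k ∈ range K, c (k + 1) * (bin (θ - ((k + 1 : ℕ) : ℝ)) D *
      (x : ℝ) ^ (θ - ((k + 1 : ℕ) : ℝ) - D))| ≤
      S * Real.exp (-(D * L)) * (Real.exp R * Real.exp (-(L / 2)) *
        (Real.exp (D * R) * Real.exp (R + D))) := by
    calc _ ≤ ∑ k ∈ range K, |c (k + 1) * (bin (θ - ((k + 1 : ℕ) : ℝ)) D *
          (x : ℝ) ^ (θ - ((k + 1 : ℕ) : ℝ) - D))| := Finset.abs_sum_le_sum_abs _ _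
      _ ≤ ∑ _k ∈ range K, (S * Real.exp (-(L / 2))) * (Real.exp (D * R) * Real.exp (R + D) *
          Real.exp (-(D * L))) := by
          refine sum_le_sum fun k hk => ?_
          rw [mem_range] at hk
          refine (co_term h hXx hx2X (by omega)).trans ?_
          refine mul_le_mul_of_nonneg_right ?_ (by positivity)
          refine (h.hck1 (k + 1) (by omega) (by omega)).trans (le_of_eq ?_)
          rw [h.hexpX]
          congr 2
          ring
      _ = K * ((S * Real.exp (-(L / 2))) * (Real.exp (D * R) * Real.exp (R + D) *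
          Real.exp (-(D * L)))) := by
          rw [sum_const, card_range, nsmul_eq_mul]
      _ ≤ Real.exp R * ((S * Real.exp (-(L / 2))) * (Real.exp (D * R) * Real.exp (R + D) *
          Real.exp (-(D * L)))) := by
          have : (K : ℝ) ≤ Real.exp R := by
            have := Real.add_one_le_exp R
            linarith [h.hKR]
          gcongr
      _ = _ := by ring
  have hhalf : S * Real.exp (-(D * L)) * (Real.exp R * Real.exp (-(L / 2)) *
        (Real.exp (D * R) * Real.exp (R + D))) ≤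
      S * Real.exp (-(κ * L)) * Real.exp (-(D * L)) * Real.exp (-(R + D)) / 2 := by
    have h1 : Real.exp R * Real.exp (-(L / 2)) * (Real.exp (D * R) * Real.exp (R + D)) ≤
        Real.exp (-(κ * L)) * Real.exp (-(R + D)) / 2 := by
      rw [le_div_iff₀ two_pos]
      have h2 : (2 : ℝ) ≤ Real.exp 1 := by
        have := Real.add_one_le_exp (1 : ℝ)
        linarith
      calc Real.exp R * Real.exp (-(L / 2)) * (Real.exp (D * R) * Real.exp (R + D)) * 2 ≤
            Real.exp R * Real.exp (-(L / 2)) * (Real.exp (D * R) * Real.exp (R + D)) *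
              Real.exp 1 := by gcongr
        _ = Real.exp (R + -(L / 2) + (D * R + (R + D)) + 1) := by
            simp only [← Real.exp_add]
        _ ≤ Real.exp (-(κ * L) + -(R + D)) := Real.exp_le_exp.2 hnum
        _ = _ := Real.exp_add _ _
    calc S * Real.exp (-(D * L)) * (Real.exp R * Real.exp (-(L / 2)) *
        (Real.exp (D * R) * Real.exp (R + D))) ≤
          S * Real.exp (-(D * L)) * (Real.exp (-(κ * L)) * Real.exp (-(R + D)) / 2) :=
          mul_le_mul_of_nonneg_left h1 (by positivity)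
      _ = _ := by ring
  have hsplit : co θ K c x D = ∑ k ∈ range K, c (k + 1) * (bin (θ - ((k + 1 : ℕ) : ℝ)) D *
      (x : ℝ) ^ (θ - ((k + 1 : ℕ) : ℝ) - D)) +
      c 0 * (bin (θ - (0 : ℕ)) D * (x : ℝ) ^ (θ - (0 : ℕ) - D)) := by
    unfold co
    rw [sum_range_succ']
  rw [hsplit]
  exact lowb hmain hrest hhalf

/-- **exponential sums with sums of real powers** -/
theorem es3 : ∃ K₁ : ℕ, 8 ≤ K₁ ∧ ∀ κ : ℝ, 0 < κ → κ ≤ 1 / 16 → ∃ X₀ : ℕ, ∀ X : ℕ, X₀ ≤ X →
    ∀ (R θ : ℝ) (K : ℕ) (c : ℕ → ℝ), 1 ≤ R → R ^ K₁ ≤ Real.log X → |θ| + K + 1 ≤ R →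
    c 0 ≠ 0 → (∀ k ≤ K, |c k| ≤ |c 0| * (X : ℝ) ^ (1 / 2 : ℝ)) →
    (X : ℝ) ^ (16 * κ) ≤ |c 0| * (X : ℝ) ^ θ → |c 0| * (X : ℝ) ^ θ ≤ (X : ℝ) ^ R →
    (∀ j : ℕ, (j : ℝ) ≤ 4 * R → (X : ℝ) ^ (-κ) ≤ |bin θ j|) →
    ∀ X₁ X₂ : ℕ, X ≤ X₁ → X₂ ≤ 2 * X →
    ‖∑ x ∈ Ioc X₁ X₂, e (∑ k ∈ range (K + 1), c k * (x : ℝ) ^ (θ - k))‖ ≤
      X * Real.exp (-√(Real.log X)) := by
  obtain ⟨K₀, hK₀, hes⟩ := es2
  refine ⟨2 * K₀ + 8, by omega, ?_⟩
  intro κ hκ0 hκ16
  obtain ⟨r0, X₀', hr01, hes⟩ := hes κ hκ0 hκ16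
  set Cκ : ℝ := 4 / κ + r0 + 2 with hCκ
  have hr0R : (1 : ℝ) ≤ r0 := by exact_mod_cast hr01
  have hCκ1 : 1 ≤ Cκ := by
    have : 0 < 4 / κ := by positivity
    linarith
  have hlog : Tendsto (fun B : ℕ => √(Real.log (B : ℝ))) atTop atTop :=
    Real.tendsto_sqrt_atTop.comp (Real.tendsto_log_atTop.comp tendsto_natCast_atTop_atTop)
  obtain ⟨X₁', hX₁'⟩ := eventually_atTop.1
    (hlog.eventually_ge_atTop (64 + 6 / κ + 2 * Cκ + Cκ ^ K₀))
  refine ⟨max (max X₀' X₁') 2, ?_⟩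
  intro X hX R θ K c hR1 hRL hθK hc0 hck hS1 hS2 hbin X₁ X₂ hX1 hX2
  have hXX0 : X₀' ≤ X := le_of_max_le_left (le_of_max_le_left hX)
  have hσlarge := hX₁' X (le_of_max_le_right (le_of_max_le_left hX))
  have hX2' : 2 ≤ X := le_of_max_le_right hX
  have hXp : (0 : ℝ) < X := by
    have : 0 < X := by omega
    exact_mod_cast this
  have hX1R : (1 : ℝ) ≤ X := by
    have : 1 ≤ X := by omega
    exact_mod_cast this
  obtain ⟨L, hL⟩ : ∃ L : ℝ, L = Real.log (X : ℝ) := ⟨_, rfl⟩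
  obtain ⟨σ, hσ⟩ : ∃ σ : ℝ, σ = √L := ⟨_, rfl⟩
  rw [← hL] at hσlarge hRL
  rw [← hσ] at hσlarge
  have hCpow : 0 ≤ Cκ ^ K₀ := by positivity
  have h6κ : 0 ≤ 6 / κ := by positivity
  have hσ64 : 64 ≤ σ := by linarith
  have hσκ : 6 / κ ≤ σ := by linarith
  have hσC : 2 * Cκ ≤ σ := by linarith
  have hσCK : Cκ ^ K₀ ≤ σ := by linarith
  have hL0 : 0 < L := by
    by_contra hcon
    push Not at hcon
    rw [hσ, Real.sqrt_eq_zero_of_nonpos hcon] at hσ64
    norm_num at hσ64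
  have hσσ : σ * σ = L := by rw [hσ]; exact Real.mul_self_sqrt hL0.le
  have hR0 : (0 : ℝ) < R := by linarith
  have hR4 : R ^ 4 ≤ σ := by
    rw [hσ]
    apply Real.le_sqrt_of_sq_le
    rw [← pow_mul]
    exact (pow_le_pow_right₀ hR1 (by omega)).trans hRL
  have hR2 : R ^ 2 ≤ σ := (pow_le_pow_right₀ hR1 (by norm_num)).trans hR4
  have hRσ : R ≤ σ := by
    calc R = R ^ 1 := (pow_one _).symm
      _ ≤ R ^ 2 := pow_le_pow_right₀ hR1 (by norm_num)
      _ ≤ σ := hR2
  have h6κ' : 6 ≤ κ * σ := by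
    rw [div_le_iff₀ hκ0] at hσκ
    linarith
  have hexpX : ∀ y : ℝ, (X : ℝ) ^ y = Real.exp (L * y) := fun y => by
    rw [Real.rpow_def_of_pos hXp, ← hL]
  -- the size
  obtain ⟨S, hS⟩ : ∃ S : ℝ, S = |c 0| * (X : ℝ) ^ θ := ⟨_, rfl⟩
  rw [← hS] at hS1 hS2
  have hSp : 0 < S := by
    have := abs_pos.2 hc0
    rw [hS]
    positivity
  obtain ⟨v, hv⟩ : ∃ v : ℝ, v = Real.log S / L := ⟨_, rfl⟩
  have hSv : S = Real.exp (L * v) := by
    rw [hv, mul_div_cancel₀ _ hL0.ne', Real.exp_log hSp]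
  have hv1 : 16 * κ ≤ v := by
    rw [hexpX, hSv, Real.exp_le_exp] at hS1
    exact le_of_mul_le_mul_left hS1 hL0
  have hv2 : v ≤ R := by
    rw [hexpX, hSv, Real.exp_le_exp] at hS2
    exact le_of_mul_le_mul_left hS2 hL0
  have hv0 : 0 < v := by linarith
  obtain ⟨D, hD⟩ : ∃ D : ℕ, D = ⌈2 * v⌉₊ + 1 := ⟨_, rfl⟩
  have hDge : 2 * v + 1 ≤ D := by
    rw [hD]
    push_cast
    have := Nat.le_ceil (2 * v)
    linarith
  have hDle : (D : ℝ) ≤ 2 * v + 2 := by
    rw [hD]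
    push_cast
    have := Nat.ceil_lt_add_one (show 0 ≤ 2 * v by linarith)
    linarith
  have hD4R : (D : ℝ) ≤ 4 * R := by linarith
  have hD0 : (0 : ℝ) ≤ D := Nat.cast_nonneg D
  obtain ⟨r, hr⟩ : ∃ r : ℕ, r = ⌈4 * R / κ⌉₊ + r0 := ⟨_, rfl⟩
  have hrge : 4 * R / κ ≤ r := by
    rw [hr]
    push_cast
    have := Nat.le_ceil (4 * R / κ)
    linarith
  have hrge' : 4 * R ≤ κ * (r + 1) := by
    rw [div_le_iff₀ hκ0] at hrge
    linarith
  have hrle : (r : ℝ) + 1 ≤ Cκ * R := by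
    have h1 : (r : ℝ) ≤ 4 * R / κ + 1 + r0 := by
      rw [hr]
      push_cast
      have := Nat.ceil_lt_add_one (show 0 ≤ 4 * R / κ by positivity)
      linarith
    have h2 : Cκ * R = 4 * R / κ + r0 * R + 2 * R := by
      rw [hCκ]
      field_simp
    rw [h2]
    have h3 : (r0 : ℝ) ≤ r0 * R := le_mul_of_one_le_right (by linarith) hR1
    linarith
  have hrr0 : r0 ≤ r := by omega
  have hDr : D ≤ r := by
    have h1 : (D : ℝ) ≤ r := by
      refine hD4R.trans (le_trans ?_ hrge)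
      rw [le_div_iff₀ hκ0]
      exact mul_le_of_le_one_right (by positivity) (by linarith)
    exact_mod_cast h1
  have hrK : (r : ℝ) ^ K₀ ≤ L := by
    calc (r : ℝ) ^ K₀ ≤ (Cκ * R) ^ K₀ := by
          have : (r : ℝ) ≤ Cκ * R := by linarith
          gcongr
      _ = Cκ ^ K₀ * R ^ K₀ := mul_pow _ _ _
      _ ≤ σ * σ := by
          have h1 : R ^ K₀ ≤ σ := by
            rw [hσ]
            apply Real.le_sqrt_of_sq_le
            rw [← pow_mul]
            exact (pow_le_pow_right₀ hR1 (by omega)).trans hRL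
          gcongr
      _ = L := hσσ
  have hK0 : (0 : ℝ) ≤ K := Nat.cast_nonneg K
  -- the data
  have hdat : Dat X R θ L S K c := by
    refine ⟨hXp, hexpX, hR1, ?_, by linarith, ?_, hSp, hS, ?_, ?_⟩
    · have := abs_nonneg θ
      linarith
    · intro k hk
      have h1 := abs_sub θ (k : ℝ)
      rw [Nat.abs_cast] at h1
      have h2 : (k : ℝ) ≤ K := by exact_mod_cast hk
      linarith
    · intro k hk
      rcases Nat.eq_zero_or_pos k with h0 | h0
      · subst h0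
        rw [Nat.cast_zero, sub_zero, hS]
      · have hk1 : (1 : ℝ) ≤ k := by exact_mod_cast h0
        calc |c k| * (X : ℝ) ^ (θ - k) ≤ |c 0| * (X : ℝ) ^ (1 / 2 : ℝ) * (X : ℝ) ^ (θ - k) := by
              gcongr
              exact hck k hk
          _ = S * (X : ℝ) ^ (1 / 2 - k : ℝ) := by
              rw [hS, mul_assoc, mul_assoc, ← Real.rpow_add hXp, ← Real.rpow_add hXp]
              congr 2
              ring
          _ ≤ S * 1 := by
              refine mul_le_mul_of_nonneg_left ?_ hSp.le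
              exact Real.rpow_le_one_of_one_le_of_nonpos hX1R (by linarith)
          _ = S := mul_one _
    · intro k hk h0
      have hk1 : (1 : ℝ) ≤ k := by exact_mod_cast h0
      calc |c k| * (X : ℝ) ^ (θ - k) ≤ |c 0| * (X : ℝ) ^ (1 / 2 : ℝ) * (X : ℝ) ^ (θ - k) := by
            gcongr
            exact hck k hk
        _ = S * (X : ℝ) ^ (1 / 2 - k : ℝ) := by
            rw [hS, mul_assoc, mul_assoc, ← Real.rpow_add hXp, ← Real.rpow_add hXp]
            congr 2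
            ring
        _ ≤ S * (X : ℝ) ^ (-(1 / 2) : ℝ) := by
            refine mul_le_mul_of_nonneg_left ?_ hSp.le
            exact Real.rpow_le_rpow_of_exponent_le hX1R (by linarith)
  have hSR : S ≤ Real.exp (L * R) := by
    rw [hSv]
    apply Real.exp_le_exp.2
    exact mul_le_mul_of_nonneg_left hv2 hL0.le
  have hR2R : R ≤ R ^ 2 := by
    rw [sq]
    exact le_mul_of_one_le_left hR0.le hR1
  have hR21 : 1 ≤ R ^ 2 := hR1.trans hR2R
  have h64R : 64 * R ^ 2 ≤ L := by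
    rw [← hσσ]
    exact mul_le_mul hσ64 hR2 (by positivity) (by linarith)
  have hDR : (D : ℝ) * R ≤ 4 * R ^ 2 := by
    rw [sq, ← mul_assoc]
    exact mul_le_mul_of_nonneg_right hD4R hR0.le
  have hLRL : L ≤ R * L := le_mul_of_one_le_left hL0.le hR1
  -- the numerical inequality for the remainder
  have hnum1 : R + (L * R + (2 * R + r + (r + 1) * R + -(8 * R * L))) ≤ -(2 * σ) := by
    have h9 : (r : ℝ) + (r + 1) * R ≤ 2 * (Cκ * R ^ 2) := by
      have hr0' : (0 : ℝ) ≤ r := Nat.cast_nonneg r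
      have h10 : (r : ℝ) ≤ (r + 1) * R := by
        have := le_mul_of_one_le_right (show (0 : ℝ) ≤ r + 1 by positivity) hR1
        linarith
      have h11 : ((r : ℝ) + 1) * R ≤ Cκ * R * R := mul_le_mul_of_nonneg_right hrle hR0.le
      have h12 : Cκ * R * R = Cκ * R ^ 2 := by ring
      linarith
    have h12 : 2 * (Cκ * R ^ 2) ≤ R * L := by
      have h13 : 2 * Cκ * R ≤ L := by
        rw [← hσσ]
        exact mul_le_mul hσC hRσ hR0.le (by linarith)
      have h14 := mul_le_mul_of_nonneg_left h13 hR0.le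
      have h15 : R * (2 * Cκ * R) = 2 * (Cκ * R ^ 2) := by ring
      linarith
    have h14 : 3 * R ≤ R * L := by linarith
    have h15 : 2 * σ ≤ R * L := by
      have h16 : 64 * σ ≤ L := by
        rw [← hσσ]
        exact mul_le_mul_of_nonneg_right hσ64 (by linarith)
      linarith
    have h16 : L * R = R * L := mul_comm _ _
    have h17 : 8 * R * L = 8 * (R * L) := by ring
    linarith
  refine (hes X hXX0 r D hrr0 (hL ▸ hrK) (by omega) hDr
    (fun x => ∑ k ∈ range (K + 1), c k * (x : ℝ) ^ (θ - k)) (co θ K c) X₁ X₂ (by omega) ?_ ?_)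
  · -- the remainder
    intro x hx t ht1 ht2
    rw [mem_Ioc] at hx
    have hXx : (X : ℝ) ≤ x := by
      have : X ≤ x := by omega
      exact_mod_cast this
    have hx2X : (x : ℝ) ≤ 2 * X := by
      have : x ≤ 2 * X := by omega
      exact_mod_cast this
    have htX : (t : ℝ) ≤ X := by
      refine ht2.trans ?_
      calc (X : ℝ) ^ (1 - 2 * κ) ≤ (X : ℝ) ^ (1 : ℝ) :=
            Real.rpow_le_rpow_of_exponent_le hX1R (by linarith)
        _ = X := Real.rpow_one _
    rw [← hL, ← hσ]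
    exact rem_sum hdat hκ0 hκ16 hrge' hL0 hSR hnum1 hXx hx2X ht2 (htX.trans hXx)
  · -- the main coefficient
    intro x hx
    rw [mem_Ioc] at hx
    have hXx : (X : ℝ) ≤ x := by
      have : X ≤ x := by omega
      exact_mod_cast this
    have hx2X : (x : ℝ) ≤ 2 * X := by
      have : x ≤ 2 * X := by omega
      exact_mod_cast this
    constructor
    · have hb := hbin D hD4R
      rw [hexpX] at hb
      have hb' : Real.exp (-(κ * L)) ≤ |bin θ D| := by
        refine le_trans (le_of_eq ?_) hb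
        congr 1
        ring
      have hκL : κ * L ≤ L / 16 := by
        have := mul_le_mul_of_nonneg_right hκ16 hL0.le
        linarith
      have h1 := co_lower hdat hb' (by linarith) hXx hx2X
      refine le_trans ?_ h1
      rw [hexpX, hSv, le_div_iff₀ two_pos]
      have h2 : (2 : ℝ) ≤ Real.exp 1 := by
        have := Real.add_one_le_exp (1 : ℝ)
        linarith
      calc Real.exp (L * (-(D : ℝ) + 2 * κ * D + 2 * κ)) * 2 ≤
            Real.exp (L * (-(D : ℝ) + 2 * κ * D + 2 * κ)) * Real.exp 1 := by gcongr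
        _ = Real.exp (L * (-(D : ℝ) + 2 * κ * D + 2 * κ) + 1) := by rw [← Real.exp_add]
        _ ≤ Real.exp (L * v + -(κ * L) + -(D * L) + -(R + D)) := by
            apply Real.exp_le_exp.2
            have h3 : R + D + 1 ≤ 5 * κ * L := by
              have h4 : R + D + 1 ≤ 6 * σ := by linarith
              have h5 : 6 * σ ≤ κ * L := by
                rw [← hσσ, ← mul_assoc]
                exact mul_le_mul_of_nonneg_right h6κ' (by linarith)
              have h6 : 0 < κ * L := by positivity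
              linarith
            have h6 : 2 * κ * D + 2 * κ ≤ 4 * κ * v + 6 * κ := by
              have := mul_le_mul_of_nonneg_left hDle (show 0 ≤ 2 * κ by linarith)
              linarith
            have h7 : 4 * κ * v ≤ v / 4 := by
              have := mul_le_mul_of_nonneg_right hκ16 hv0.le
              linarith
            have h8 : 2 * κ * D + 2 * κ + κ + 5 * κ ≤ v := by linarith
            have h9 := mul_le_mul_of_nonneg_left h8 hL0.le
            linarith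
        _ = _ := by rw [Real.exp_add, Real.exp_add, Real.exp_add]
    · refine (co_upper hdat hXx hx2X).trans ?_
      rw [hexpX, hSv]
      calc Real.exp R * (Real.exp (L * v) * (Real.exp (D * R) * Real.exp (R + D) *
          Real.exp (-(D * L)))) = Real.exp (R + (L * v + (D * R + (R + D) + -(D * L)))) := by
            simp only [← Real.exp_add]
        _ ≤ Real.exp (L * (-(D : ℝ) / 2)) := by
            apply Real.exp_le_exp.2
            have h3 : L * (v + 1 / 2) ≤ L * ((D : ℝ) / 2) :=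
              mul_le_mul_of_nonneg_left (by linarith) hL0.le
            have h4 : L * (-(D : ℝ) / 2) = L * ((D : ℝ) / 2) - D * L := by ring
            rw [h4]
            linarith

end Pool.Agent.Q270.VS
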