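import Pool.Agent.Q270.VS.Vl

/-!
# Exponential sums over all bases up to `N`
-/

set_option autoImplicit false

namespace Pool.Agent.Q270.VS

open Finset Filter Topology
open Pool.Agent.Y933.KD (e)

lemma pow_clog_le {m : ℕ} (hm : 1 ≤ m) : 2 ^ Nat.clog 2 m ≤ 2 * m := by
  rcases Nat.eq_or_lt_of_le hm with h | h
  · rw [← h]
    simp
  · have h1 := Nat.pow_pred_clog_lt_self (b := 2) (by norm_num) h
    have h2 : 0 < Nat.clog 2 m := Nat.clog_pos (by norm_num) (by omega)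
    have h3 : 2 ^ Nat.clog 2 m = 2 * 2 ^ (Nat.clog 2 m).pred := by
      rw [← pow_succ']
      congr 1
      rw [Nat.pred_eq_sub_one]
      omega
    rw [h3]
    omega

/-- sums over `[1, N]` from sums over dyadic blocks -/
lemma sum_blocks {f : ℕ → ℂ} (hf : ∀ x, ‖f x‖ ≤ 1) {N : ℕ} (hN : 1 ≤ N) {Y η : ℝ} (hY : 1 ≤ Y)
    (hη : 0 ≤ η) (h : ∀ i : ℕ, Y ≤ 2 ^ i → 2 ^ i ≤ N → ∀ X₂ ≤ 2 * 2 ^ i,
      ‖∑ x ∈ Ioc (2 ^ i) X₂, f x‖ ≤ ((2 ^ i : ℕ) : ℝ) * η) :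
    ‖∑ x ∈ Icc 1 N, f x‖ ≤ 4 * Y + 2 * N * η := by
  classical
  have hcard : ∀ a b : ℕ, ‖∑ x ∈ Icc a b, f x‖ ≤ ((b + 1 - a : ℕ) : ℝ) := by
    intro a b
    calc ‖∑ x ∈ Icc a b, f x‖ ≤ ∑ x ∈ Icc a b, ‖f x‖ := norm_sum_le _ _
      _ ≤ ∑ _x ∈ Icc a b, (1 : ℝ) := sum_le_sum fun x _ => hf x
      _ = _ := by rw [sum_const, Nat.card_Icc, nsmul_eq_mul, mul_one]
  -- sums over `Ioc (2 ^ a) M`
  have key : ∀ (n a : ℕ), Y ≤ 2 ^ a → ∀ M ≤ 2 ^ (a + n), M ≤ N →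
      ‖∑ x ∈ Ioc (2 ^ a) M, f x‖ ≤ 2 ^ (a + n) * η := by
    intro n
    induction n with
    | zero =>
      intro a ha M hM _
      rw [add_zero] at hM
      rw [Ioc_eq_empty (by omega), sum_empty, norm_zero]
      positivity
    | succ n ih =>
      intro a ha M hM hMN
      have hpw : (2 : ℝ) ^ (a + (n + 1)) = 2 * 2 ^ (a + n) := by
        rw [← pow_succ']
        congr 1
      have hpos : (0 : ℝ) ≤ 2 ^ (a + n) * η := by positivity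
      rcases le_total M (2 ^ (a + n)) with h1 | h1
      · have h4 := ih a ha M h1 hMN
        rw [hpw]
        linarith
      · have h2 : Ioc (2 ^ a) M = Ioc (2 ^ a) (2 ^ (a + n)) ∪ Ioc (2 ^ (a + n)) M := by
          rw [Ioc_union_Ioc_eq_Ioc (Nat.pow_le_pow_right (by norm_num) (by omega)) h1]
        have h3 : Disjoint (Ioc (2 ^ a) (2 ^ (a + n))) (Ioc (2 ^ (a + n)) M) := by
          rw [Finset.disjoint_left]
          intro x hx hx'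
          rw [mem_Ioc] at hx hx'
          omega
        rw [h2, sum_union h3]
        have h4 := ih a ha (2 ^ (a + n)) le_rfl (h1.trans hMN)
        have h5 := h (a + n) (ha.trans (pow_le_pow_right₀ (by norm_num) (by omega)))
          (h1.trans hMN) M (by
            rw [← pow_succ']
            rw [← add_assoc] at hM
            exact hM)
        push_cast at h5
        rw [hpw]
        refine (norm_add_le _ _).trans ?_
        linarith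
  obtain ⟨a, ha⟩ : ∃ a : ℕ, a = Nat.clog 2 ⌈Y⌉₊ := ⟨_, rfl⟩
  have ha1 : Y ≤ 2 ^ a := by
    calc Y ≤ (⌈Y⌉₊ : ℝ) := Nat.le_ceil _
      _ ≤ ((2 ^ a : ℕ) : ℝ) := by
          rw [ha]
          exact_mod_cast Nat.le_pow_clog (by norm_num) _
      _ = _ := by push_cast; ring
  have ha2 : (2 : ℝ) ^ a ≤ 4 * Y := by
    have h1 : 2 ^ a ≤ 2 * ⌈Y⌉₊ := by
      rw [ha]
      exact pow_clog_le (Nat.one_le_ceil_iff.2 (by linarith))
    have h2 : ((2 ^ a : ℕ) : ℝ) ≤ 2 * (⌈Y⌉₊ : ℝ) := by exact_mod_cast h1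
    have h3 := Nat.ceil_lt_add_one (show 0 ≤ Y by linarith)
    push_cast at h2
    linarith
  have hnn : 0 ≤ 2 * (N : ℝ) * η := by positivity
  rcases le_total N (2 ^ a) with h1 | h1
  · have h2 := hcard 1 N
    have h3 : ((N + 1 - 1 : ℕ) : ℝ) ≤ 2 ^ a := by
      rw [Nat.add_sub_cancel]
      exact_mod_cast h1
    linarith
  · obtain ⟨L, hL⟩ : ∃ L : ℕ, L = Nat.clog 2 N := ⟨_, rfl⟩
    have hL1 : N ≤ 2 ^ L := by rw [hL]; exact Nat.le_pow_clog (by norm_num) _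
    have hL2 : 2 ^ L ≤ 2 * N := by rw [hL]; exact pow_clog_le hN
    have haL : a ≤ L := by
      by_contra hcon
      push Not at hcon
      have h2 : 2 ^ (L + 1) ≤ 2 ^ a := Nat.pow_le_pow_right (by norm_num) hcon
      rw [pow_succ] at h2
      omega
    have h2 : Icc 1 N = Icc 1 (2 ^ a) ∪ Ioc (2 ^ a) N := by
      ext x
      have : 1 ≤ 2 ^ a := Nat.one_le_two_pow
      simp only [mem_union, mem_Icc, mem_Ioc]
      omega
    have h3 : Disjoint (Icc 1 (2 ^ a)) (Ioc (2 ^ a) N) := by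
      rw [Finset.disjoint_left]
      intro x hx hx'
      rw [mem_Icc] at hx
      rw [mem_Ioc] at hx'
      omega
    rw [h2, sum_union h3]
    have h4 := hcard 1 (2 ^ a)
    rw [Nat.add_sub_cancel] at h4
    push_cast at h4
    have h5 := key (L - a) a ha1 N (by
      rw [Nat.add_sub_cancel' haL]
      exact hL1) le_rfl
    rw [Nat.add_sub_cancel' haL] at h5
    have h6 : (2 : ℝ) ^ L * η ≤ 2 * N * η := by
      refine mul_le_mul_of_nonneg_right ?_ hη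
      exact_mod_cast hL2
    refine (norm_add_le _ _).trans ?_
    linarith

/-- **exponential sums with inverse powers, over all `x ≤ N`** -/
theorem es4 : ∃ δ : ℝ, 0 < δ ∧ δ ≤ 1 / 16 ∧ ∀ ε : ℝ, 0 < ε → ∀ᶠ N : ℕ in atTop,
    ∀ (k₀ K : ℕ) (c : ℕ → ℝ), ((k₀ + K : ℕ) : ℝ) ≤ (Real.log N) ^ (2 * δ) → 1 ≤ k₀ →
      c 0 ≠ 0 → (∀ k ≤ K, |c k| ≤ |c 0| * (N : ℝ) ^ (1 / 4 : ℝ)) →
      (N : ℝ) ^ ((k₀ : ℝ) + ε) ≤ |c 0| → |c 0| ≤ Real.exp ((Real.log N) ^ (1 + 2 * δ)) →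
      ‖∑ x ∈ Icc 1 N, e (∑ k ∈ range (K + 1), c k * (x : ℝ) ^ (-(k₀ : ℝ) - k))‖ ≤
        N * Real.exp (-(Real.log N) ^ (1 / 3 : ℝ)) := by
  obtain ⟨K₁, hK₁, hes⟩ := es3
  have hK8 : (8 : ℝ) ≤ K₁ := by exact_mod_cast hK₁
  have hKp : (0 : ℝ) < K₁ := by linarith
  obtain ⟨δ, hδ⟩ : ∃ δ : ℝ, δ = 1 / (4 * K₁) := ⟨_, rfl⟩
  have hδ0 : 0 < δ := by rw [hδ]; positivity
  have hδ4 : 4 * δ = 1 / K₁ := by rw [hδ]; field_simp
  have hK8' : (1 : ℝ) / K₁ ≤ 1 / 8 := one_div_le_one_div_of_le (by norm_num) hK8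
  refine ⟨δ, hδ0, by linarith, ?_⟩
  intro ε hε
  obtain ⟨κ₀, hκ₀⟩ : ∃ κ₀ : ℝ, κ₀ = min (1 / 16) (ε / 16) := ⟨_, rfl⟩
  have hκ₀0 : 0 < κ₀ := by rw [hκ₀]; exact lt_min (by norm_num) (by positivity)
  have hκ₀1 : κ₀ ≤ 1 / 16 := by rw [hκ₀]; exact min_le_left _ _
  have hκ₀2 : κ₀ ≤ ε / 16 := by rw [hκ₀]; exact min_le_right _ _
  obtain ⟨X₀, hes⟩ := hes κ₀ hκ₀0 hκ₀1
  have hlog : Tendsto (fun X : ℕ => Real.log (X : ℝ)) atTop atTop :=
    Real.tendsto_log_atTop.comp tendsto_natCast_atTop_atTop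
  have hNη : Tendsto (fun N : ℕ => (N : ℝ) ^ (1 / 2 : ℝ)) atTop atTop :=
    (tendsto_rpow_atTop (by norm_num)).comp tendsto_natCast_atTop_atTop
  -- the size conditions
  have e1 : ∀ᶠ N : ℕ in atTop, (4 : ℝ) ≤ (Real.log N) ^ (2 * δ) :=
    hlog.eventually ((tendsto_rpow_atTop (by positivity)).eventually_ge_atTop _)
  have e2 : ∀ᶠ N : ℕ in atTop, (128 : ℝ) / κ₀ ≤ (Real.log N) ^ (1 / 2 : ℝ) :=
    hlog.eventually ((tendsto_rpow_atTop (by norm_num)).eventually_ge_atTop _)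
  have e3 : ∀ᶠ N : ℕ in atTop, (4 : ℝ) ≤ (Real.log N) ^ (1 / 6 : ℝ) :=
    hlog.eventually ((tendsto_rpow_atTop (by norm_num)).eventually_ge_atTop _)
  filter_upwards [e1, e2, e3, hNη.eventually_ge_atTop (X₀ : ℝ), hlog.eventually_ge_atTop 64,
    eventually_ge_atTop 2] with N h1 h2 h3 h4 h5 h6
  intro k₀ K c hkK hk₀ hc0 hck hlow hup
  have hN1 : (1 : ℝ) ≤ N := by exact_mod_cast (by omega : 1 ≤ N)
  have hNp : (0 : ℝ) < N := by linarith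
  obtain ⟨ℓ, hℓ⟩ : ∃ ℓ : ℝ, ℓ = Real.log N := ⟨_, rfl⟩
  rw [← hℓ] at h1 h2 h3 h5 hkK hup ⊢
  have hℓ0 : 0 < ℓ := by linarith
  have hNexp : (N : ℝ) = Real.exp ℓ := by rw [hℓ, Real.exp_log hNp]
  -- the final bound
  have h13 : (2 : ℝ) ≤ ℓ ^ (1 / 3 : ℝ) := by
    have h7 : (64 : ℝ) ^ (1 / 3 : ℝ) ≤ ℓ ^ (1 / 3 : ℝ) :=
      Real.rpow_le_rpow (by norm_num) h5 (by norm_num)
    have h8 : (64 : ℝ) ^ (1 / 3 : ℝ) = 4 := by
      have : (64 : ℝ) = 4 ^ (3 : ℝ) := by norm_num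
      rw [this, ← Real.rpow_mul (by norm_num)]
      norm_num
    linarith
  have hsq : ℓ ^ (1 / 3 : ℝ) + 2 ≤ √(ℓ / 2) := by
    have h7 : ℓ ^ (1 / 2 : ℝ) / 2 ≤ √(ℓ / 2) := by
      rw [Real.sqrt_eq_rpow, Real.div_rpow hℓ0.le (by norm_num)]
      apply div_le_div_of_nonneg_left (by positivity) (by positivity)
      calc (2 : ℝ) ^ (1 / 2 : ℝ) ≤ 2 ^ (1 : ℝ) :=
            Real.rpow_le_rpow_of_exponent_le (by norm_num) (by norm_num)
        _ = 2 := Real.rpow_one 2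
    have h8 : ℓ ^ (1 / 2 : ℝ) = ℓ ^ (1 / 3 : ℝ) * ℓ ^ (1 / 6 : ℝ) := by
      rw [← Real.rpow_add hℓ0]
      norm_num
    have h9 : ℓ ^ (1 / 3 : ℝ) * 4 ≤ ℓ ^ (1 / 3 : ℝ) * ℓ ^ (1 / 6 : ℝ) := by gcongr
    linarith
  have hfin : 4 * (N : ℝ) ^ (1 / 2 : ℝ) + 2 * N * Real.exp (-√(ℓ / 2)) ≤
      N * Real.exp (-ℓ ^ (1 / 3 : ℝ)) := by
    have h7 : (N : ℝ) ^ (1 / 2 : ℝ) ≤ N * Real.exp (-√(ℓ / 2)) := by
      rw [hNexp, ← Real.exp_mul, ← Real.exp_add]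
      apply Real.exp_le_exp.2
      have h8 : √(ℓ / 2) ≤ ℓ / 2 := by
        rw [Real.sqrt_le_left (by positivity)]
        nlinarith
      linarith
    have h8 : Real.exp (-√(ℓ / 2)) ≤ Real.exp (-ℓ ^ (1 / 3 : ℝ)) * Real.exp (-2) := by
      rw [← Real.exp_add]
      apply Real.exp_le_exp.2
      linarith
    have h9 : 6 * Real.exp (-2) ≤ 1 := by
      have h10 : (6 : ℝ) ≤ Real.exp 2 := by
        have h11 := Real.exp_one_gt_d9
        have h12 : Real.exp 2 = Real.exp 1 * Real.exp 1 := by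
          rw [← Real.exp_add]
          norm_num
        rw [h12]
        nlinarith
      rw [Real.exp_neg]
      rw [← div_eq_mul_inv, div_le_one (Real.exp_pos _)]
      exact h10
    have h10 : 0 ≤ (N : ℝ) * Real.exp (-ℓ ^ (1 / 3 : ℝ)) := by positivity
    calc 4 * (N : ℝ) ^ (1 / 2 : ℝ) + 2 * N * Real.exp (-√(ℓ / 2)) ≤
        6 * (N * Real.exp (-√(ℓ / 2))) := by linarith
      _ ≤ 6 * (N * (Real.exp (-ℓ ^ (1 / 3 : ℝ)) * Real.exp (-2))) := by gcongr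
      _ = (N * Real.exp (-ℓ ^ (1 / 3 : ℝ))) * (6 * Real.exp (-2)) := by ring
      _ ≤ (N * Real.exp (-ℓ ^ (1 / 3 : ℝ))) * 1 := by gcongr
      _ = _ := mul_one _
  refine (sum_blocks (f := fun x : ℕ => e (∑ k ∈ range (K + 1), c k * (x : ℝ) ^ (-(k₀ : ℝ) - k)))
    (fun x => ?_) (by omega) (Real.one_le_rpow hN1 (by norm_num)) (Real.exp_pos (-√(ℓ / 2))).le
    ?_).trans hfin
  · rw [show ‖e (∑ k ∈ range (K + 1), c k * (x : ℝ) ^ (-(k₀ : ℝ) - k))‖ = 1 from by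
      unfold e
      rw [Complex.norm_exp]
      simp]
  intro i hi1 hi2 X₂ hX₂
  obtain ⟨X, hX⟩ : ∃ X : ℕ, X = 2 ^ i := ⟨_, rfl⟩
  have hXr : (2 : ℝ) ^ i = X := by rw [hX]; push_cast; rfl
  rw [hXr] at hi1
  rw [← hX] at hi2 hX₂ ⊢
  have hXX₀ : X₀ ≤ X := by
    have : (X₀ : ℝ) ≤ X := h4.trans hi1
    exact_mod_cast this
  have hY : (0 : ℝ) < (N : ℝ) ^ (1 / 2 : ℝ) := Real.rpow_pos_of_pos hNp _
  have hXp : (0 : ℝ) < X := hY.trans_le hi1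
  have hX1 : (1 : ℝ) ≤ X := by
    have : 1 ≤ X := by
      rw [hX]
      exact Nat.one_le_two_pow
    exact_mod_cast this
  have hXN : (X : ℝ) ≤ N := by exact_mod_cast hi2
  obtain ⟨lx, hlx⟩ : ∃ lx : ℝ, lx = Real.log X := ⟨_, rfl⟩
  have hlx1 : lx ≤ ℓ := by
    rw [hlx, hℓ]
    exact Real.log_le_log hXp hXN
  have hlx2 : ℓ / 2 ≤ lx := by
    calc ℓ / 2 = Real.log ((N : ℝ) ^ (1 / 2 : ℝ)) := by rw [Real.log_rpow hNp, hℓ]; ring
      _ ≤ _ := by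
          rw [hlx]
          exact Real.log_le_log hY hi1
  have hlx0 : 0 < lx := by linarith
  have hlxx1 : 1 ≤ lx := by linarith
  have hXexp : (X : ℝ) = Real.exp lx := by rw [hlx, Real.exp_log hXp]
  have hk₀r : (1 : ℝ) ≤ k₀ := by exact_mod_cast hk₀
  -- the parameter `R`
  obtain ⟨R, hR⟩ : ∃ R : ℝ, R = lx ^ (1 / K₁ : ℝ) := ⟨_, rfl⟩
  have hRK : R ^ K₁ ≤ Real.log X := by
    rw [← hlx, hR, ← Real.rpow_natCast, ← Real.rpow_mul hlx0.le]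
    have : (1 / K₁ : ℝ) * K₁ = 1 := by field_simp
    rw [this, Real.rpow_one]
  have hR1 : 1 ≤ R := by
    rw [hR]
    exact Real.one_le_rpow hlxx1 (by positivity)
  have hℓδ : ℓ ^ (4 * δ) = ℓ ^ (2 * δ) * ℓ ^ (2 * δ) := by
    rw [← Real.rpow_add hℓ0]
    congr 1
    ring
  have hRlow : ℓ ^ (4 * δ) / 2 ≤ R := by
    rw [hR, ← hδ4]
    have h7 : (ℓ / 2) ^ (4 * δ) ≤ lx ^ (4 * δ) :=
      Real.rpow_le_rpow (by positivity) hlx2 (by positivity)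
    refine le_trans ?_ h7
    rw [Real.div_rpow hℓ0.le (by norm_num)]
    apply div_le_div_of_nonneg_left (by positivity) (by positivity)
    calc (2 : ℝ) ^ (4 * δ) ≤ 2 ^ (1 : ℝ) :=
          Real.rpow_le_rpow_of_exponent_le (by norm_num) (by linarith)
      _ = 2 := Real.rpow_one 2
  have hsize : |(-(k₀ : ℝ))| + K + 1 ≤ R := by
    rw [abs_neg, Nat.abs_cast]
    push_cast at hkK
    have h7 : 4 * ℓ ^ (2 * δ) ≤ ℓ ^ (2 * δ) * ℓ ^ (2 * δ) := by gcongr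
    linarith
  have hXk : (0 : ℝ) < (X : ℝ) ^ (-(k₀ : ℝ)) := Real.rpow_pos_of_pos hXp _
  have hR8 : R ≤ lx ^ (1 / 8 : ℝ) := by
    rw [hR]
    exact Real.rpow_le_rpow_of_exponent_le hlxx1 hK8'
  have hbin : 4 * R * (4 * R - Real.log 1) ≤ κ₀ * lx := by
    rw [Real.log_one, sub_zero]
    have h7 : R * R ≤ lx ^ (1 / 2 : ℝ) := by
      calc R * R ≤ lx ^ (1 / 8 : ℝ) * lx ^ (1 / 8 : ℝ) := by gcongr
        _ = lx ^ (1 / 4 : ℝ) := by
            rw [← Real.rpow_add hlx0]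
            norm_num
        _ ≤ _ := Real.rpow_le_rpow_of_exponent_le hlxx1 (by norm_num)
    have h8 : lx = lx ^ (1 / 2 : ℝ) * lx ^ (1 / 2 : ℝ) := by
      rw [← Real.rpow_add hlx0]
      norm_num
    have h9 : ℓ ^ (1 / 2 : ℝ) / 2 ≤ lx ^ (1 / 2 : ℝ) := by
      have h10 : (ℓ / 2) ^ (1 / 2 : ℝ) ≤ lx ^ (1 / 2 : ℝ) :=
        Real.rpow_le_rpow (by positivity) hlx2 (by norm_num)
      refine le_trans ?_ h10
      rw [Real.div_rpow hℓ0.le (by norm_num)]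
      apply div_le_div_of_nonneg_left (by positivity) (by positivity)
      calc (2 : ℝ) ^ (1 / 2 : ℝ) ≤ 2 ^ (1 : ℝ) :=
            Real.rpow_le_rpow_of_exponent_le (by norm_num) (by norm_num)
        _ = 2 := Real.rpow_one 2
    have h10 : 64 ≤ κ₀ * lx ^ (1 / 2 : ℝ) := by
      rw [div_le_iff₀ hκ₀0] at h2
      nlinarith
    have h11 : 0 ≤ lx ^ (1 / 2 : ℝ) := by positivity
    calc 4 * R * (4 * R) = 16 * (R * R) := by ring
      _ ≤ 64 * lx ^ (1 / 2 : ℝ) := by linarith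
      _ ≤ (κ₀ * lx ^ (1 / 2 : ℝ)) * lx ^ (1 / 2 : ℝ) := by gcongr
      _ = κ₀ * (lx ^ (1 / 2 : ℝ) * lx ^ (1 / 2 : ℝ)) := by ring
      _ = κ₀ * lx := by rw [← h8]
  have h7 := hes X hXX₀ R (-(k₀ : ℝ)) K c hR1 hRK hsize hc0 (fun k hk => by
    refine (hck k hk).trans (mul_le_mul_of_nonneg_left ?_ (abs_nonneg _))
    calc (N : ℝ) ^ (1 / 4 : ℝ) = ((N : ℝ) ^ (1 / 2 : ℝ)) ^ (1 / 2 : ℝ) := by
          rw [← Real.rpow_mul hNp.le]
          norm_num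
      _ ≤ (X : ℝ) ^ (1 / 2 : ℝ) := Real.rpow_le_rpow hY.le hi1 (by norm_num)) (by
    have h8 : (X : ℝ) ^ ((k₀ : ℝ) + ε) ≤ |c 0| :=
      (Real.rpow_le_rpow hXp.le hXN (by positivity)).trans hlow
    calc (X : ℝ) ^ (16 * κ₀) ≤ (X : ℝ) ^ ε :=
          Real.rpow_le_rpow_of_exponent_le hX1 (by linarith)
      _ = (X : ℝ) ^ ((k₀ : ℝ) + ε) * (X : ℝ) ^ (-(k₀ : ℝ)) := by
          rw [← Real.rpow_add hXp]
          congr 1
          ring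
      _ ≤ _ := by gcongr) (by
    have h8 : (X : ℝ) ^ (-(k₀ : ℝ)) ≤ 1 :=
      Real.rpow_le_one_of_one_le_of_nonpos hX1 (by linarith)
    calc |c 0| * (X : ℝ) ^ (-(k₀ : ℝ)) ≤ |c 0| * 1 := by gcongr
      _ = |c 0| := mul_one _
      _ ≤ Real.exp (ℓ ^ (1 + 2 * δ)) := hup
      _ ≤ Real.exp (lx * R) := by
          apply Real.exp_le_exp.2
          have h9 : ℓ ^ (1 + 2 * δ) = ℓ * ℓ ^ (2 * δ) := by
            rw [Real.rpow_add hℓ0, Real.rpow_one]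
          rw [h9]
          have h10 : 4 * ℓ ^ (2 * δ) ≤ ℓ ^ (2 * δ) * ℓ ^ (2 * δ) := by gcongr
          have h11 : 2 * ℓ ^ (2 * δ) ≤ R := by linarith
          calc ℓ * ℓ ^ (2 * δ) = (ℓ / 2) * (2 * ℓ ^ (2 * δ)) := by ring
            _ ≤ lx * R := by
                apply mul_le_mul hlx2 h11 (by positivity) hlx0.le
      _ = (X : ℝ) ^ R := by rw [hXexp, ← Real.exp_mul]) (fun j hj => by
    refine le_trans ?_ (bin_lower (d := 1) one_pos le_rfl (fun i => ?_) hj)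
    · rw [hXexp, ← Real.exp_mul]
      apply Real.exp_le_exp.2
      linarith
    · have h8 : -(k₀ : ℝ) - i = -((k₀ : ℝ) + i) := by ring
      rw [h8, abs_neg, abs_of_nonneg (by positivity)]
      have : (0 : ℝ) ≤ i := Nat.cast_nonneg i
      linarith) X X₂ le_rfl hX₂
  refine h7.trans ?_
  refine mul_le_mul_of_nonneg_left (Real.exp_le_exp.2 ?_) hXp.le
  have h8 := Real.sqrt_le_sqrt hlx2
  rw [← hlx]
  linarith

end Pool.Agent.Q270.VS
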