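import Pool.Agent.Q270.VB.Ho

/-!
# Moments of sums of nearly independent variables
-/

set_option autoImplicit false

namespace Pool.Agent.Q270.VS

open Finset Filter Topology
open Pool.Agent.Q270.VB (mgf)

variable {ι : Type*} {N q : ℕ} [NeZero q]

/-- the cells are `m`-wise nearly independent -/
def Near (Ω : Finset ι) (c : ι → Fin N → Fin q) (m : ℕ) (E : ℝ) : Prop :=
  ∀ P : Finset (Fin N), P.card ≤ m → ∀ w : Fin N → Fin q,
    |((Ω.filter (fun x => ∀ n ∈ P, c x n = w n)).card : ℝ) - Ω.card / (q : ℝ) ^ P.card| ≤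
      Ω.card * E

/-- the words on `P` -/
noncomputable def wd (P : Finset (Fin N)) : Finset (Fin N → Fin q) :=
  Fintype.piFinset (fun n => if n ∈ P then univ else {0})

lemma card_wd (P : Finset (Fin N)) : (wd (q := q) P).card = q ^ P.card := by
  unfold wd
  rw [Fintype.card_piFinset]
  have h1 : ∀ n, (if n ∈ P then (univ : Finset (Fin q)) else {0}).card =
      if n ∈ P then q else 1 := by
    intro n
    split_ifs <;> simp
  simp only [h1]
  rw [Finset.prod_ite_mem, univ_inter, prod_const]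

/-- the value in the model -/
noncomputable def val {m : ℕ} (g : Fin N → Fin q → ℝ) (t : Fin m → Fin N) : ℝ :=
  (∑ w ∈ wd (univ.image t), ∏ i, g (t i) (w (t i))) / (q : ℝ) ^ (univ.image t).card

/-- one product -/
lemma prod_close {Ω : Finset ι} {c : ι → Fin N → Fin q} {m : ℕ} {E : ℝ} (h : Near Ω c m E)
    (hE : 0 ≤ E) {g : Fin N → Fin q → ℝ} (hg : ∀ n v, |g n v| ≤ 1) (t : Fin m → Fin N) :
    |∑ x ∈ Ω, ∏ i, g (t i) (c x (t i)) - Ω.card * val g t| ≤ Ω.card * ((q : ℝ) ^ m * E) := by
  classical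
  have hq1 : (1 : ℝ) ≤ q := by exact_mod_cast Nat.pos_of_ne_zero (NeZero.ne q)
  have hq0 : (0 : ℝ) < q := by linarith
  set P := univ.image t with hP
  have hPm : P.card ≤ m := by
    rw [hP]
    refine card_image_le.trans ?_
    simp
  set φ : ι → Fin N → Fin q := fun x n => if n ∈ P then c x n else 0 with hφ
  have hφw : ∀ x ∈ Ω, φ x ∈ wd (q := q) P := by
    intro x _
    unfold wd
    rw [Fintype.mem_piFinset]
    intro n
    rw [hφ]
    simp only
    split_ifs <;> simp
  have h1 : ∑ x ∈ Ω, ∏ i, g (t i) (c x (t i)) =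
      ∑ w ∈ wd (q := q) P, ((Ω.filter (fun x => ∀ n ∈ P, c x n = w n)).card : ℝ) *
        ∏ i, g (t i) (w (t i)) := by
    rw [← Finset.sum_fiberwise_of_maps_to hφw]
    refine sum_congr rfl fun w hw => ?_
    have h2 : Ω.filter (fun x => φ x = w) = Ω.filter (fun x => ∀ n ∈ P, c x n = w n) := by
      refine Finset.filter_congr fun x _ => ?_
      constructor
      · intro h3 n hn
        rw [← h3, hφ]
        simp only
        rw [if_pos hn]
      · intro h3
        funext n
        rw [hφ]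
        simp only
        split_ifs with hn
        · exact h3 n hn
        · unfold wd at hw
          rw [Fintype.mem_piFinset] at hw
          have := hw n
          rw [if_neg hn, mem_singleton] at this
          exact this.symm
    rw [h2]
    have h3 : ∀ x ∈ Ω.filter (fun x => ∀ n ∈ P, c x n = w n),
        ∏ i, g (t i) (c x (t i)) = ∏ i, g (t i) (w (t i)) := by
      intro x hx
      refine prod_congr rfl fun i _ => ?_
      rw [(mem_filter.1 hx).2 (t i) (mem_image_of_mem _ (mem_univ i))]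
    rw [sum_congr rfl h3, sum_const, nsmul_eq_mul]
  have h2 : (Ω.card : ℝ) * val g t = ∑ w ∈ wd (q := q) P, (Ω.card / (q : ℝ) ^ P.card) *
      ∏ i, g (t i) (w (t i)) := by
    unfold val
    rw [← mul_sum, ← hP]
    ring
  rw [h1, h2, ← sum_sub_distrib]
  have h3 : ∀ w : Fin N → Fin q, |∏ i, g (t i) (w (t i))| ≤ 1 := by
    intro w
    rw [abs_prod]
    exact prod_le_one (fun _ _ => abs_nonneg _) fun i _ => hg _ _
  calc _ ≤ ∑ w ∈ wd (q := q) P, |((Ω.filter (fun x => ∀ n ∈ P, c x n = w n)).card : ℝ) *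
        ∏ i, g (t i) (w (t i)) - (Ω.card / (q : ℝ) ^ P.card) * ∏ i, g (t i) (w (t i))| :=
        Finset.abs_sum_le_sum_abs _ _
    _ ≤ ∑ _w ∈ wd (q := q) P, Ω.card * E := by
        refine sum_le_sum fun w _ => ?_
        rw [← sub_mul, abs_mul]
        calc _ ≤ (Ω.card * E) * 1 := mul_le_mul (h P hPm w) (h3 w) (abs_nonneg _) (by positivity)
          _ = Ω.card * E := mul_one _
    _ = (q : ℝ) ^ P.card * (Ω.card * E) := by
        rw [sum_const, nsmul_eq_mul, card_wd]
        push_cast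
        rfl
    _ ≤ (q : ℝ) ^ m * (Ω.card * E) := by
        have := pow_le_pow_right₀ hq1 hPm
        gcongr
    _ = _ := by ring

/-- the moments -/
lemma mom_close {Ω : Finset ι} {c : ι → Fin N → Fin q} {m : ℕ} {E : ℝ} (h : Near Ω c m E)
    (hE : 0 ≤ E) {g : Fin N → Fin q → ℝ} (hg : ∀ n v, |g n v| ≤ 1) :
    |∑ x ∈ Ω, (∑ n, g n (c x n)) ^ m - Ω.card * ∑ t : Fin m → Fin N, val g t| ≤
      Ω.card * ((N : ℝ) ^ m * ((q : ℝ) ^ m * E)) := by
  have h1 : ∑ x ∈ Ω, (∑ n, g n (c x n)) ^ m =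
      ∑ t : Fin m → Fin N, ∑ x ∈ Ω, ∏ i, g (t i) (c x (t i)) := by
    rw [Finset.sum_comm]
    refine sum_congr rfl fun x _ => ?_
    rw [Fintype.sum_pow]
  rw [h1, mul_sum, ← sum_sub_distrib]
  calc _ ≤ ∑ t : Fin m → Fin N, |∑ x ∈ Ω, ∏ i, g (t i) (c x (t i)) - Ω.card * val g t| :=
        Finset.abs_sum_le_sum_abs _ _
    _ ≤ ∑ _t : Fin m → Fin N, Ω.card * ((q : ℝ) ^ m * E) :=
        sum_le_sum fun t _ => prod_close h hE hg t
    _ = _ := by
        rw [sum_const, card_univ, Fintype.card_fun, Fintype.card_fin, Fintype.card_fin,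
          nsmul_eq_mul]
        push_cast
        ring

/-- the model itself -/
lemma near_model (m : ℕ) : Near (univ : Finset (Fin N → Fin q)) (fun w => w) m 0 := by
  classical
  intro P _ w
  rw [mul_zero]
  have hq0 : (0 : ℝ) < q := by exact_mod_cast Nat.pos_of_ne_zero (NeZero.ne q)
  have h1 : (univ : Finset (Fin N → Fin q)).filter (fun x => ∀ n ∈ P, x n = w n) =
      Fintype.piFinset (fun n => if n ∈ P then {w n} else univ) := by
    ext x
    rw [mem_filter, Fintype.mem_piFinset]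
    constructor
    · rintro ⟨_, h⟩ n
      split_ifs with hn
      · rw [mem_singleton]
        exact h n hn
      · exact mem_univ _
    · intro h
      refine ⟨mem_univ _, fun n hn => ?_⟩
      have := h n
      rw [if_pos hn, mem_singleton] at this
      exact this
  have h2 : ∀ n, (if n ∈ P then ({w n} : Finset (Fin q)) else univ).card =
      if n ∈ Pᶜ then q else 1 := by
    intro n
    by_cases hn : n ∈ P
    · rw [if_pos hn, if_neg (by rw [mem_compl, not_not]; exact hn)]
      simp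
    · rw [if_neg hn, if_pos (by rw [mem_compl]; exact hn)]
      simp
  have h3 : ((univ : Finset (Fin N → Fin q)).filter (fun x => ∀ n ∈ P, x n = w n)).card =
      q ^ (N - P.card) := by
    rw [h1, Fintype.card_piFinset]
    simp only [h2]
    rw [Finset.prod_ite_mem, univ_inter, prod_const, card_compl, Fintype.card_fin]
  have hPN : P.card ≤ N := by
    have := card_le_univ P
    rwa [Fintype.card_fin] at this
  rw [h3, card_univ, Fintype.card_fun, Fintype.card_fin, Fintype.card_fin]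
  have h4 : ((q ^ N : ℕ) : ℝ) = (q : ℝ) ^ (N - P.card) * (q : ℝ) ^ P.card := by
    rw [← pow_add, Nat.sub_add_cancel hPN]
    push_cast
    rfl
  rw [h4]
  push_cast
  rw [mul_div_cancel_right₀ _ (by positivity), sub_self, abs_zero]

/-- the even moments in the model -/
lemma model_mom (I : Finset (Fin N)) (f : Fin q → ℝ) (hf : ∀ v, |f v| ≤ 1)
    (hf0 : ∑ v, f v = 0) {k : ℕ} (hk : 1 ≤ k) :
    ∑ w : Fin N → Fin q, (∑ i ∈ I, f (w i)) ^ (2 * k) ≤
      (q : ℝ) ^ N * (2 * (4 * Real.exp 1 * k * I.card) ^ k) := by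
  have hkp : (0 : ℝ) < k := by exact_mod_cast hk
  have hk1 : (1 : ℝ) ≤ k := by exact_mod_cast hk
  rcases le_or_gt k I.card with h1 | h1
  · have hIp : (0 : ℝ) < I.card := lt_of_lt_of_le hkp (by exact_mod_cast h1)
    have hkI : (k : ℝ) ≤ I.card := by exact_mod_cast h1
    set θ : ℝ := √(k / I.card) with hθ
    have hθ0 : 0 < θ := by
      rw [hθ]
      positivity
    have hθ2 : θ ^ 2 = k / I.card := Real.sq_sqrt (by positivity)
    have hθ1 : θ ≤ 1 := by
      rw [hθ]
      apply Real.sqrt_le_one.2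
      rw [div_le_one hIp]
      exact hkI
    have h2 := mgf (N := N) I f hf hf0 (θ := θ) (by rw [abs_of_pos hθ0]; exact hθ1)
    have h3 := mgf (N := N) I f hf hf0 (θ := -θ) (by rw [abs_neg, abs_of_pos hθ0]; exact hθ1)
    rw [Fintype.card_fin, hθ2] at h2
    rw [Fintype.card_fin, neg_sq, hθ2] at h3
    have h4 : (k : ℝ) / I.card * I.card = k := by field_simp
    rw [h4] at h2 h3
    have hfac : (0 : ℝ) < ((2 * k).factorial : ℝ) := by exact_mod_cast (2 * k).factorial_pos
    have h5 : ∀ s : ℝ, s ^ (2 * k) ≤ ((2 * k).factorial : ℝ) / θ ^ (2 * k) *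
        (Real.exp (θ * s) + Real.exp (-θ * s)) := by
      intro s
      have h6 : |θ * s| ^ (2 * k) / ((2 * k).factorial : ℝ) ≤ Real.exp |θ * s| :=
        Real.pow_div_factorial_le_exp _ (abs_nonneg _) _
      have h7 : Real.exp |θ * s| ≤ Real.exp (θ * s) + Real.exp (-θ * s) := by
        rcases abs_cases (θ * s) with h | h
        · rw [h.1]
          linarith [Real.exp_pos (-θ * s)]
        · rw [h.1]
          have : -(θ * s) = -θ * s := by ring
          rw [this]
          linarith [Real.exp_pos (θ * s)]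
      have h8 : |θ * s| ^ (2 * k) = θ ^ (2 * k) * s ^ (2 * k) := by
        rw [Even.pow_abs (even_two_mul k), mul_pow]
      rw [h8] at h6
      have h9 := h6.trans h7
      rw [div_le_iff₀ hfac] at h9
      rw [div_mul_eq_mul_div, le_div_iff₀ (by positivity)]
      linarith
    calc ∑ w : Fin N → Fin q, (∑ i ∈ I, f (w i)) ^ (2 * k) ≤
          ∑ w : Fin N → Fin q, ((2 * k).factorial : ℝ) / θ ^ (2 * k) *
            (Real.exp (θ * ∑ i ∈ I, f (w i)) + Real.exp (-θ * ∑ i ∈ I, f (w i))) :=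
          sum_le_sum fun w _ => h5 _
      _ = ((2 * k).factorial : ℝ) / θ ^ (2 * k) *
            (∑ w : Fin N → Fin q, Real.exp (θ * ∑ i ∈ I, f (w i)) +
              ∑ w : Fin N → Fin q, Real.exp (-θ * ∑ i ∈ I, f (w i))) := by
          rw [← sum_add_distrib, mul_sum]
      _ ≤ ((2 * k).factorial : ℝ) / θ ^ (2 * k) *
            ((q : ℝ) ^ N * Real.exp k + (q : ℝ) ^ N * Real.exp k) := by gcongr
      _ = (q : ℝ) ^ N * (2 * (((2 * k).factorial : ℝ) * (Real.exp 1) ^ k *
            (I.card / k) ^ k)) := by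
          rw [pow_mul, hθ2, ← Real.exp_nat_mul, mul_one, div_pow, div_pow]
          field_simp
          ring
      _ ≤ (q : ℝ) ^ N * (2 * (((2 * k : ℕ) : ℝ) ^ (2 * k) * (Real.exp 1) ^ k *
            (I.card / k) ^ k)) := by
          have h10 : ((2 * k).factorial : ℝ) ≤ ((2 * k : ℕ) : ℝ) ^ (2 * k) := by
            exact_mod_cast Nat.factorial_le_pow (2 * k)
          gcongr
      _ = (q : ℝ) ^ N * (2 * (4 * Real.exp 1 * k * I.card) ^ k) := by
          congr 2
          rw [pow_mul, ← mul_pow, ← mul_pow]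
          congr 1
          push_cast
          field_simp
          ring
  · have hIk : (I.card : ℝ) ≤ k := by exact_mod_cast h1.le
    have h2 : ∀ w : Fin N → Fin q, (∑ i ∈ I, f (w i)) ^ (2 * k) ≤
        2 * (4 * Real.exp 1 * k * I.card) ^ k := by
      intro w
      have h3 : |∑ i ∈ I, f (w i)| ≤ I.card := by
        calc |∑ i ∈ I, f (w i)| ≤ ∑ i ∈ I, |f (w i)| := Finset.abs_sum_le_sum_abs _ _
          _ ≤ ∑ _i ∈ I, (1 : ℝ) := sum_le_sum fun i _ => hf _
          _ = I.card := by simp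
      have h4 : (0 : ℝ) ≤ I.card := Nat.cast_nonneg _
      have h5 : 1 ≤ Real.exp 1 := Real.one_le_exp zero_le_one
      calc (∑ i ∈ I, f (w i)) ^ (2 * k) = |∑ i ∈ I, f (w i)| ^ (2 * k) :=
            (Even.pow_abs (even_two_mul k) _).symm
        _ ≤ (I.card : ℝ) ^ (2 * k) := by gcongr
        _ = ((I.card : ℝ) * I.card) ^ k := by rw [pow_mul, sq]
        _ ≤ (4 * Real.exp 1 * k * I.card) ^ k := by
            have h6 : (I.card : ℝ) * I.card ≤ 4 * Real.exp 1 * k * I.card := by
              refine mul_le_mul_of_nonneg_right ?_ h4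
              nlinarith
            gcongr
        _ ≤ 2 * (4 * Real.exp 1 * k * I.card) ^ k := by
            have : 0 ≤ (4 * Real.exp 1 * k * (I.card : ℝ)) ^ k := by positivity
            linarith
    calc _ ≤ ∑ _w : Fin N → Fin q, 2 * (4 * Real.exp 1 * k * (I.card : ℝ)) ^ k :=
          sum_le_sum fun w _ => h2 w
      _ = _ := by
          rw [sum_const, card_univ, Fintype.card_fun, Fintype.card_fin, Fintype.card_fin,
            nsmul_eq_mul]
          push_cast
          rfl

/-- the concentration inequality for nearly independent variables -/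
theorem conc_near {Ω : Finset ι} {c : ι → Fin N → Fin q} {k : ℕ} {E : ℝ} (hk : 1 ≤ k)
    (h : Near Ω c (2 * k) E) (hE : 0 ≤ E) (I : Finset (Fin N)) (f : Fin q → ℝ)
    (hf : ∀ v, |f v| ≤ 1) (hf0 : ∑ v, f v = 0) {T : ℝ} (hT : 0 < T) :
    ((Ω.filter (fun x => T < |∑ i ∈ I, f (c x i)|)).card : ℝ) ≤
      Ω.card * ((2 * (4 * Real.exp 1 * k * I.card) ^ k +
        (N : ℝ) ^ (2 * k) * ((q : ℝ) ^ (2 * k) * E)) / T ^ (2 * k)) := by
  classical
  have hq0 : (0 : ℝ) < q := by exact_mod_cast Nat.pos_of_ne_zero (NeZero.ne q)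
  set g : Fin N → Fin q → ℝ := fun n v => if n ∈ I then f v else 0 with hg
  have hg1 : ∀ n v, |g n v| ≤ 1 := by
    intro n v
    rw [hg]
    simp only
    split_ifs
    · exact hf v
    · simp
  have hgs : ∀ w : Fin N → Fin q, ∑ n, g n (w n) = ∑ i ∈ I, f (w i) := by
    intro w
    rw [hg]
    simp only
    rw [Finset.sum_ite_mem, univ_inter]
  have h1 := mom_close h hE hg1
  have h2 := mom_close (near_model (N := N) (q := q) (2 * k)) le_rfl hg1
  simp only [hgs] at h1 h2
  have hcard : (((univ : Finset (Fin N → Fin q)).card : ℕ) : ℝ) = (q : ℝ) ^ N := by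
    rw [card_univ, Fintype.card_fun, Fintype.card_fin, Fintype.card_fin]
    push_cast
    rfl
  have h3 := model_mom (N := N) I f hf hf0 hk
  rw [hcard] at h2
  have hqN : (0 : ℝ) < (q : ℝ) ^ N := by positivity
  set V : ℝ := ∑ t : Fin (2 * k) → Fin N, val g t with hV
  have hV2 : V ≤ 2 * (4 * Real.exp 1 * k * I.card) ^ k := by
    have h4 := (abs_le.1 h2).1
    have h5 : (q : ℝ) ^ N * V ≤ (q : ℝ) ^ N * (2 * (4 * Real.exp 1 * k * I.card) ^ k) := by
      simp only [mul_zero, neg_zero] at h4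
      linarith
    exact le_of_mul_le_mul_left h5 hqN
  have h4 : ∑ x ∈ Ω, (∑ i ∈ I, f (c x i)) ^ (2 * k) ≤
      Ω.card * (2 * (4 * Real.exp 1 * k * I.card) ^ k +
        (N : ℝ) ^ (2 * k) * ((q : ℝ) ^ (2 * k) * E)) := by
    have h5 := (abs_le.1 h1).2
    have h6 : (Ω.card : ℝ) * V ≤ Ω.card * (2 * (4 * Real.exp 1 * k * I.card) ^ k) :=
      mul_le_mul_of_nonneg_left hV2 (Nat.cast_nonneg _)
    rw [mul_add]
    linarith
  have h5 : ((Ω.filter (fun x => T < |∑ i ∈ I, f (c x i)|)).card : ℝ) * T ^ (2 * k) ≤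
      ∑ x ∈ Ω, (∑ i ∈ I, f (c x i)) ^ (2 * k) := by
    calc ((Ω.filter (fun x => T < |∑ i ∈ I, f (c x i)|)).card : ℝ) * T ^ (2 * k) =
          ∑ _x ∈ Ω.filter (fun x => T < |∑ i ∈ I, f (c x i)|), T ^ (2 * k) := by
          rw [sum_const, nsmul_eq_mul]
      _ ≤ ∑ x ∈ Ω.filter (fun x => T < |∑ i ∈ I, f (c x i)|),
            (∑ i ∈ I, f (c x i)) ^ (2 * k) := by
          refine sum_le_sum fun x hx => ?_
          rw [← Even.pow_abs (even_two_mul k) (∑ i ∈ I, f (c x i))]
          exact pow_le_pow_left₀ hT.le (mem_filter.1 hx).2.le _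
      _ ≤ _ := sum_le_sum_of_subset_of_nonneg (filter_subset _ _)
          fun x _ _ => Even.pow_nonneg (even_two_mul k) _
  rw [← mul_div_assoc, le_div_iff₀ (by positivity)]
  exact h5.trans h4

end Pool.Agent.Q270.VS
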