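import Pool.Agent.Q270.VS.Es3
import Pool.Agent.Q270.VB.Ho

/-!
# Near independence from exponential sums
-/

set_option autoImplicit false

namespace Pool.Agent.Q270.VS

open Finset Filter Topology MeasureTheory
open Pool.Agent.Y933.KD (e Leb ind e_sum)
open Pool.Agent.Y951.TU (hat lin lin_apply Cube hat_Cube unif unif_prob integral_unif real_unif Ev
  measurableSet_Ev test integral_ind measurable_lin)
open Pool.Agent.Q270.VB (sg lin_sg cube_cell mem_cell)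

variable {k : ℕ}

/-- near independence for boxes -/
theorem core_g {I : Finset ℕ} (hI : I.Nonempty) (Y : ℕ → Fin k → ℝ) {K : ℕ} (hK : 1 ≤ K) {η : ℝ}
    (hη : 0 ≤ η) (hyp : ∀ h : Fin k → ℤ, h ≠ 0 → (∀ i, |(h i : ℝ)| ≤ (K : ℝ) ^ 3) →
      ‖∑ b ∈ I, e (∑ i, h i * Y b i)‖ ≤ I.card * η) (u v : Fin k → ℝ) (hu : ∀ i, 0 ≤ u i)
    (hv : ∀ i, v i ≤ 1) :
    |(unif I Y).real (Ev (lin k) (sg k) u v) - (Cube k).real (Ev (lin k) (sg k) u v)| ≤
      (2 * (K : ℝ) ^ 3 + 1) ^ k * η + k * (12 / K + 5 * η) := by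
  have := unif_prob hI Y
  have hIp : (0 : ℝ) < I.card := by exact_mod_cast hI.card_pos
  have hsum : ∀ h : Fin k → ℤ, ∑ i, h i • sg k i = h := by
    intro h
    funext j
    rw [Finset.sum_apply, Finset.sum_eq_single j]
    · simp [sg]
    · intro i _ hi
      simp [sg, Pi.single_eq_of_ne (Ne.symm hi)]
    · simp
  have key := test (k := k) (K := K) (by omega) measurable_lin (unif I Y)
    (Cube k) hat_Cube (sg k) (fun i h hh h0 => by
      have := congrFun h0 i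
      simp [sg] at this
      exact hh this) η (fun h hhK hne => by
      rw [hsum] at hne ⊢
      have hA : ∀ i, |(h i : ℝ)| ≤ (K : ℝ) ^ 3 := fun i => by exact_mod_cast hhK i
      have h1 := hyp h hne hA
      unfold hat
      rw [integral_unif]
      have h2 : ∑ b ∈ I, e (lin k h (Y b)) = ∑ b ∈ I, e (∑ i, h i * Y b i) := by
        refine sum_congr rfl fun b _ => ?_
        rw [lin_apply]
      rw [h2, norm_mul, norm_div, norm_one, Complex.norm_natCast, one_div,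
        inv_mul_le_iff₀ hIp]
      exact h1) hη u v hu hv
  rw [integral_ind measurable_lin, integral_ind measurable_lin] at key
  exact key

/-- near independence for single cells -/
theorem cell_g {I : Finset ℕ} (hI : I.Nonempty) (Y : ℕ → Fin k → ℝ) {K : ℕ} (hK : 1 ≤ K) {η : ℝ}
    (hη : 0 ≤ η) (hyp : ∀ h : Fin k → ℤ, h ≠ 0 → (∀ i, |(h i : ℝ)| ≤ (K : ℝ) ^ 3) →
      ‖∑ b ∈ I, e (∑ i, h i * Y b i)‖ ≤ I.card * η) {q : ℕ} (hq : 1 ≤ q) (w : Fin k → ℕ)
    (hw : ∀ i, w i < q) :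
    |((I.filter (fun b : ℕ => ∀ i, ⌊(q : ℝ) * Int.fract (Y b i)⌋₊ = w i)).card : ℝ) / I.card -
      1 / (q : ℝ) ^ k| ≤ (2 * (K : ℝ) ^ 3 + 1) ^ k * η + k * (12 / K + 5 * η) := by
  have hqp : (0 : ℝ) < q := by exact_mod_cast hq
  classical
  have h1 := core_g hI Y hK hη hyp (fun i => (w i : ℝ) / q) (fun i => ((w i : ℝ) + 1) / q)
    (fun i => by positivity)
    (fun i => by
      rw [div_le_one hqp]
      exact_mod_cast hw i)
  rw [cube_cell hq w hw, real_unif _ _ (measurableSet_Ev measurable_lin _ _ _)] at h1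
  have h2 : (I.filter (fun b : ℕ => Y b ∈
      Ev (lin k) (sg k) (fun i => (w i : ℝ) / q) (fun i => ((w i : ℝ) + 1) / q))) =
      I.filter (fun b : ℕ => ∀ i, ⌊(q : ℝ) * Int.fract (Y b i)⌋₊ = w i) := by
    refine Finset.filter_congr fun b _ => ?_
    rw [mem_cell hq, funext_iff]
  rw [h2] at h1
  exact h1

/-- near independence in total variation -/
theorem tv_g {I : Finset ℕ} (hI : I.Nonempty) (Y : ℕ → Fin k → ℝ) {K : ℕ} (hK : 1 ≤ K) {η : ℝ}
    (hη : 0 ≤ η) (hyp : ∀ h : Fin k → ℤ, h ≠ 0 → (∀ i, |(h i : ℝ)| ≤ (K : ℝ) ^ 3) →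
      ‖∑ b ∈ I, e (∑ i, h i * Y b i)‖ ≤ I.card * η) {q : ℕ} (hq : 1 ≤ q)
    (W : Set (Fin k → ℕ)) :
    |({b : ℕ | b ∈ I ∧ (fun i => ⌊(q : ℝ) * Int.fract (Y b i)⌋₊) ∈ W}.ncard : ℝ) / I.card -
      ({w : Fin k → ℕ | (∀ i, w i < q) ∧ w ∈ W}.ncard : ℝ) / (q : ℝ) ^ k| ≤
      (q : ℝ) ^ k * ((2 * (K : ℝ) ^ 3 + 1) ^ k * η + k * (12 / K + 5 * η)) := by
  classical
  have hqp : (0 : ℝ) < q := by exact_mod_cast hq
  set E : ℝ := (2 * (K : ℝ) ^ 3 + 1) ^ k * η + k * (12 / K + 5 * η) with hE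
  have hE0 : 0 ≤ E := by positivity
  set V : Finset (Fin k → ℕ) := (Fintype.piFinset (fun _ : Fin k => range q)).filter (· ∈ W)
    with hV
  have hVW : {w : Fin k → ℕ | (∀ i, w i < q) ∧ w ∈ W} = (V : Set (Fin k → ℕ)) := by
    ext w
    simp [hV, Fintype.mem_piFinset]
  rw [hVW, Set.ncard_coe_finset]
  have hVq : (V.card : ℝ) ≤ (q : ℝ) ^ k := by
    have h1 := card_filter_le (Fintype.piFinset (fun _ : Fin k => range q)) (· ∈ W)
    rw [Fintype.card_piFinset, prod_const, card_univ, Fintype.card_fin, card_range] at h1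
    exact_mod_cast h1
  have hcount : {b : ℕ | b ∈ I ∧ (fun i => ⌊(q : ℝ) * Int.fract (Y b i)⌋₊) ∈ W}.ncard =
      ∑ w ∈ V, (I.filter (fun b : ℕ => ∀ i, ⌊(q : ℝ) * Int.fract (Y b i)⌋₊ = w i)).card := by
    have h0 : {b : ℕ | b ∈ I ∧ (fun i => ⌊(q : ℝ) * Int.fract (Y b i)⌋₊) ∈ W} =
        ((I.filter (fun b : ℕ => (fun i => ⌊(q : ℝ) * Int.fract (Y b i)⌋₊) ∈ V) : Finset ℕ) :
          Set ℕ) := by
      ext b
      rw [Set.mem_ofPred_eq, Finset.coe_filter, Set.mem_ofPred_eq, hV, mem_filter,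
        Fintype.mem_piFinset]
      constructor
      · rintro ⟨h1, h2⟩
        exact ⟨h1, fun i => mem_range.2 (by
          have : NeZero q := ⟨by omega⟩
          exact Pool.Agent.Q270.VB.cell_lt q (Y b i)), h2⟩
      · rintro ⟨h1, _, h2⟩
        exact ⟨h1, h2⟩
    rw [h0, Set.ncard_coe_finset]
    have h1 := Finset.card_eq_sum_card_fiberwise
      (s := I.filter (fun b : ℕ => (fun i => ⌊(q : ℝ) * Int.fract (Y b i)⌋₊) ∈ V)) (t := V)
      (f := fun b : ℕ => (fun i => ⌊(q : ℝ) * Int.fract (Y b i)⌋₊))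
      (fun b hb => (mem_filter.1 hb).2)
    rw [h1]
    refine sum_congr rfl fun w hw => ?_
    rw [Finset.filter_filter]
    congr 1
    refine Finset.filter_congr fun b _ => ?_
    constructor
    · rintro ⟨_, h⟩
      exact fun i => congrFun h i
    · intro h
      have h' : (fun i => ⌊(q : ℝ) * Int.fract (Y b i)⌋₊) = w := funext h
      exact ⟨by rw [h']; exact hw, h'⟩
  rw [hcount]
  have h3 : ((∑ w ∈ V, (I.filter (fun b : ℕ => ∀ i, ⌊(q : ℝ) * Int.fract (Y b i)⌋₊ =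
      w i)).card : ℕ) : ℝ) / I.card - V.card / (q : ℝ) ^ k =
      ∑ w ∈ V, (((I.filter (fun b : ℕ => ∀ i, ⌊(q : ℝ) * Int.fract (Y b i)⌋₊ =
        w i)).card : ℝ) / I.card - 1 / (q : ℝ) ^ k) := by
    rw [sum_sub_distrib, ← sum_div, sum_const, nsmul_eq_mul]
    push_cast
    ring
  rw [h3]
  calc _ ≤ ∑ w ∈ V, |((I.filter (fun b : ℕ => ∀ i, ⌊(q : ℝ) * Int.fract (Y b i)⌋₊ =
        w i)).card : ℝ) / I.card - 1 / (q : ℝ) ^ k| := Finset.abs_sum_le_sum_abs _ _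
    _ ≤ ∑ _w ∈ V, E := by
        refine sum_le_sum fun w hw => ?_
        rw [hV, mem_filter, Fintype.mem_piFinset] at hw
        exact cell_g hI Y hK hη hyp hq w (fun i => mem_range.1 (hw.1 i))
    _ = V.card * E := by rw [sum_const, nsmul_eq_mul]
    _ ≤ (q : ℝ) ^ k * E := mul_le_mul_of_nonneg_right hVq hE0

end Pool.Agent.Q270.VS
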