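import Pool.Agent.Q270.VS.Dn
import Pool.Agent.Q270.VS.Tvg

/-!
# Near independence from exponential sums, and lacunary sequences
-/

set_option autoImplicit false

namespace Pool.Agent.Q270.VS

open Finset Filter Topology
open Pool.Agent.Y933.KD (e)

variable {N q : ℕ} [NeZero q]

/-- near independence from exponential sums -/
theorem near_of_sums {I : Finset ℕ} (hI : I.Nonempty) (Y : ℕ → Fin N → ℝ) {K m : ℕ} (hK : 1 ≤ K)
    {η : ℝ} (hη : 0 ≤ η) (hyp : ∀ h : Fin N → ℤ, h ≠ 0 → (∀ i, |(h i : ℝ)| ≤ (K : ℝ) ^ 3) →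
      ‖∑ b ∈ I, e (∑ i, h i * Y b i)‖ ≤ I.card * η) :
    Near I (fun b i => cl q (Y b i)) m
      ((2 * (K : ℝ) ^ 3 + 1) ^ m * η + m * (12 / K + 5 * η)) := by
  classical
  intro P hP w
  have hIp : (0 : ℝ) < I.card := by exact_mod_cast hI.card_pos
  have hq1 : 1 ≤ q := Nat.pos_of_ne_zero (NeZero.ne q)
  set emb : Fin P.card → Fin N := fun i => (P.equivFin.symm i : Fin N) with hemb
  have hembP : ∀ i, emb i ∈ P := fun i => (P.equivFin.symm i).2
  have hinj : Function.Injective emb := fun i j h =>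
    P.equivFin.symm.injective (Subtype.ext h)
  have hsurj : ∀ n ∈ P, ∃ i, emb i = n := fun n hn =>
    ⟨P.equivFin ⟨n, hn⟩, by rw [hemb]; simp⟩
  have h1 := cell_g (k := P.card) hI (fun b i => Y b (emb i)) hK hη (fun h hh hhK => by
    set g : Fin N → ℤ := fun n => ∑ i, if emb i = n then h i else 0 with hg
    have hgi : ∀ i, g (emb i) = h i := by
      intro i
      rw [hg]
      simp only
      rw [Finset.sum_eq_single i]
      · simp
      · intro j _ hj
        rw [if_neg (fun h2 => hj (hinj h2))]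
      · simp
    have hg0 : ∀ n, n ∉ P → g n = 0 := by
      intro n hn
      rw [hg]
      simp only
      refine Finset.sum_eq_zero fun i _ => ?_
      rw [if_neg]
      intro h2
      exact hn (h2 ▸ hembP i)
    have hgne : g ≠ 0 := by
      intro h0
      apply hh
      funext i
      rw [← hgi i, h0]
      rfl
    have hgK : ∀ n, |(g n : ℝ)| ≤ (K : ℝ) ^ 3 := by
      intro n
      by_cases hn : n ∈ P
      · obtain ⟨i, rfl⟩ := hsurj n hn
        rw [hgi]
        exact hhK i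
      · rw [hg0 n hn]
        simp
    have h2 := hyp g hgne hgK
    have h3 : ∀ b, ∑ n, (g n : ℝ) * Y b n = ∑ i, (h i : ℝ) * Y b (emb i) := by
      intro b
      have h4 : ∑ n, (g n : ℝ) * Y b n = ∑ n ∈ P, (g n : ℝ) * Y b n := by
        symm
        refine Finset.sum_subset (subset_univ _) fun n _ hn => ?_
        rw [hg0 n hn]
        simp
      rw [h4]
      have h5 : P = univ.image emb := by
        ext n
        rw [mem_image]
        constructor
        · intro hn
          obtain ⟨i, hi⟩ := hsurj n hn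
          exact ⟨i, mem_univ _, hi⟩
        · rintro ⟨i, _, rfl⟩
          exact hembP i
      have h6 : ∑ n ∈ P, (g n : ℝ) * Y b n = ∑ n ∈ univ.image emb, (g n : ℝ) * Y b n := by
        rw [← h5]
      rw [h6, Finset.sum_image (fun i _ j _ h => hinj h)]
      refine sum_congr rfl fun i _ => ?_
      rw [hgi]
    simp only [h3] at h2
    exact h2) hq1 (fun i => (w (emb i) : ℕ)) (fun i => (w (emb i)).2)
  have h2 : I.filter (fun b : ℕ => ∀ i, ⌊(q : ℝ) * Int.fract (Y b (emb i))⌋₊ =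
      ((w (emb i) : Fin q) : ℕ)) = I.filter (fun b => ∀ n ∈ P, cl q (Y b n) = w n) := by
    refine Finset.filter_congr fun b _ => ?_
    constructor
    · intro h n hn
      obtain ⟨i, rfl⟩ := hsurj n hn
      apply Fin.ext
      rw [cl_val]
      exact h i
    · intro h i
      rw [← h (emb i) (hembP i), cl_val]
  rw [h2] at h1
  have hE : (2 * (K : ℝ) ^ 3 + 1) ^ P.card * η + P.card * (12 / K + 5 * η) ≤
      (2 * (K : ℝ) ^ 3 + 1) ^ m * η + m * (12 / K + 5 * η) := by
    have h3 : (1 : ℝ) ≤ 2 * (K : ℝ) ^ 3 + 1 := by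
      have : (0 : ℝ) ≤ (K : ℝ) ^ 3 := by positivity
      linarith
    have h4 : (2 * (K : ℝ) ^ 3 + 1) ^ P.card ≤ (2 * (K : ℝ) ^ 3 + 1) ^ m :=
      pow_le_pow_right₀ h3 hP
    have h5 : (P.card : ℝ) ≤ m := by exact_mod_cast hP
    gcongr
  have h3 := h1.trans hE
  have h4 : ((I.filter (fun b => ∀ n ∈ P, cl q (Y b n) = w n)).card : ℝ) -
      I.card / (q : ℝ) ^ P.card = I.card * (((I.filter (fun b => ∀ n ∈ P,
        cl q (Y b n) = w n)).card : ℝ) / I.card - 1 / (q : ℝ) ^ P.card) := by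
    field_simp
  rw [h4, abs_mul, abs_of_pos hIp]
  exact mul_le_mul_of_nonneg_left h3 hIp.le

/-- partial sums of a fast growing sequence -/
lemma lac_partial {u : ℕ → ℝ} {h : ℕ → ℤ} {T : ℝ} (hT : 1 ≤ T) {M : ℕ}
    (hu : ∀ n < M, 4 * T * |u n| ≤ |u (n + 1)|) (hh : ∀ n < M, |(h n : ℝ)| ≤ T) :
    |∑ n ∈ range M, h n * u n| ≤ |u M| / 2 := by
  induction M with
  | zero =>
    simp only [range_zero, sum_empty, abs_zero]
    positivity
  | succ M ih =>
    rw [sum_range_succ]
    have h1 := ih (fun n hn => hu n (by omega)) (fun n hn => hh n (by omega))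
    have h2 := hu M (by omega)
    have h2' : 4 * (T * |u M|) ≤ |u (M + 1)| := by
      rw [← mul_assoc]
      exact h2
    have h3 : |(h M : ℝ) * u M| ≤ T * |u M| := by
      rw [abs_mul]
      exact mul_le_mul_of_nonneg_right (hh M (by omega)) (abs_nonneg _)
    have h4 : |u M| ≤ T * |u M| := le_mul_of_one_le_left (abs_nonneg _) hT
    calc _ ≤ |∑ n ∈ range M, (h n : ℝ) * u n| + |(h M : ℝ) * u M| := abs_add_le _ _
      _ ≤ |u M| / 2 + T * |u M| := add_le_add h1 h3
      _ ≤ |u (M + 1)| / 2 := by linarith [abs_nonneg (u M)]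

/-- the linear forms in a fast growing sequence -/
lemma lac_form {u : ℕ → ℝ} {T : ℝ} (hT : 1 ≤ T) (hu : ∀ n, n + 1 < N → 4 * T * |u n| ≤ |u (n + 1)|)
    (h : Fin N → ℤ) (hh : h ≠ 0) (hhT : ∀ i, |(h i : ℝ)| ≤ T) :
    ∃ n < N, |u n| / 2 ≤ |∑ i : Fin N, (h i : ℝ) * u i| ∧
      |∑ i : Fin N, (h i : ℝ) * u i| ≤ 2 * T * |u n| := by
  classical
  set g : ℕ → ℤ := fun n => if hn : n < N then h ⟨n, hn⟩ else 0 with hg
  have hgi : ∀ i : Fin N, g i = h i := by
    intro i
    rw [hg]
    simp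
  have hex : ∃ n, n < N ∧ g n ≠ 0 := by
    by_contra hcon
    push Not at hcon
    apply hh
    funext i
    rw [← hgi i]
    exact hcon i i.2
  -- the largest index
  obtain ⟨n, ⟨hnN, hn0⟩, hmax⟩ : ∃ n, (n < N ∧ g n ≠ 0) ∧ ∀ m, m < N → n < m → g m = 0 := by
    set S := (range N).filter (fun n => g n ≠ 0) with hS
    have hSne : S.Nonempty := by
      obtain ⟨n, hn1, hn2⟩ := hex
      exact ⟨n, mem_filter.2 ⟨mem_range.2 hn1, hn2⟩⟩
    have h1 : S.max' hSne < N ∧ g (S.max' hSne) ≠ 0 := by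
      have h0 := mem_filter.1 (S.max'_mem hSne)
      exact ⟨mem_range.1 h0.1, h0.2⟩
    refine ⟨S.max' hSne, h1, fun m hm1 hm2 => ?_⟩
    by_contra hcon
    have h2 := S.le_max' m (mem_filter.2 ⟨mem_range.2 hm1, hcon⟩)
    omega
  refine ⟨n, hnN, ?_⟩
  have hsum : ∑ i : Fin N, (h i : ℝ) * u i = ∑ j ∈ range (n + 1), (g j : ℝ) * u j := by
    have h1 : ∑ i : Fin N, (h i : ℝ) * u i = ∑ j ∈ range N, (g j : ℝ) * u j := by
      rw [← Fin.sum_univ_eq_sum_range (fun j => (g j : ℝ) * u j)]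
      refine sum_congr rfl fun i _ => ?_
      rw [hgi]
    rw [h1]
    symm
    refine Finset.sum_subset (by
      intro j hj
      rw [mem_range] at hj ⊢
      omega) fun j hj1 hj2 => ?_
    rw [mem_range] at hj1 hj2
    rw [hmax j hj1 (by omega)]
    simp
  have hgT : ∀ j, |(g j : ℝ)| ≤ T := by
    intro j
    rw [hg]
    simp only
    split_ifs with hj
    · exact hhT _
    · simp
      linarith
  have h1 := lac_partial (u := u) (h := g) hT (M := n)
    (fun m hm => hu m (by omega)) (fun m _ => hgT m)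
  rw [hsum, sum_range_succ]
  have h2 : |u n| ≤ |(g n : ℝ) * u n| := by
    rw [abs_mul]
    have h3 : (1 : ℝ) ≤ |(g n : ℝ)| := by
      have := Int.one_le_abs hn0
      exact_mod_cast this
    exact le_mul_of_one_le_left (abs_nonneg _) h3
  have h3 : |(g n : ℝ) * u n| ≤ T * |u n| := by
    rw [abs_mul]
    exact mul_le_mul_of_nonneg_right (hgT n) (abs_nonneg _)
  have h4 := abs_nonneg (u n)
  have h5 : |u n| ≤ T * |u n| := le_mul_of_one_le_left h4 hT
  constructor
  · have h6 := abs_sub_abs_le_abs_sub ((g n : ℝ) * u n) (-∑ j ∈ range n, (g j : ℝ) * u j)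
    rw [abs_neg, sub_neg_eq_add, add_comm] at h6
    linarith
  · refine (abs_add_le _ _).trans ?_
    linarith

end Pool.Agent.Q270.VS
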