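import Pool.Agent.Q270.VS.Dh

/-!
# The digits of all powers in almost all bases
-/

set_option autoImplicit false

namespace Pool.Agent.Q270.VS

open Finset Filter Topology

/-- the number of the places `i` with `s ≤ i < s + n` at which the base `q` digit of `A` lies in
`[u q, v q)` -/
noncomputable def dcount (q A s n : ℕ) (u v : ℝ) : ℕ :=
  ((Ico s (s + n)).filter (fun i => u * q ≤ ((A / q ^ i % q : ℕ) : ℝ) ∧
    ((A / q ^ i % q : ℕ) : ℝ) < v * q)).card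

lemma frac_digit {q A i : ℕ} (hq : 1 ≤ q) :
    (((A / q ^ i % q : ℕ) : ℝ)) / q ≤ Int.fract ((A : ℝ) / (q : ℝ) ^ (i + 1)) ∧
      Int.fract ((A : ℝ) / (q : ℝ) ^ (i + 1)) < (((A / q ^ i % q : ℕ) : ℝ) + 1) / q := by
  have hqp : (0 : ℝ) < q := by exact_mod_cast hq
  have h1 : Int.fract ((A : ℝ) / (q : ℝ) ^ (i + 1)) =
      ((A % q ^ (i + 1) : ℕ) : ℝ) / (q : ℝ) ^ (i + 1) := by
    have := Int.fract_div_natCast_eq_div_natCast_mod (k := ℝ) (m := A) (n := q ^ (i + 1))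
    push_cast at this ⊢
    exact this
  rw [h1, Nat.mod_pow_succ]
  have h2 : A % q ^ i < q ^ i := Nat.mod_lt _ (Nat.pos_of_ne_zero (by positivity))
  have h3 : ((A % q ^ i : ℕ) : ℝ) < (q : ℝ) ^ i := by exact_mod_cast h2
  have hqi : (0 : ℝ) < (q : ℝ) ^ i := by positivity
  push_cast
  push_cast at h3
  constructor
  · rw [div_le_div_iff₀ hqp (by positivity), pow_succ]
    have h4 : (0 : ℝ) ≤ ((A % q ^ i : ℕ) : ℝ) := Nat.cast_nonneg _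
    push_cast at h4
    nlinarith
  · rw [div_lt_div_iff₀ (by positivity) hqp, pow_succ]
    nlinarith

/-- from fractional parts to digits -/
lemma dcount_close {q A s n : ℕ} (hq : 1 ≤ q) {E : ℝ} {u v : ℝ} (hu : 0 ≤ u) (huv : u ≤ v)
    (hv : v ≤ 1) (h : ∀ u v : ℝ, 0 ≤ u → u ≤ v → v ≤ 1 →
      |(cn (fun i => (A : ℝ) / (q : ℝ) ^ (i + 1)) s n u v : ℝ) - n * (v - u)| ≤ E) :
    |(dcount q A s n u v : ℝ) - n * (v - u)| ≤ E + n / q := by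
  have hqp : (0 : ℝ) < q := by exact_mod_cast hq
  have hn0 : (0 : ℝ) ≤ n := Nat.cast_nonneg n
  have hE : 0 ≤ E := (abs_nonneg _).trans (h 0 0 le_rfl le_rfl zero_le_one)
  have hq1 : 0 < (1 : ℝ) / q := by positivity
  rw [abs_le]
  constructor
  · rcases le_total (u + 1 / q) v with h1 | h1
    · have h2 := (abs_le.1 (h (u + 1 / q) v (by positivity) h1 hv)).1
      have h3 : (cn (fun i => (A : ℝ) / (q : ℝ) ^ (i + 1)) s n (u + 1 / q) v : ℝ) ≤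
          dcount q A s n u v := by
        unfold cn dcount
        refine Nat.cast_le.2 (card_le_card fun i hi => ?_)
        rw [mem_filter] at hi ⊢
        obtain ⟨hi1, hi2, hi3⟩ := hi
        obtain ⟨h4, h5⟩ := frac_digit (A := A) (i := i) hq
        refine ⟨hi1, ?_, ?_⟩
        · have h6 : u + 1 / q < (((A / q ^ i % q : ℕ) : ℝ) + 1) / q := lt_of_le_of_lt hi2 h5
          rw [add_div] at h6
          have h7 : u < ((A / q ^ i % q : ℕ) : ℝ) / q := by linarith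
          rw [lt_div_iff₀ hqp] at h7
          exact h7.le
        · have h6 : ((A / q ^ i % q : ℕ) : ℝ) / q < v := lt_of_le_of_lt h4 hi3
          rwa [div_lt_iff₀ hqp] at h6
      have h4 : (n : ℝ) * (v - (u + 1 / q)) = n * (v - u) - n / q := by ring
      rw [h4] at h2
      linarith
    · have h2 : (0 : ℝ) ≤ dcount q A s n u v := Nat.cast_nonneg _
      have h3 : (n : ℝ) * (v - u) ≤ n / q := by
        calc (n : ℝ) * (v - u) ≤ n * (1 / q) := by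
              gcongr
              linarith
          _ = n / q := by ring
      linarith
  · have h2 := (abs_le.1 (h u (min (v + 1 / q) 1) hu (le_min (by linarith) (huv.trans hv))
      (min_le_right _ _))).2
    have h3 : (dcount q A s n u v : ℝ) ≤
        (cn (fun i => (A : ℝ) / (q : ℝ) ^ (i + 1)) s n u (min (v + 1 / q) 1) : ℝ) := by
      unfold cn dcount
      refine Nat.cast_le.2 (card_le_card fun i hi => ?_)
      rw [mem_filter] at hi ⊢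
      obtain ⟨hi1, hi2, hi3⟩ := hi
      obtain ⟨h4, h5⟩ := frac_digit (A := A) (i := i) hq
      refine ⟨hi1, ?_, ?_⟩
      · refine le_trans ?_ h4
        rw [le_div_iff₀ hqp]
        exact hi2
      · refine lt_min ?_ (Int.fract_lt_one _)
        refine lt_of_lt_of_le h5 ?_
        rw [add_div]
        have h6 : ((A / q ^ i % q : ℕ) : ℝ) / q < v := by
          rw [div_lt_iff₀ hqp]
          exact hi3
        linarith
    have h4 : (n : ℝ) * (min (v + 1 / q) 1 - u) ≤ n * (v - u) + n / q := by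
      calc (n : ℝ) * (min (v + 1 / q) 1 - u) ≤ n * (v + 1 / q - u) := by
            gcongr
            exact min_le_left _ _
        _ = n * (v - u) + n / q := by ring
    linarith

/-- the powers -/
lemma powers_card {P : ℝ} {M : ℕ} (hP : 0 ≤ P) : ∃ F : Finset ℝ, (F.card : ℝ) ≤ P * (M + 1) ∧
    ∀ p k : ℕ, 2 ≤ p → (p : ℝ) ≤ P → k ≤ M → ((p ^ k : ℕ) : ℝ) ∈ F ∧ True := by
  classical
  refine ⟨((Icc 1 ⌊P⌋₊) ×ˢ (range (M + 1))).image (fun z => ((z.1 ^ z.2 : ℕ) : ℝ)), ?_, ?_⟩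
  · calc (((((Icc 1 ⌊P⌋₊) ×ˢ (range (M + 1))).image (fun z => ((z.1 ^ z.2 : ℕ) : ℝ))).card : ℕ) : ℝ)
        ≤ (((Icc 1 ⌊P⌋₊) ×ˢ (range (M + 1))).card : ℝ) := by exact_mod_cast card_image_le
      _ = (⌊P⌋₊ : ℝ) * (M + 1) := by
          rw [card_product, Nat.card_Icc, card_range, Nat.add_sub_cancel]
          push_cast
          ring
      _ ≤ P * (M + 1) := by
          gcongr
          exact Nat.floor_le hP
  · intro p k hp hpP hk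
    refine ⟨mem_image.2 ⟨(p, k), ?_, rfl⟩, trivial⟩
    rw [mem_product, mem_Icc, mem_range]
    exact ⟨⟨by omega, Nat.le_floor hpP⟩, by omega⟩

theorem pw : ∃ δ : ℝ, 0 < δ ∧ δ ≤ 1 / 16 ∧ ∀ ε : ℝ, 0 < ε → ∃ κ : ℝ, 0 < κ ∧ ∀ᶠ N : ℕ in atTop,
    ∃ B : Finset ℕ, (B.card : ℝ) ≤ N * Real.exp (-(Real.log N) ^ κ) ∧
      ∀ q, 1 ≤ q → q ≤ N → q ∉ B → 1 ≤ Real.log q ∧ ∀ p k : ℕ, 2 ≤ p →
        (p : ℝ) ≤ Real.exp ((Real.log q) ^ κ) →
        (p : ℝ) ^ k ≤ Real.exp ((Real.log q) ^ (1 + δ)) → ∀ s n : ℕ,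
        (q : ℝ) ^ (((s + n : ℕ) : ℝ) + ε) ≤ (p : ℝ) ^ k → ∀ u v : ℝ, 0 ≤ u → u ≤ v → v ≤ 1 →
          |(dcount q (p ^ k) s n u v : ℝ) - n * (v - u)| ≤ √(n : ℝ) * (Real.log q) ^ ε := by
  classical
  obtain ⟨δ, hδ0, hδ1, hdisc⟩ := discd
  refine ⟨δ, hδ0, hδ1, ?_⟩
  intro ε hε
  obtain ⟨ε₁, hε₁⟩ : ∃ ε₁ : ℝ, ε₁ = min ε 1 / 2 := ⟨_, rfl⟩
  have hε₁0 : 0 < ε₁ := by rw [hε₁]; have := lt_min hε one_pos; positivity
  have hε₁1 : 2 * ε₁ ≤ ε := by rw [hε₁]; linarith [min_le_left ε 1]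
  have hε₁2 : 2 * ε₁ ≤ 1 := by rw [hε₁]; linarith [min_le_right ε 1]
  obtain ⟨κ, hκ0, hκ1, hdisc⟩ := hdisc ε₁ hε₁0
  refine ⟨κ / 2, by positivity, ?_⟩
  have hlog : Tendsto (fun X : ℕ => Real.log (X : ℝ)) atTop atTop :=
    Real.tendsto_log_atTop.comp tendsto_natCast_atTop_atTop
  obtain ⟨c, hc⟩ : ∃ c : ℕ, 1 ≤ κ / 2 * c := by
    obtain ⟨c, hc⟩ := exists_nat_ge (2 / κ)
    refine ⟨c, ?_⟩
    rw [div_le_iff₀ hκ0] at hc
    linarith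
  have e1 : ∀ᶠ N : ℕ in atTop, (5 : ℝ) ≤ (Real.log N) ^ (κ / 2) :=
    hlog.eventually ((tendsto_rpow_atTop (by positivity)).eventually_ge_atTop _)
  have e2 : ∀ᶠ N : ℕ in atTop, (4 : ℝ) * (2 + ε) / ε ≤ (Real.log N) ^ (1 / 2 : ℝ) :=
    hlog.eventually ((tendsto_rpow_atTop (by norm_num)).eventually_ge_atTop _)
  have e3 : ∀ᶠ N : ℕ in atTop, ((Real.log N) ^ (κ / 2)) ^ (2 * c + 1) ≤
      Real.exp (1 * (Real.log N) ^ (κ / 2)) :=
    hlog.eventually ((tendsto_rpow_atTop (by positivity : 0 < κ / 2)).eventually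
      (ev_pow_exp (2 * c + 1) 1 one_pos))
  have e4 : ∀ᶠ N : ℕ in atTop, (6 : ℝ) ≤ (Real.log N) ^ ε₁ :=
    hlog.eventually ((tendsto_rpow_atTop (by positivity)).eventually_ge_atTop _)
  filter_upwards [hdisc, e1, e2, e3, e4, hlog.eventually_ge_atTop 64, eventually_ge_atTop 2]
    with N hN h1 h2 h3 h4 h5 h6
  have hN1 : (1 : ℝ) ≤ N := by exact_mod_cast (by omega : 1 ≤ N)
  have hNp : (0 : ℝ) < N := by linarith
  obtain ⟨ℓ, hℓ⟩ : ∃ ℓ : ℝ, ℓ = Real.log N := ⟨_, rfl⟩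
  rw [← hℓ] at h1 h2 h3 h4 h5 hN ⊢
  have hℓ0 : 0 < ℓ := by linarith
  have hℓ1 : 1 ≤ ℓ := by linarith
  have hNexp : (N : ℝ) = Real.exp ℓ := by rw [hℓ, Real.exp_log hNp]
  have hκκ : ℓ ^ κ = ℓ ^ (κ / 2) * ℓ ^ (κ / 2) := by
    rw [← Real.rpow_add hℓ0]
    congr 1
    ring
  -- the number of the powers
  obtain ⟨M, hM⟩ : ∃ M : ℕ, M = ⌊2 * ℓ ^ (1 + δ)⌋₊ := ⟨_, rfl⟩
  obtain ⟨F, hFc, hF⟩ := powers_card (P := Real.exp (ℓ ^ (κ / 2))) (M := M) (Real.exp_pos _).le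
  have hMr : (M : ℝ) + 1 ≤ 3 * ℓ ^ 2 := by
    have h7 : (M : ℝ) ≤ 2 * ℓ ^ (1 + δ) := by
      rw [hM]
      exact Nat.floor_le (by positivity)
    have h8 : ℓ ^ (1 + δ) ≤ ℓ ^ (2 : ℝ) := Real.rpow_le_rpow_of_exponent_le hℓ1 (by linarith)
    have h9 : ℓ ^ (2 : ℝ) = ℓ ^ 2 := by
      rw [← Real.rpow_natCast]
      norm_num
    rw [h9] at h8
    have h10 : (1 : ℝ) ≤ ℓ ^ 2 := one_le_pow₀ hℓ1
    linarith
  have hℓc : ℓ ≤ (ℓ ^ (κ / 2)) ^ c := by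
    rw [← Real.rpow_natCast, ← Real.rpow_mul hℓ0.le]
    calc ℓ = ℓ ^ (1 : ℝ) := (Real.rpow_one ℓ).symm
      _ ≤ _ := Real.rpow_le_rpow_of_exponent_le hℓ1 hc
  obtain ⟨y, hy⟩ : ∃ y : ℝ, y = ℓ ^ (κ / 2) := ⟨_, rfl⟩
  rw [← hy] at h1 h3 hκκ hFc hℓc ⊢
  rw [one_mul] at h3
  have hy0 : 0 < y := by linarith
  have hMy : (M : ℝ) + 1 ≤ Real.exp y := by
    calc (M : ℝ) + 1 ≤ 3 * ℓ ^ 2 := hMr
      _ ≤ y * (y ^ c) ^ 2 := by
          gcongr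
          linarith
      _ = y ^ (2 * c + 1) := by ring
      _ ≤ _ := h3
  obtain ⟨F', hF'⟩ : ∃ F' : Finset ℝ, F' = F.filter (fun A => |A| ≤ Real.exp (ℓ ^ (1 + δ))) :=
    ⟨_, rfl⟩
  obtain ⟨B, hBc, hB⟩ := hN F' (by
    calc (F'.card : ℝ) ≤ F.card := by
          rw [hF']
          exact_mod_cast card_filter_le _ _
      _ ≤ Real.exp y * (M + 1) := hFc
      _ ≤ Real.exp y * Real.exp y := by gcongr
      _ = Real.exp (y + y) := by rw [Real.exp_add]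
      _ ≤ Real.exp (ℓ ^ κ) := by
          apply Real.exp_le_exp.2
          rw [hκκ]
          nlinarith) (by
    intro A hA
    rw [hF', mem_filter] at hA
    exact hA.2)
  refine ⟨B ∪ Icc 1 ⌊N * Real.exp (-ℓ ^ κ)⌋₊, ?_, ?_⟩
  · have h7 : ((Icc 1 ⌊N * Real.exp (-ℓ ^ κ)⌋₊).card : ℝ) ≤ N * Real.exp (-ℓ ^ κ) := by
      rw [Nat.card_Icc, Nat.add_sub_cancel]
      exact Nat.floor_le (by positivity)
    have h8 : Real.exp (-ℓ ^ κ) ≤ Real.exp (-y) * Real.exp (-1) := by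
      rw [← Real.exp_add, hκκ]
      apply Real.exp_le_exp.2
      nlinarith
    have h9 : 2 * Real.exp (-1) ≤ 1 := by
      rw [Real.exp_neg, ← div_eq_mul_inv, div_le_one (Real.exp_pos _)]
      have := Real.exp_one_gt_d9
      linarith
    calc ((B ∪ Icc 1 ⌊N * Real.exp (-ℓ ^ κ)⌋₊).card : ℝ) ≤
        (B.card : ℝ) + ((Icc 1 ⌊N * Real.exp (-ℓ ^ κ)⌋₊).card : ℝ) := by
          exact_mod_cast card_union_le _ _
      _ ≤ 2 * (N * Real.exp (-ℓ ^ κ)) := by linarith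
      _ ≤ 2 * (N * (Real.exp (-y) * Real.exp (-1))) := by gcongr
      _ = (N * Real.exp (-y)) * (2 * Real.exp (-1)) := by ring
      _ ≤ (N * Real.exp (-y)) * 1 := by gcongr
      _ = _ := mul_one _
  intro q hq1 hqN hqB
  rw [mem_union, mem_Icc, not_or] at hqB
  obtain ⟨hqB1, hqB2⟩ := hqB
  have hqp : (0 : ℝ) < q := by exact_mod_cast hq1
  have hqNr : (q : ℝ) ≤ N := by exact_mod_cast hqN
  have hqlow : (N : ℝ) * Real.exp (-ℓ ^ κ) < q := by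
    have h7 : ⌊N * Real.exp (-ℓ ^ κ)⌋₊ < q := by
      by_contra hcon
      push Not at hcon
      exact hqB2 ⟨hq1, hcon⟩
    exact (Nat.floor_lt (by positivity)).1 h7
  obtain ⟨lq, hlq⟩ : ∃ lq : ℝ, lq = Real.log q := ⟨_, rfl⟩
  rw [← hlq]
  have hqexp : (q : ℝ) = Real.exp lq := by rw [hlq, Real.exp_log hqp]
  have hlq1 : ℓ - ℓ ^ κ ≤ lq := by
    rw [hNexp, hqexp, ← Real.exp_add] at hqlow
    have := Real.exp_lt_exp.1 hqlow
    linarith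
  have hlqℓ : lq ≤ ℓ := by
    rw [hlq, hℓ]
    exact Real.log_le_log hqp hqNr
  have hℓhalf : ℓ ^ κ ≤ ℓ ^ (1 / 16 : ℝ) := Real.rpow_le_rpow_of_exponent_le hℓ1 hκ1
  have hsqrt : ℓ = ℓ ^ (1 / 2 : ℝ) * ℓ ^ (1 / 2 : ℝ) := by
    rw [← Real.rpow_add hℓ0]
    norm_num
  have h8' : (8 : ℝ) ≤ ℓ ^ (1 / 2 : ℝ) := by
    rw [← Real.sqrt_eq_rpow]
    apply Real.le_sqrt_of_sq_le
    linarith
  have h16 : ℓ ^ (1 / 16 : ℝ) ≤ ℓ ^ (1 / 2 : ℝ) :=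
    Real.rpow_le_rpow_of_exponent_le hℓ1 (by norm_num)
  have hlq2 : ℓ / 2 ≤ lq := by
    nlinarith
  have hlq0 : 0 < lq := by linarith
  have hlq1' : 1 ≤ lq := by linarith
  refine ⟨hlq1', ?_⟩
  intro p k hp hpP hpk s n hsn u v hu huv hv
  -- the power
  have hpr : (2 : ℝ) ≤ p := by exact_mod_cast hp
  have hpkN : (p : ℝ) ^ k ≤ Real.exp (ℓ ^ (1 + δ)) := by
    refine hpk.trans (Real.exp_le_exp.2 ?_)
    exact Real.rpow_le_rpow hlq0.le hlqℓ (by positivity)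
  have hkM : k ≤ M := by
    rw [hM]
    apply Nat.le_floor
    have h7 : (k : ℝ) * Real.log 2 ≤ ℓ ^ (1 + δ) := by
      rw [← Real.log_pow, Real.log_le_iff_le_exp (by positivity)]
      exact (pow_le_pow_left₀ (by norm_num) hpr k).trans hpkN
    have h8 := Real.log_two_gt_d9
    have h9 : (0 : ℝ) ≤ k := Nat.cast_nonneg k
    nlinarith
  have hpF := (hF p k hp (hpP.trans (Real.exp_le_exp.2
    (Real.rpow_le_rpow hlq0.le hlqℓ (by positivity)))) hkM).1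
  have hpF' : ((p ^ k : ℕ) : ℝ) ∈ F' := by
    rw [hF', mem_filter]
    refine ⟨hpF, ?_⟩
    rw [Nat.abs_cast]
    push_cast
    exact hpkN
  -- the windows
  have hsn1 : ((s + n : ℕ) : ℝ) ≤ 2 * ℓ ^ δ := by
    have h7 : Real.exp (lq * (((s + n : ℕ) : ℝ) + ε)) ≤ Real.exp (ℓ ^ (1 + δ)) := by
      rw [Real.exp_mul, ← hqexp]
      exact hsn.trans hpkN
    have h8 := Real.exp_le_exp.1 h7
    rw [Real.rpow_add hℓ0, Real.rpow_one] at h8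
    have h9 : (0 : ℝ) ≤ ((s + n : ℕ) : ℝ) := Nat.cast_nonneg _
    have h10 : ℓ / 2 * ((s + n : ℕ) : ℝ) ≤ ℓ * ℓ ^ δ := by nlinarith
    have h11 : ℓ * ((s + n : ℕ) : ℝ) ≤ ℓ * (2 * ℓ ^ δ) := by linarith
    exact le_of_mul_le_mul_left h11 hℓ0
  have hsn2 : (N : ℝ) ^ (((s + n : ℕ) : ℝ) + ε₁) ≤ |((p ^ k : ℕ) : ℝ)| := by
    rw [Nat.abs_cast, Nat.cast_pow]
    refine le_trans ?_ hsn
    rw [hNexp, hqexp, ← Real.exp_mul, ← Real.exp_mul]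
    apply Real.exp_le_exp.2
    have h7 : ℓ ^ κ * (2 * ℓ ^ δ + ε) ≤ (ε - ε₁) * ℓ := by
      have h8 : ℓ ^ δ ≤ ℓ ^ (1 / 16 : ℝ) := Real.rpow_le_rpow_of_exponent_le hℓ1 hδ1
      have h9 : ℓ ^ (1 / 16 : ℝ) * ℓ ^ (1 / 16 : ℝ) ≤ ℓ ^ (1 / 2 : ℝ) := by
        rw [← Real.rpow_add hℓ0]
        exact Real.rpow_le_rpow_of_exponent_le hℓ1 (by norm_num)
      have h10 : (1 : ℝ) ≤ ℓ ^ (1 / 16 : ℝ) := Real.one_le_rpow hℓ1 (by norm_num)
      have h11 : (4 : ℝ) * (2 + ε) ≤ ε * ℓ ^ (1 / 2 : ℝ) := by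
        rw [div_le_iff₀ hε] at h2
        linarith
      have h12 : 0 ≤ ℓ ^ (1 / 2 : ℝ) := by positivity
      calc ℓ ^ κ * (2 * ℓ ^ δ + ε) ≤ ℓ ^ (1 / 16 : ℝ) * (2 * ℓ ^ (1 / 16 : ℝ) +
            ε * ℓ ^ (1 / 16 : ℝ)) := by
            gcongr
            exact le_mul_of_one_le_right hε.le h10
        _ = (2 + ε) * (ℓ ^ (1 / 16 : ℝ) * ℓ ^ (1 / 16 : ℝ)) := by ring
        _ ≤ (2 + ε) * ℓ ^ (1 / 2 : ℝ) := by gcongr
        _ ≤ (ε * ℓ ^ (1 / 2 : ℝ) / 4) * ℓ ^ (1 / 2 : ℝ) := by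
            gcongr
            linarith
        _ = ε / 4 * (ℓ ^ (1 / 2 : ℝ) * ℓ ^ (1 / 2 : ℝ)) := by ring
        _ = ε / 4 * ℓ := by rw [← hsqrt]
        _ ≤ (ε - ε₁) * ℓ := by
            gcongr
            linarith
    have h8 : (ℓ - ℓ ^ κ) * (((s + n : ℕ) : ℝ) + ε) ≤ lq * (((s + n : ℕ) : ℝ) + ε) := by
      gcongr
    have h9 : ℓ ^ κ * (((s + n : ℕ) : ℝ) + ε) ≤ ℓ ^ κ * (2 * ℓ ^ δ + ε) := by gcongr
    have h10 : (ℓ - ℓ ^ κ) * (((s + n : ℕ) : ℝ) + ε) = ℓ * (((s + n : ℕ) : ℝ) + ε) -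
        ℓ ^ κ * (((s + n : ℕ) : ℝ) + ε) := by ring
    have h11 : ℓ * (((s + n : ℕ) : ℝ) + ε₁) = ℓ * (((s + n : ℕ) : ℝ) + ε) - (ε - ε₁) * ℓ := by
      ring
    linarith
  have h7 := hB q hq1 hqN hqB1 _ hpF' s n hsn2
  have h8 := dcount_close (A := p ^ k) hq1 hu huv hv h7
  refine h8.trans ?_
  rcases Nat.eq_zero_or_pos n with hn0 | hn0
  · subst hn0
    simp
  have hn1 : (1 : ℝ) ≤ √(n : ℝ) := by
    rw [Real.one_le_sqrt]
    exact_mod_cast hn0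
  have hnq : (n : ℝ) / q ≤ 1 := by
    rw [div_le_one hqp]
    have h9 : (n : ℝ) ≤ ((s + n : ℕ) : ℝ) := by
      push_cast
      linarith [(Nat.cast_nonneg s : (0 : ℝ) ≤ s)]
    have h10 : ℓ ^ δ ≤ ℓ ^ (1 / 2 : ℝ) := Real.rpow_le_rpow_of_exponent_le hℓ1 (by linarith)
    have h11 : lq + 1 ≤ q := by
      rw [hqexp]
      exact Real.add_one_le_exp lq
    nlinarith
  have hfin : ℓ ^ ε₁ + 1 ≤ lq ^ ε := by
    have h9 : ℓ ^ ε₁ ≤ 2 * lq ^ ε₁ := by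
      calc ℓ ^ ε₁ ≤ (2 * lq) ^ ε₁ := Real.rpow_le_rpow hℓ0.le (by linarith) hε₁0.le
        _ = 2 ^ ε₁ * lq ^ ε₁ := Real.mul_rpow (by norm_num) hlq0.le
        _ ≤ 2 ^ (1 : ℝ) * lq ^ ε₁ := by
            gcongr
            · norm_num
            · linarith
        _ = _ := by rw [Real.rpow_one]
    have h10 : lq ^ ε₁ * lq ^ ε₁ ≤ lq ^ ε := by
      rw [← Real.rpow_add hlq0]
      exact Real.rpow_le_rpow_of_exponent_le hlq1' (by linarith)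
    have h11 : (3 : ℝ) ≤ lq ^ ε₁ := by linarith
    nlinarith
  calc √(n : ℝ) * ℓ ^ ε₁ + n / q ≤ √(n : ℝ) * ℓ ^ ε₁ + √(n : ℝ) * 1 := by linarith
    _ = √(n : ℝ) * (ℓ ^ ε₁ + 1) := by ring
    _ ≤ _ := by gcongr

end Pool.Agent.Q270.VS
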