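import Pool.Agent.Q270.VS.Es2

/-!
# The Taylor expansion of real powers with an explicit remainder
-/

set_option autoImplicit false

namespace Pool.Agent.Q270.VS

open Finset Filter Topology

/-- the binomial coefficients -/
noncomputable def bin (θ : ℝ) (j : ℕ) : ℝ := (∏ i ∈ range j, (θ - i)) / (j.factorial : ℝ)

lemma bin_zero (θ : ℝ) : bin θ 0 = 1 := by simp [bin]

lemma bin_succ (θ : ℝ) (j : ℕ) : (j + 1) * bin θ (j + 1) = θ * bin (θ - 1) j := by
  unfold bin
  rw [prod_range_succ', Nat.factorial_succ]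
  have h1 : ∏ i ∈ range j, (θ - ((i + 1 : ℕ) : ℝ)) = ∏ i ∈ range j, (θ - 1 - i) := by
    refine prod_congr rfl fun i _ => ?_
    push_cast
    ring
  rw [h1]
  have h2 : (j.factorial : ℝ) ≠ 0 := by exact_mod_cast j.factorial_ne_zero
  have h3 : (j : ℝ) + 1 ≠ 0 := by positivity
  push_cast
  field_simp
  ring

lemma bin_abs_le (θ : ℝ) (j : ℕ) : |bin θ j| ≤ (|θ| + 1) ^ j := by
  unfold bin
  rw [abs_div, Nat.abs_cast, div_le_iff₀ (by exact_mod_cast j.factorial_pos)]
  induction j with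
  | zero => simp
  | succ j ih =>
    rw [prod_range_succ, abs_mul, Nat.factorial_succ, pow_succ]
    have h1 : |θ - j| ≤ (|θ| + 1) * (j + 1) := by
      have h2 := abs_sub θ (j : ℝ)
      rw [Nat.abs_cast] at h2
      have h3 := abs_nonneg θ
      have h4 : (0 : ℝ) ≤ j := Nat.cast_nonneg j
      nlinarith
    calc |∏ i ∈ range j, (θ - i)| * |θ - j| ≤ ((|θ| + 1) ^ j * j.factorial) *
          ((|θ| + 1) * (j + 1)) := by
          have := abs_nonneg θ
          gcongr
      _ = _ := by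
          push_cast
          ring

/-- the remainder of the Taylor expansion of `(x + t) ^ θ` -/
noncomputable def rem (x θ : ℝ) (r : ℕ) (t : ℝ) : ℝ :=
  (x + t) ^ θ - ∑ j ∈ range (r + 1), bin θ j * x ^ (θ - j) * t ^ j

lemma rem_deriv {x : ℝ} (hx : 0 < x) (θ : ℝ) (r : ℕ) {t : ℝ} (ht : 0 ≤ t) :
    HasDerivAt (rem x θ (r + 1)) (θ * rem x (θ - 1) r t) t := by
  unfold rem
  have h1 : HasDerivAt (fun t : ℝ => (x + t) ^ θ) (θ * (x + t) ^ (θ - 1)) t := by
    have h2 : HasDerivAt (fun t : ℝ => x + t) 1 t := by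
      simpa using (hasDerivAt_id t).const_add x
    have h3 := h2.rpow_const (p := θ) (Or.inl (by positivity))
    simpa [mul_comm] using h3
  have h2 : HasDerivAt (fun t : ℝ => ∑ j ∈ range (r + 1 + 1), bin θ j * x ^ (θ - j) * t ^ j)
      (∑ j ∈ range (r + 1 + 1), bin θ j * x ^ (θ - j) * (j * t ^ (j - 1))) t := by
    refine HasDerivAt.fun_sum fun j _ => ?_
    exact (hasDerivAt_pow j t).const_mul _
  have h3 : ∑ j ∈ range (r + 1 + 1), bin θ j * x ^ (θ - j) * (j * t ^ (j - 1)) =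
      θ * ∑ j ∈ range (r + 1), bin (θ - 1) j * x ^ (θ - 1 - j) * t ^ j := by
    rw [sum_range_succ', mul_sum]
    simp only [Nat.cast_zero, zero_mul, mul_zero, add_zero]
    refine sum_congr rfl fun j _ => ?_
    rw [Nat.add_sub_cancel]
    have h4 := bin_succ θ j
    have h5 : θ - ((j + 1 : ℕ) : ℝ) = θ - 1 - j := by push_cast; ring
    rw [h5]
    push_cast
    calc bin θ (j + 1) * x ^ (θ - 1 - j) * ((j + 1) * t ^ j) =
          ((j + 1) * bin θ (j + 1)) * x ^ (θ - 1 - j) * t ^ j := by ring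
      _ = θ * (bin (θ - 1) j * x ^ (θ - 1 - j) * t ^ j) := by
          rw [h4]
          ring
  rw [h3] at h2
  have h4 := h1.sub h2
  rw [mul_sub]
  exact h4

lemma rem_zero {x : ℝ} (θ : ℝ) (r : ℕ) : rem x θ r 0 = 0 := by
  unfold rem
  rw [sum_range_succ']
  simp [bin_zero]

/-- the bound for the remainder -/
theorem rem_le (r : ℕ) : ∀ (θ : ℝ) {x t : ℝ}, 0 < x → 0 ≤ t → t ≤ x →
    |rem x θ r t| ≤ 2 ^ |θ - r - 1| * (|∏ i ∈ range (r + 1), (θ - i)| / ((r + 1).factorial : ℝ)) *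
      x ^ (θ - r - 1) * t ^ (r + 1) := by
  induction r with
  | zero =>
    intro θ x t hx ht htx
    have h0 : ∀ s : ℝ, 0 ≤ s → HasDerivAt (rem x θ 0) (θ * (x + s) ^ (θ - 1)) s := by
      intro s hs
      unfold rem
      have h2 : HasDerivAt (fun t : ℝ => x + t) 1 s := by
        simpa using (hasDerivAt_id s).const_add x
      have h3 := h2.rpow_const (p := θ) (Or.inl (by positivity))
      simpa [mul_comm] using h3
    have hb : ∀ s ∈ Set.Ico 0 t, ‖θ * (x + s) ^ (θ - 1)‖ ≤ |θ| * (2 ^ |θ - 1| * x ^ (θ - 1)) := by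
      intro s hs
      rw [Real.norm_eq_abs, abs_mul]
      refine mul_le_mul_of_nonneg_left ?_ (abs_nonneg _)
      have hs0 : 0 ≤ s := hs.1
      have hsx : s ≤ x := hs.2.le.trans htx
      rw [abs_of_pos (by positivity)]
      have h4 : x + s = x * ((x + s) / x) := by field_simp
      rw [h4, Real.mul_rpow hx.le (by positivity), mul_comm]
      refine mul_le_mul_of_nonneg_right ?_ (by positivity)
      have h5 : 1 ≤ (x + s) / x := by
        rw [le_div_iff₀ hx]
        linarith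
      have h6 : (x + s) / x ≤ 2 := by
        rw [div_le_iff₀ hx]
        linarith
      calc ((x + s) / x) ^ (θ - 1) ≤ ((x + s) / x) ^ |θ - 1| :=
            Real.rpow_le_rpow_of_exponent_le h5 (le_abs_self _)
        _ ≤ 2 ^ |θ - 1| := Real.rpow_le_rpow (by positivity) h6 (abs_nonneg _)
    have h1 := image_norm_le_of_norm_deriv_right_le_deriv_boundary
      (f := rem x θ 0) (f' := fun s => θ * (x + s) ^ (θ - 1)) (a := 0) (b := t)
      (B := fun s => |θ| * (2 ^ |θ - 1| * x ^ (θ - 1)) * s)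
      (B' := fun _ => |θ| * (2 ^ |θ - 1| * x ^ (θ - 1)))
      (fun s hs => (h0 s hs.1).continuousAt.continuousWithinAt)
      (fun s hs => (h0 s hs.1).hasDerivWithinAt) (by rw [rem_zero]; simp)
      (fun s => by simpa using (hasDerivAt_id s).const_mul (|θ| * (2 ^ |θ - 1| * x ^ (θ - 1))))
      hb (Set.right_mem_Icc.2 ht)
    rw [Real.norm_eq_abs] at h1
    refine h1.trans (le_of_eq ?_)
    have h2 : ∏ i ∈ range (0 + 1), (θ - i) = θ := by simp
    have h3 : (((0 + 1).factorial : ℕ) : ℝ) = 1 := by simp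
    rw [h2, h3, Nat.cast_zero, sub_zero, div_one, zero_add, pow_one]
    ring
  | succ r ih =>
    intro θ x t hx ht htx
    set c : ℝ := 2 ^ |θ - 1 - r - 1| * (|∏ i ∈ range (r + 1), (θ - 1 - i)| /
      ((r + 1).factorial : ℝ)) * x ^ (θ - 1 - r - 1) with hc
    have h0 : ∀ s : ℝ, 0 ≤ s → HasDerivAt (rem x θ (r + 1)) (θ * rem x (θ - 1) r s) s :=
      fun s hs => rem_deriv hx θ r hs
    have hb : ∀ s ∈ Set.Ico 0 t, ‖θ * rem x (θ - 1) r s‖ ≤ |θ| * (c * s ^ (r + 1)) := by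
      intro s hs
      rw [Real.norm_eq_abs, abs_mul]
      exact mul_le_mul_of_nonneg_left (ih (θ - 1) hx hs.1 (hs.2.le.trans htx)) (abs_nonneg _)
    have hB : ∀ s : ℝ, HasDerivAt (fun s => |θ| * c / (r + 2) * s ^ (r + 2))
        (|θ| * (c * s ^ (r + 1))) s := by
      intro s
      have h1 := (hasDerivAt_pow (r + 2) s).const_mul (|θ| * c / (r + 2))
      refine h1.congr_deriv ?_
      have h2 : (r : ℝ) + 2 ≠ 0 := by positivity
      rw [show r + 2 - 1 = r + 1 by omega]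
      push_cast
      field_simp
    have h1 := image_norm_le_of_norm_deriv_right_le_deriv_boundary
      (f := rem x θ (r + 1)) (f' := fun s => θ * rem x (θ - 1) r s) (a := 0) (b := t)
      (B := fun s => |θ| * c / (r + 2) * s ^ (r + 2)) (B' := fun s => |θ| * (c * s ^ (r + 1)))
      (fun s hs => (h0 s hs.1).continuousAt.continuousWithinAt)
      (fun s hs => (h0 s hs.1).hasDerivWithinAt) (by rw [rem_zero]; simp)
      hB hb (Set.right_mem_Icc.2 ht)
    rw [Real.norm_eq_abs] at h1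
    refine h1.trans (le_of_eq ?_)
    have h2 : ∏ i ∈ range (r + 1 + 1), (θ - i) = θ * ∏ i ∈ range (r + 1), (θ - 1 - i) := by
      rw [prod_range_succ', Nat.cast_zero, sub_zero, mul_comm]
      congr 1
      refine prod_congr rfl fun i _ => ?_
      push_cast
      ring
    have h3 : θ - ((r + 1 : ℕ) : ℝ) - 1 = θ - 1 - r - 1 := by push_cast; ring
    have h4 : (((r + 1 + 1).factorial : ℕ) : ℝ) = (r + 2) * ((r + 1).factorial : ℝ) := by
      rw [Nat.factorial_succ]
      push_cast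
      ring
    rw [h2, h3, h4, abs_mul, hc]
    have h5 : ((r + 1).factorial : ℝ) ≠ 0 := by exact_mod_cast (r + 1).factorial_ne_zero
    have h6 : (r : ℝ) + 2 ≠ 0 := by positivity
    rw [show r + 1 + 1 = r + 2 by rfl]
    field_simp

/-- the bound for the remainder, in a simpler form -/
theorem rem_le' (r : ℕ) (θ : ℝ) {x t : ℝ} (hx : 0 < x) (ht : 0 ≤ t) (htx : t ≤ x) :
    |(x + t) ^ θ - x ^ θ - ∑ j ∈ Icc 1 r, bin θ j * x ^ (θ - j) * t ^ j| ≤
      2 ^ (|θ| + r + 1) * (|θ| + 1) ^ (r + 1) * x ^ θ * (t / x) ^ (r + 1) := by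
  have h1 := rem_le r θ hx ht htx
  have h2 : rem x θ r t = (x + t) ^ θ - x ^ θ - ∑ j ∈ Icc 1 r, bin θ j * x ^ (θ - j) * t ^ j := by
    unfold rem
    rw [sum_range_succ']
    have h3 : Finset.Icc 1 r = Finset.Ico 1 (r + 1) := rfl
    rw [h3, Finset.sum_Ico_eq_sum_range, Nat.add_sub_cancel]
    simp only [bin_zero, Nat.cast_zero, sub_zero, pow_zero, mul_one, one_mul]
    have h4 : ∀ j ∈ range r, bin θ (j + 1) * x ^ (θ - ((j + 1 : ℕ) : ℝ)) * t ^ (j + 1) =
        bin θ (1 + j) * x ^ (θ - ((1 + j : ℕ) : ℝ)) * t ^ (1 + j) := by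
      intro j _
      rw [add_comm j 1]
    rw [sum_congr rfl h4]
    ring
  rw [← h2]
  refine h1.trans ?_
  have h3 : |∏ i ∈ range (r + 1), (θ - i)| / ((r + 1).factorial : ℝ) ≤ (|θ| + 1) ^ (r + 1) := by
    have := bin_abs_le θ (r + 1)
    unfold bin at this
    rwa [abs_div, Nat.abs_cast] at this
  have h4 : (2 : ℝ) ^ |θ - r - 1| ≤ 2 ^ (|θ| + r + 1) := by
    apply Real.rpow_le_rpow_of_exponent_le (by norm_num)
    have h5 : |θ - r - 1| ≤ |θ| + |(r : ℝ) + 1| := by
      rw [show θ - r - 1 = θ - (r + 1) by ring]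
      exact abs_sub _ _
    rw [abs_of_nonneg (show (0 : ℝ) ≤ (r : ℝ) + 1 by positivity)] at h5
    linarith
  have h5 : x ^ (θ - r - 1) * t ^ (r + 1) = x ^ θ * (t / x) ^ (r + 1) := by
    rw [show θ - r - 1 = θ - ((r + 1 : ℕ) : ℝ) by push_cast; ring, Real.rpow_sub hx,
      Real.rpow_natCast, div_pow]
    field_simp
  calc 2 ^ |θ - r - 1| * (|∏ i ∈ range (r + 1), (θ - i)| / ((r + 1).factorial : ℝ)) *
      x ^ (θ - r - 1) * t ^ (r + 1) = 2 ^ |θ - r - 1| *
        (|∏ i ∈ range (r + 1), (θ - i)| / ((r + 1).factorial : ℝ)) *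
          (x ^ (θ - r - 1) * t ^ (r + 1)) := by ring
    _ ≤ 2 ^ (|θ| + r + 1) * (|θ| + 1) ^ (r + 1) * (x ^ (θ - r - 1) * t ^ (r + 1)) := by
        gcongr
    _ = _ := by
        rw [h5]
        ring

end Pool.Agent.Q270.VS
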