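import Pool.Agent.Q270.VS.Bb
import Pool.Agent.Q270.VS.Es3

/-!
# Lacunary sequences times `x ^ θ`: discrepancy for almost all `x`
-/

set_option autoImplicit false

namespace Pool.Agent.Q270.VS

open Finset Filter Topology
open Pool.Agent.Y933.KD (e)

/-- iterating the growth -/
lemma lac_iter {u : ℕ → ℝ} {G₀ L : ℕ} (hu : ∀ n, n + G₀ < L → 2 * |u n| ≤ |u (n + G₀)|) (j : ℕ) :
    ∀ n, n + G₀ * j < L → 2 ^ j * |u n| ≤ |u (n + G₀ * j)| := by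
  induction j with
  | zero => intro n _; simp
  | succ j ih =>
    intro n hn
    have h0 : n + G₀ * (j + 1) = (n + G₀ * j) + G₀ := by ring
    rw [h0] at hn ⊢
    have h1 := ih n (by omega)
    have h2 := hu (n + G₀ * j) hn
    calc (2 : ℝ) ^ (j + 1) * |u n| = 2 * (2 ^ j * |u n|) := by ring
      _ ≤ 2 * |u (n + G₀ * j)| := by gcongr
      _ ≤ _ := h2

/-- the distance of `θ` from the natural numbers -/
lemma dist_nat {θ : ℝ} (hθ : ∀ n : ℕ, θ ≠ n) : ∃ d : ℝ, 0 < d ∧ d ≤ 1 ∧ ∀ i : ℕ, d ≤ |θ - i| := by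
  have hcl : IsClosed (Set.range ((↑) : ℕ → ℝ)) := Nat.isClosedEmbedding_coe_real.isClosed_range
  have hne : (Set.range ((↑) : ℕ → ℝ)).Nonempty := ⟨_, 0, rfl⟩
  have hmem : θ ∉ Set.range ((↑) : ℕ → ℝ) := by
    rintro ⟨n, hn⟩
    exact hθ n hn.symm
  have hpos := (hcl.notMem_iff_infDist_pos hne).1 hmem
  refine ⟨min (Metric.infDist θ (Set.range ((↑) : ℕ → ℝ))) 1, lt_min hpos one_pos,
    min_le_right _ _, fun i => ?_⟩
  refine (min_le_left _ _).trans ?_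
  have := Metric.infDist_le_dist_of_mem (x := θ) (show ((i : ℕ) : ℝ) ∈ Set.range ((↑) : ℕ → ℝ) from
    ⟨i, rfl⟩)
  rwa [Real.dist_eq] at this

/-- the binomial coefficients are not too small -/
lemma bin_lower {θ d : ℝ} (hd : 0 < d) (hd1 : d ≤ 1) (hdi : ∀ i : ℕ, d ≤ |θ - i|) {j : ℕ} {T : ℝ}
    (hj : (j : ℝ) ≤ T) : Real.exp (-(T * (T - Real.log d))) ≤ |bin θ j| := by
  have hj0 : (0 : ℝ) ≤ j := Nat.cast_nonneg j
  have hT : 0 ≤ T := hj0.trans hj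
  have hld : Real.log d ≤ 0 := Real.log_nonpos hd.le hd1
  have h1 : d ^ j ≤ |∏ i ∈ range j, (θ - i)| := by
    rw [abs_prod]
    calc d ^ j = ∏ _i ∈ range j, d := by rw [prod_const, card_range]
      _ ≤ _ := prod_le_prod (fun _ _ => hd.le) (fun i _ => hdi i)
  have h2 : (j.factorial : ℝ) ≤ Real.exp (j * T) := by
    have h3 : (j.factorial : ℝ) ≤ (j : ℝ) ^ j := by exact_mod_cast Nat.factorial_le_pow j
    refine h3.trans ?_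
    rw [Real.exp_nat_mul]
    refine pow_le_pow_left₀ hj0 ?_ j
    have := Real.add_one_le_exp T
    linarith
  have h3 : d ^ j = Real.exp (j * Real.log d) := by
    rw [Real.exp_nat_mul, Real.exp_log hd]
  unfold bin
  rw [abs_div, Nat.abs_cast, le_div_iff₀ (by exact_mod_cast j.factorial_pos)]
  calc Real.exp (-(T * (T - Real.log d))) * j.factorial ≤
      Real.exp (-(T * (T - Real.log d))) * Real.exp (j * T) := by gcongr
    _ = Real.exp (-(T * (T - Real.log d)) + j * T) := by rw [Real.exp_add]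
    _ ≤ Real.exp (j * Real.log d) := by
        apply Real.exp_le_exp.2
        nlinarith
    _ = d ^ j := h3.symm
    _ ≤ _ := h1

/-- the inequalities between the parameters -/
lemma ev_params (θ d ε κ₀ γ δ : ℝ) (G₀ c K₁ : ℕ) (hκ₀ : 0 < κ₀) (hε : 0 < ε)
    (hγ0 : 0 < γ) (hγ1 : γ ≤ 1 / 8) (hK₁ : 8 ≤ K₁) (hδ : δ = 1 / (2 * K₁))
    (hc : 2 ≤ γ * c) (hG₀ : 1 ≤ G₀) :
    ∀ᶠ ℓ : ℝ in atTop, 1 ≤ ℓ ∧ |θ| + 1 ≤ ℓ ^ (1 / K₁ : ℝ) ∧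
      4 * ℓ ^ (1 / K₁ : ℝ) * (4 * ℓ ^ (1 / K₁ : ℝ) - Real.log d) ≤ κ₀ * ℓ ∧
      (G₀ : ℝ) * (2 * ℓ ^ (1 + δ) + 1) ≤ (ℓ ^ γ) ^ c ∧
      Real.log 2 + 4 * (ℓ ^ γ) ^ 2 + ℓ ^ (1 + δ) ≤ ℓ ^ (1 / K₁ : ℝ) * ℓ ∧
      Real.log 2 ≤ ε / 2 * ℓ ∧ (ℓ ^ γ) ^ 4 ≤ √ℓ ∧ ℓ ^ (γ / 2) ≤ ℓ ^ γ / 2 := by
  have hK : (8 : ℝ) ≤ K₁ := by exact_mod_cast hK₁
  have hKp : (0 : ℝ) < K₁ := by linarith
  have hδ0 : 0 < δ := by rw [hδ]; positivity
  have hδ2 : 2 * δ = 1 / K₁ := by rw [hδ]; field_simp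
  have hK8 : (1 : ℝ) / K₁ ≤ 1 / 8 := one_div_le_one_div_of_le (by norm_num) hK
  have e1 : ∀ᶠ ℓ : ℝ in atTop, |θ| + 1 ≤ ℓ ^ (1 / K₁ : ℝ) :=
    (tendsto_rpow_atTop (by positivity)).eventually_ge_atTop _
  have e2 : ∀ᶠ ℓ : ℝ in atTop, (16 + 4 * |Real.log d|) / κ₀ ≤ ℓ ^ (3 / 4 : ℝ) :=
    (tendsto_rpow_atTop (by norm_num)).eventually_ge_atTop _
  have e3 : ∀ᶠ ℓ : ℝ in atTop, (3 : ℝ) * G₀ ≤ ℓ ^ (1 - δ) :=
    (tendsto_rpow_atTop (by linarith)).eventually_ge_atTop _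
  have e4 : ∀ᶠ ℓ : ℝ in atTop, (6 : ℝ) ≤ ℓ ^ δ :=
    (tendsto_rpow_atTop hδ0).eventually_ge_atTop _
  have e5 : ∀ᶠ ℓ : ℝ in atTop, (2 : ℝ) ≤ ℓ ^ (γ / 2) :=
    (tendsto_rpow_atTop (by positivity)).eventually_ge_atTop _
  filter_upwards [eventually_ge_atTop (1 : ℝ), e1, e2, e3, e4, e5,
    eventually_ge_atTop (Real.log 2 * 2 / ε)] with ℓ hℓ h1 h2 h3 h4 h5 h6
  have hℓ0 : 0 < ℓ := by linarith
  refine ⟨hℓ, h1, ?_, ?_, ?_, ?_, ?_, ?_⟩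
  · -- the binomial coefficients
    set r := ℓ ^ (1 / K₁ : ℝ) with hr
    have hr1 : r ≤ ℓ ^ (1 / 8 : ℝ) := Real.rpow_le_rpow_of_exponent_le hℓ hK8
    have hr2 : r * r ≤ ℓ ^ (1 / 4 : ℝ) := by
      calc r * r ≤ ℓ ^ (1 / 8 : ℝ) * ℓ ^ (1 / 8 : ℝ) := by gcongr
        _ = ℓ ^ (1 / 4 : ℝ) := by
            rw [← Real.rpow_add hℓ0]
            norm_num
    have hr3 : r ≤ ℓ ^ (1 / 4 : ℝ) :=
      hr1.trans (Real.rpow_le_rpow_of_exponent_le hℓ (by norm_num))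
    have hr0 : 0 ≤ r := by positivity
    have h7 : -Real.log d ≤ |Real.log d| := neg_le_abs _
    have h8 : ℓ ^ (1 / 4 : ℝ) * ℓ ^ (3 / 4 : ℝ) = ℓ := by
      rw [← Real.rpow_add hℓ0]
      norm_num
    have h9 : (16 + 4 * |Real.log d|) ≤ κ₀ * ℓ ^ (3 / 4 : ℝ) := by
      rw [div_le_iff₀ hκ₀] at h2
      linarith
    calc 4 * r * (4 * r - Real.log d) ≤ 16 * (r * r) + 4 * |Real.log d| * r := by nlinarith
      _ ≤ 16 * ℓ ^ (1 / 4 : ℝ) + 4 * |Real.log d| * ℓ ^ (1 / 4 : ℝ) := by gcongr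
      _ = (16 + 4 * |Real.log d|) * ℓ ^ (1 / 4 : ℝ) := by ring
      _ ≤ (κ₀ * ℓ ^ (3 / 4 : ℝ)) * ℓ ^ (1 / 4 : ℝ) := by gcongr
      _ = κ₀ * ℓ := by rw [mul_assoc, mul_comm (ℓ ^ (3 / 4 : ℝ)), h8]
  · -- the length
    have h7 : (ℓ ^ γ) ^ c = ℓ ^ (γ * c) := by
      rw [← Real.rpow_natCast, ← Real.rpow_mul hℓ0.le]
    rw [h7]
    have h8 : ℓ ^ (2 : ℝ) ≤ ℓ ^ (γ * c) := Real.rpow_le_rpow_of_exponent_le hℓ hc
    have h9 : ℓ ^ (2 : ℝ) = ℓ ^ (1 - δ) * ℓ ^ (1 + δ) := by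
      rw [← Real.rpow_add hℓ0]
      congr 1
      ring
    have h10 : (1 : ℝ) ≤ ℓ ^ (1 + δ) := Real.one_le_rpow hℓ (by linarith)
    calc (G₀ : ℝ) * (2 * ℓ ^ (1 + δ) + 1) ≤ G₀ * (2 * ℓ ^ (1 + δ) + ℓ ^ (1 + δ)) := by gcongr
      _ = 3 * G₀ * ℓ ^ (1 + δ) := by ring
      _ ≤ ℓ ^ (1 - δ) * ℓ ^ (1 + δ) := by gcongr
      _ = ℓ ^ (2 : ℝ) := h9.symm
      _ ≤ _ := h8
  · -- the size of the frequencies
    have h7 : ℓ ^ (1 / K₁ : ℝ) * ℓ = ℓ ^ δ * ℓ ^ (1 + δ) := by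
      rw [← Real.rpow_add hℓ0]
      nth_rw 2 [← Real.rpow_one ℓ]
      rw [← Real.rpow_add hℓ0]
      congr 1
      linarith
    have h8 : (ℓ ^ γ) ^ 2 ≤ ℓ ^ (1 + δ) := by
      rw [← Real.rpow_natCast, ← Real.rpow_mul hℓ0.le]
      apply Real.rpow_le_rpow_of_exponent_le hℓ
      push_cast
      linarith
    have h9 : Real.log 2 ≤ ℓ ^ (1 + δ) := by
      have h10 : (1 : ℝ) ≤ ℓ ^ (1 + δ) := Real.one_le_rpow hℓ (by linarith)
      have := Real.log_two_lt_d9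
      linarith
    rw [h7]
    calc _ ≤ ℓ ^ (1 + δ) + 4 * ℓ ^ (1 + δ) + ℓ ^ (1 + δ) := by gcongr
      _ = 6 * ℓ ^ (1 + δ) := by ring
      _ ≤ _ := by gcongr
  · rw [div_le_iff₀ hε] at h6
    linarith
  · rw [← Real.rpow_natCast, ← Real.rpow_mul hℓ0.le, Real.sqrt_eq_rpow]
    apply Real.rpow_le_rpow_of_exponent_le hℓ
    push_cast
    linarith
  · have h7 : ℓ ^ γ = ℓ ^ (γ / 2) * ℓ ^ (γ / 2) := by
      rw [← Real.rpow_add hℓ0]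
      congr 1
      ring
    rw [h7]
    nlinarith [Real.rpow_nonneg hℓ0.le (γ / 2)]

/-- the number of the terms -/
lemma lac_length {u : ℕ → ℝ} {G₀ L : ℕ} (hG₀ : 1 ≤ G₀)
    (hu : ∀ n, n + G₀ < L → 2 * |u n| ≤ |u (n + G₀)|) {z W : ℝ} (hz : 0 < z)
    (h1 : ∀ n < L, 1 ≤ |u n| * z) (h2 : ∀ n < L, |u n| * z ≤ Real.exp W) (hW : 0 ≤ W) :
    (L : ℝ) ≤ G₀ * (2 * W + 1) := by
  rcases Nat.eq_zero_or_pos L with h0 | h0
  · rw [h0]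
    push_cast
    positivity
  obtain ⟨j, n, hj, hn⟩ : ∃ j n : ℕ, n + G₀ * j = L - 1 ∧ n < G₀ :=
    ⟨(L - 1) / G₀, (L - 1) % G₀, Nat.mod_add_div _ _, Nat.mod_lt _ (by omega)⟩
  have h3 := lac_iter hu j n (by omega)
  have h4 : (2 : ℝ) ^ j ≤ Real.exp W := by
    calc (2 : ℝ) ^ j = 2 ^ j * 1 := (mul_one _).symm
      _ ≤ 2 ^ j * (|u n| * z) := by
          gcongr
          exact h1 n (by
            have : n ≤ n + G₀ * j := Nat.le_add_right _ _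
            omega)
      _ = (2 ^ j * |u n|) * z := by ring
      _ ≤ |u (n + G₀ * j)| * z := by gcongr
      _ ≤ Real.exp W := h2 _ (by omega)
  have h5 : (j : ℝ) * Real.log 2 ≤ W := by
    rw [← Real.log_pow, Real.log_le_iff_le_exp (by positivity)]
    exact h4
  have h6 : (j : ℝ) ≤ 2 * W := by
    have := Real.log_two_gt_d9
    have h7 : (0 : ℝ) ≤ j := Nat.cast_nonneg j
    nlinarith
  have h7 : L ≤ G₀ * (j + 1) := by
    have : G₀ * (j + 1) = G₀ * j + G₀ := by ring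
    omega
  calc (L : ℝ) ≤ ((G₀ * (j + 1) : ℕ) : ℝ) := by exact_mod_cast h7
    _ = G₀ * (j + 1) := by push_cast; ring
    _ ≤ _ := by gcongr

/-- **lacunary sequences times powers**: for almost all `x` in `(X, 2X]` the sequence
`u j * x ^ θ` has almost square root discrepancy in all windows -/
theorem lac : ∃ δ : ℝ, 0 < δ ∧ δ ≤ 1 / 16 ∧ ∀ θ : ℝ, (∀ n : ℕ, θ ≠ n) → ∀ (ε : ℝ) (G₀ : ℕ),
    0 < ε → 1 ≤ G₀ → ∃ κ : ℝ, 0 < κ ∧ κ ≤ 1 / 16 ∧ ∃ X₀ : ℕ, ∀ X : ℕ, X₀ ≤ X →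
      ∀ (u : ℕ → ℝ) (L : ℕ), (∀ n < L, (X : ℝ) ^ ε ≤ |u n| * (X : ℝ) ^ θ) →
      (∀ n < L, |u n| * (X : ℝ) ^ θ ≤ Real.exp ((Real.log X) ^ (1 + δ))) →
      (∀ n, n + G₀ < L → 2 * |u n| ≤ |u (n + G₀)|) →
      ∃ B ⊆ Ioc X (2 * X), (B.card : ℝ) ≤ X * Real.exp (-(Real.log X) ^ κ) ∧
        ∀ x ∈ Ioc X (2 * X), x ∉ B → ∀ s n, s + n ≤ L → ∀ a b : ℝ, 0 ≤ a → a ≤ b → b ≤ 1 →
          |(cn (fun j => u j * (x : ℝ) ^ θ) s n a b : ℝ) - n * (b - a)| ≤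
            √(n : ℝ) * (Real.log X) ^ ε := by
  obtain ⟨K₁, hK₁, hes⟩ := es3
  have hK8 : (8 : ℝ) ≤ K₁ := by exact_mod_cast hK₁
  have hKp : (0 : ℝ) < K₁ := by linarith
  refine ⟨1 / (2 * K₁), by positivity, ?_, ?_⟩
  · apply one_div_le_one_div_of_le (by norm_num)
    linarith
  obtain ⟨δ, hδ⟩ : ∃ δ : ℝ, δ = 1 / (2 * K₁) := ⟨_, rfl⟩
  rw [← hδ]
  intro θ hθ ε G₀ hε hG₀
  obtain ⟨d, hd0, hd1, hdi⟩ := dist_nat hθ
  obtain ⟨κ₀, hκ₀⟩ : ∃ κ₀ : ℝ, κ₀ = min (1 / 16) (ε / 32) := ⟨_, rfl⟩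
  have hκ₀0 : 0 < κ₀ := by rw [hκ₀]; exact lt_min (by norm_num) (by positivity)
  have hκ₀1 : κ₀ ≤ 1 / 16 := by rw [hκ₀]; exact min_le_left _ _
  have hκ₀2 : κ₀ ≤ ε / 32 := by rw [hκ₀]; exact min_le_right _ _
  obtain ⟨X₀, hes⟩ := hes κ₀ hκ₀0 hκ₀1
  obtain ⟨γ, hγ⟩ : ∃ γ : ℝ, γ = min (1 / 8) (ε / 3) := ⟨_, rfl⟩
  have hγ0 : 0 < γ := by rw [hγ]; exact lt_min (by norm_num) (by positivity)
  have hγ1 : γ ≤ 1 / 8 := by rw [hγ]; exact min_le_left _ _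
  have hγ2 : γ ≤ ε / 3 := by rw [hγ]; exact min_le_right _ _
  obtain ⟨c, hc⟩ : ∃ c : ℕ, 2 ≤ γ * c := by
    obtain ⟨c, hc⟩ := exists_nat_ge (2 / γ)
    refine ⟨c, ?_⟩
    rw [div_le_iff₀ hγ0] at hc
    linarith
  have hlog : Tendsto (fun X : ℕ => Real.log (X : ℝ)) atTop atTop :=
    Real.tendsto_log_atTop.comp tendsto_natCast_atTop_atTop
  have ev1 := hlog.eventually (ev_params θ d ε κ₀ γ δ G₀ c K₁ hκ₀0 hε hγ0 hγ1 hK₁ hδ hc hG₀)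
  have ev2 := hlog.eventually ((tendsto_rpow_atTop hγ0).eventually (bb_core G₀ c hG₀))
  refine ⟨γ / 2, by positivity, by linarith, ?_⟩
  rw [← eventually_atTop]
  filter_upwards [ev1, ev2, eventually_ge_atTop X₀, eventually_ge_atTop 1] with X hX1 hX2 hX3 hX4
  obtain ⟨ℓ, hℓ⟩ : ∃ ℓ : ℝ, ℓ = Real.log X := ⟨_, rfl⟩
  rw [← hℓ] at hX1 hX2 ⊢
  obtain ⟨hℓ1, hR1, hbin, hlen, hfr, hlo, hsq, hka⟩ := hX1
  obtain ⟨D, G₁, hD1, hD2, hG1, hG3, hDG, hmain⟩ := hX2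
  intro u L hu1 hu2 hu3
  have hXp : (0 : ℝ) < X := by exact_mod_cast hX4
  have hℓ0 : 0 < ℓ := by linarith
  have hXexp : (X : ℝ) = Real.exp ℓ := by rw [hℓ, Real.exp_log hXp]
  have hXθ : (0 : ℝ) < (X : ℝ) ^ θ := Real.rpow_pos_of_pos hXp θ
  have hX1' : (1 : ℝ) ≤ X := by exact_mod_cast hX4
  -- the set of the starting points
  obtain ⟨Ω, hΩ⟩ : ∃ Ω : Finset ℕ, Ω = Ioc X (2 * X) := ⟨_, rfl⟩
  have hΩc : Ω.card = X := by
    rw [hΩ, Nat.card_Ioc]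
    omega
  have hΩne : Ω.Nonempty := by
    rw [← Finset.card_pos, hΩc]
    omega
  have hL : (L : ℝ) ≤ (ℓ ^ γ) ^ c := by
    refine (lac_length hG₀ hu3 hXθ (fun n hn => ?_) hu2 (by positivity)).trans hlen
    exact (Real.one_le_rpow hX1' hε.le).trans (hu1 n hn)
  obtain ⟨G, hG⟩ : ∃ G : ℕ, G = G₀ * G₁ := ⟨_, rfl⟩
  rw [← hG] at hmain
  obtain ⟨B, hBΩ, hBc, hB⟩ := hmain Ω (fun x j => u j * (x : ℝ) ^ θ) L hΩne hL (by
    intro a ha h hh hhD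
    have hG0 : 0 < G := by
      rw [hG]
      exact Nat.mul_pos hG₀ hG1
    have hlt : ∀ i : ℕ, i < L / G → a + G * i < L := by
      intro i hi
      have h1 : G * (L / G) ≤ L := Nat.mul_div_le L G
      have h2 : G * (i + 1) ≤ G * (L / G) := Nat.mul_le_mul_left G hi
      rw [Nat.mul_add, Nat.mul_one] at h2
      omega
    obtain ⟨n, hn, hn1, hn2⟩ := lac_form (u := fun i => u (a + G * i)) (T := (D : ℝ))
      (by exact_mod_cast hD1) (fun n hn => by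
        have h1 := lac_iter hu3 G₁ (a + G * n) (by
          have := hlt (n + 1) hn
          rw [← hG]
          rw [Nat.mul_add, Nat.mul_one] at this
          omega)
        rw [← hG] at h1
        have h2 : a + G * (n + 1) = a + G * n + G := by ring
        rw [h2]
        refine le_trans ?_ h1
        refine mul_le_mul_of_nonneg_right ?_ (abs_nonneg _)
        exact_mod_cast hDG) h hh hhD
    obtain ⟨H, hH⟩ : ∃ H : ℝ, H = ∑ i, (h i : ℝ) * u (a + G * (i : ℕ)) := ⟨_, rfl⟩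
    rw [← hH] at hn1 hn2
    have hn' := hlt n hn
    have hlow : (X : ℝ) ^ (16 * κ₀) ≤ |H| * (X : ℝ) ^ θ := by
      have h1 : (X : ℝ) ^ ε / 2 ≤ |H| * (X : ℝ) ^ θ := by
        calc (X : ℝ) ^ ε / 2 ≤ (|u (a + G * n)| * (X : ℝ) ^ θ) / 2 := by
              gcongr
              exact hu1 _ hn'
          _ = |u (a + G * n)| / 2 * (X : ℝ) ^ θ := by ring
          _ ≤ _ := by gcongr
      refine le_trans ?_ h1
      have h2 : (X : ℝ) ^ (16 * κ₀) ≤ (X : ℝ) ^ (ε / 2) :=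
        Real.rpow_le_rpow_of_exponent_le hX1' (by linarith)
      have h3 : (2 : ℝ) ≤ (X : ℝ) ^ (ε / 2) := by
        rw [hXexp, ← Real.exp_mul]
        calc (2 : ℝ) = Real.exp (Real.log 2) := (Real.exp_log (by norm_num)).symm
          _ ≤ _ := Real.exp_le_exp.2 (by linarith)
      have h4 : (X : ℝ) ^ ε = (X : ℝ) ^ (ε / 2) * (X : ℝ) ^ (ε / 2) := by
        rw [← Real.rpow_add hXp]
        congr 1
        ring
      rw [h4]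
      nlinarith
    have hHne : H ≠ 0 := by
      rintro rfl
      rw [abs_zero, zero_mul] at hlow
      have := Real.rpow_pos_of_pos hXp (16 * κ₀)
      linarith
    have hup : |H| * (X : ℝ) ^ θ ≤ (X : ℝ) ^ (ℓ ^ (1 / K₁ : ℝ)) := by
      calc |H| * (X : ℝ) ^ θ ≤ (2 * D * |u (a + G * n)|) * (X : ℝ) ^ θ := by gcongr
        _ = 2 * D * (|u (a + G * n)| * (X : ℝ) ^ θ) := by ring
        _ ≤ 2 * Real.exp (4 * (ℓ ^ γ) ^ 2) * Real.exp (ℓ ^ (1 + δ)) := by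
            gcongr
            exact hu2 _ hn'
        _ = Real.exp (Real.log 2 + 4 * (ℓ ^ γ) ^ 2 + ℓ ^ (1 + δ)) := by
            rw [Real.exp_add, Real.exp_add, Real.exp_log (by norm_num)]
        _ ≤ Real.exp (ℓ ^ (1 / K₁ : ℝ) * ℓ) := Real.exp_le_exp.2 hfr
        _ = (X : ℝ) ^ (ℓ ^ (1 / K₁ : ℝ)) := by
            rw [hXexp, ← Real.exp_mul, mul_comm]
    have hRK : (ℓ ^ (1 / K₁ : ℝ)) ^ K₁ ≤ Real.log X := by
      rw [← hℓ, ← Real.rpow_natCast, ← Real.rpow_mul hℓ0.le]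
      have : (1 / K₁ : ℝ) * K₁ = 1 := by field_simp
      rw [this, Real.rpow_one]
    have h1 := hes X hX3 (ℓ ^ (1 / K₁ : ℝ)) θ 0 (fun _ => H)
      (Real.one_le_rpow hℓ1 (by positivity)) hRK (by simpa using hR1) hHne
      (fun k _ => le_mul_of_one_le_right (abs_nonneg _) (Real.one_le_rpow hX1' (by norm_num)))
      hlow hup (fun j hj => by
        refine le_trans ?_ (bin_lower hd0 hd1 hdi hj)
        rw [hXexp, ← Real.exp_mul]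
        apply Real.exp_le_exp.2
        linarith) X (2 * X) le_rfl le_rfl
    have h2 : ∀ x : ℕ, ∑ i, (h i : ℝ) * (u (a + G * (i : ℕ)) * (x : ℝ) ^ θ) =
        ∑ k ∈ range (0 + 1), H * (x : ℝ) ^ (θ - (k : ℕ)) := by
      intro x
      rw [zero_add, range_one, sum_singleton, Nat.cast_zero, sub_zero, hH, Finset.sum_mul]
      refine sum_congr rfl fun i _ => ?_
      ring
    simp only [h2]
    rw [hΩc, hΩ]
    refine h1.trans ?_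
    rw [← hℓ]
    gcongr)
  refine ⟨B, hΩ ▸ hBΩ, ?_, ?_⟩
  · rw [hΩc] at hBc
    refine hBc.trans ?_
    refine mul_le_mul_of_nonneg_left (Real.exp_le_exp.2 ?_) hXp.le
    linarith
  · intro x hx hxB s n hsn a b ha hab hb
    refine (hB x (hΩ ▸ hx) hxB s n hsn a b ha hab hb).trans ?_
    refine mul_le_mul_of_nonneg_left ?_ (Real.sqrt_nonneg _)
    rw [← Real.rpow_natCast, ← Real.rpow_mul hℓ0.le]
    apply Real.rpow_le_rpow_of_exponent_le hℓ1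
    push_cast
    linarith

end Pool.Agent.Q270.VS
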