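import Pool.Agent.Q270.VB.Es

/-!
# The factors of the double Hoelder inequality for small coefficients
-/

set_option autoImplicit false

namespace Pool.Agent.Q270.VS

open Finset
open Pool.Agent.Y957.VK (dz mn WJ)

lemma dz_small {θ : ℝ} (h : |θ| ≤ 1 / 2) : dz θ = |θ| := by
  unfold dz
  apply le_antisymm
  · have := round_le θ 0
    simpa using this
  · rcases eq_or_ne (round θ) 0 with h0 | h0
    · rw [h0]
      simp
    · have h1 : (1 : ℝ) ≤ |((round θ : ℤ) : ℝ)| := by
        have : 1 ≤ |round θ| := Int.one_le_abs h0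
        exact_mod_cast this
      have h2 : |((round θ : ℤ) : ℝ)| - |θ| ≤ |((round θ : ℤ) : ℝ) - θ| := abs_sub_abs_le_abs_sub _ _
      rw [abs_sub_comm] at h2
      linarith

lemma sum_sym (g : ℕ → ℝ) (U : ℕ) :
    ∑ u ∈ Finset.Icc (-(U : ℤ)) U, g u.natAbs = g 0 + 2 * ∑ n ∈ Finset.Icc 1 U, g n := by
  induction U with
  | zero => simp
  | succ U ih =>
    have h1 : Finset.Icc (-((U + 1 : ℕ) : ℤ)) ((U + 1 : ℕ) : ℤ) =
        insert ((U + 1 : ℕ) : ℤ) (insert (-((U + 1 : ℕ) : ℤ)) (Finset.Icc (-(U : ℤ)) U)) := by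
      ext u
      simp only [mem_insert, mem_Icc]
      omega
    rw [h1, sum_insert, sum_insert, ih, Finset.sum_Icc_succ_top (by omega), Int.natAbs_neg,
      Int.natAbs_natCast]
    · ring
    · simp only [mem_Icc]
      omega
    · simp only [mem_insert, mem_Icc]
      omega

/-- a small coefficient -/
theorem WJ_small {s M j : ℕ} {a : ℝ} (ha : a ≠ 0)
    (hU : |a| * ((s * M ^ j : ℕ) : ℝ) ≤ 1 / 2) :
    WJ s M j a ≤ (2 * ((s * M ^ j : ℕ) : ℝ) + 1) +
      (1 + Real.log ((s * M ^ j : ℕ) : ℝ)) / |a| := by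
  unfold WJ
  set U : ℕ := s * M ^ j with hUdef
  have hap : 0 < |a| := abs_pos.2 ha
  set g : ℕ → ℝ := fun n => if n = 0 then 2 * (U : ℝ) + 1 else 1 / (2 * (|a| * n)) with hg
  have h1 : ∀ u ∈ Finset.Icc (-(U : ℤ)) U, mn U (a * u) ≤ g u.natAbs := by
    intro u hu
    rw [mem_Icc] at hu
    rw [hg]
    simp only
    split_ifs with h0
    · exact Pool.Agent.Q270.VB.mn_le _ _
    · have hu0 : u ≠ 0 := by
        intro h
        rw [h] at h0
        exact h0 rfl
      have habs : |(u : ℝ)| = (u.natAbs : ℝ) := by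
        rw [Nat.cast_natAbs]
        push_cast
        rfl
      have hnU : (u.natAbs : ℝ) ≤ U := by
        have : u.natAbs ≤ U := by omega
        exact_mod_cast this
      have hdz : dz (a * u) = |a| * u.natAbs := by
        rw [dz_small, abs_mul, habs]
        rw [abs_mul, habs]
        exact (mul_le_mul_of_nonneg_left hnU hap.le).trans hU
      have hn0 : (0 : ℝ) < u.natAbs := by
        have : 0 < u.natAbs := Nat.pos_of_ne_zero h0
        exact_mod_cast this
      unfold mn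
      rw [hdz, if_neg (by positivity)]
      exact min_le_right _ _
  refine (sum_le_sum h1).trans ?_
  rw [sum_sym]
  have h2 : g 0 = 2 * (U : ℝ) + 1 := by rw [hg]; simp
  have h3 : ∑ n ∈ Finset.Icc 1 U, g n = 1 / (2 * |a|) * ∑ n ∈ Finset.Icc 1 U, (1 : ℝ) / n := by
    rw [mul_sum]
    refine sum_congr rfl fun n hn => ?_
    rw [mem_Icc] at hn
    rw [hg]
    simp only
    rw [if_neg (by omega)]
    have hn0 : (0 : ℝ) < n := by exact_mod_cast hn.1
    field_simp
  have h4 : ∑ n ∈ Finset.Icc 1 U, (1 : ℝ) / n ≤ 1 + Real.log U := by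
    have h5 := harmonic_le_one_add_log U
    rw [harmonic_eq_sum_Icc] at h5
    push_cast at h5
    simpa [one_div] using h5
  rw [h2, h3]
  have h5 : 2 * (1 / (2 * |a|) * ∑ n ∈ Finset.Icc 1 U, (1 : ℝ) / n) ≤ (1 + Real.log U) / |a| := by
    rw [div_eq_mul_inv (1 + Real.log (U : ℝ)), mul_comm (1 + Real.log (U : ℝ))]
    calc 2 * (1 / (2 * |a|) * ∑ n ∈ Finset.Icc 1 U, (1 : ℝ) / n) =
          |a|⁻¹ * ∑ n ∈ Finset.Icc 1 U, (1 : ℝ) / n := by
          field_simp
      _ ≤ |a|⁻¹ * (1 + Real.log U) := by gcongr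
  linarith

end Pool.Agent.Q270.VS
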